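import Pool.Agent.Lib.MP_c80ac4_an.Local.Thin

/-! # A countable forcing set with few accumulation points in the disc -/

namespace Forcing

open Complex Metric Set MeasureTheory Filter Topology

theorem thinPts_countable (m : ℕ) : (thinPts m).Countable := by
  refine (countable_range fun p : ℕ × ℕ =>
    ((Real.exp (-(1 / (m : ℝ) ^ 3 + p.1 / (p.2 : ℝ) ^ 2)) : ℝ) : ℂ)).mono ?_
  rintro z ⟨a, b, -, -, -, rfl⟩
  exact ⟨(a, b), rfl⟩

theorem norm_of_mem_thinPts {m a b : ℕ} :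
    ‖((Real.exp (-(1 / (m : ℝ) ^ 3 + a / (b : ℝ) ^ 2)) : ℝ) : ℂ)‖ =
      Real.exp (-(1 / (m : ℝ) ^ 3 + a / (b : ℝ) ^ 2)) := by
  rw [Complex.norm_real, Real.norm_of_nonneg (Real.exp_pos _).le]

/-- Away from the limit point only finitely many points. -/
theorem thinPts_diff_finite (m : ℕ) {δ : ℝ} (hδ : 0 < δ) :
    (thinPts m \ ball ((Real.exp (-(1 / (m : ℝ) ^ 3)) : ℝ) : ℂ) δ).Finite := by
  obtain ⟨B, hB⟩ := exists_nat_gt (1 / δ)
  refine ((Set.finite_Iic (B, B)).image fun p : ℕ × ℕ =>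
    ((Real.exp (-(1 / (m : ℝ) ^ 3 + p.1 / (p.2 : ℝ) ^ 2)) : ℝ) : ℂ)).subset ?_
  rintro z ⟨⟨a, b, ha, hab, -, rfl⟩, hz⟩
  have hb : 0 < b := by omega
  have hbR : (0 : ℝ) < b := by exact_mod_cast hb
  have hbB : b ≤ B := by
    by_contra hlt
    rw [not_le] at hlt
    apply hz
    rw [Metric.mem_ball, dist_eq_norm, ← Complex.ofReal_sub, Complex.norm_real, Real.norm_eq_abs]
    have h1 : (a : ℝ) / (b : ℝ) ^ 2 ≤ 1 / b := by
      rw [div_le_div_iff₀ (by positivity) hbR]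
      have : (a : ℝ) ≤ b := by exact_mod_cast hab
      nlinarith
    have h2 : 1 / (b : ℝ) < δ := by
      rw [div_lt_iff₀ hbR]
      rw [div_lt_iff₀ hδ] at hB
      have : (B : ℝ) < b := by exact_mod_cast hlt
      nlinarith
    have h3 : Real.exp (-(1 / (m : ℝ) ^ 3 + a / (b : ℝ) ^ 2)) =
        Real.exp (-(1 / (m : ℝ) ^ 3)) * Real.exp (-(a / (b : ℝ) ^ 2)) := by
      rw [← Real.exp_add]
      congr 1
      ring
    have h4 : Real.exp (-(1 / (m : ℝ) ^ 3)) ≤ 1 := Real.exp_le_one_iff.2 (by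
      have : 0 ≤ 1 / (m : ℝ) ^ 3 := by positivity
      linarith)
    have h5 := Real.add_one_le_exp (-(a / (b : ℝ) ^ 2))
    have h6 : Real.exp (-(a / (b : ℝ) ^ 2)) ≤ 1 := Real.exp_le_one_iff.2 (by
      have : 0 ≤ (a : ℝ) / (b : ℝ) ^ 2 := by positivity
      linarith)
    have h7 := Real.exp_pos (-(1 / (m : ℝ) ^ 3))
    rw [h3, abs_lt]
    constructor <;> nlinarith
  exact ⟨(a, b), Set.mem_Iic.2 (Prod.mk_le_mk.2 ⟨hab.trans hbB, hbB⟩), rfl⟩

/-- For large `m` the points are close to the unit circle. -/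
theorem thinPts_far {ρ : ℝ} (hρ : ρ < 1) : ∃ m₀ : ℕ, ∀ m, m₀ ≤ m → ∀ z ∈ thinPts m, ρ < ‖z‖ := by
  obtain ⟨k, hk⟩ := exists_nat_gt (2 / (1 - ρ))
  have hρ' : 0 < 1 - ρ := by linarith
  have hk0 : (0 : ℝ) < k := lt_trans (by positivity) hk
  have hk0' : 0 < k := by exact_mod_cast hk0
  refine ⟨k ^ 2, fun m hm z hz => ?_⟩
  obtain ⟨a, b, ha, hab, hmb, rfl⟩ := hz
  rw [norm_of_mem_thinPts]
  have hkb : k ≤ b := by
    by_contra hlt
    have : b ^ 2 < k ^ 2 := Nat.pow_lt_pow_left (not_le.1 hlt) (by norm_num)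
    omega
  have hb : 0 < b := by omega
  have hbR : (0 : ℝ) < b := by exact_mod_cast hb
  have hkbR : (k : ℝ) ≤ b := by exact_mod_cast hkb
  have hkm : (k : ℝ) ≤ m := by
    have h1 : k ≤ k ^ 2 := Nat.le_self_pow (by norm_num) k
    exact_mod_cast h1.trans hm
  have h1 : (a : ℝ) / (b : ℝ) ^ 2 ≤ 1 / k := by
    rw [div_le_div_iff₀ (by positivity) hk0]
    have : (a : ℝ) ≤ b := by exact_mod_cast hab
    nlinarith
  have h2 : 1 / (m : ℝ) ^ 3 ≤ 1 / k := by
    have hm1 : (1 : ℝ) ≤ m := by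
      have : (1 : ℝ) ≤ k := by exact_mod_cast hk0'
      linarith
    rw [div_le_div_iff₀ (by positivity) hk0]
    have h3 : (m : ℝ) ≤ (m : ℝ) ^ 3 := by
      have : (m : ℝ) ^ 3 = m * (m * m) := by ring
      rw [this]
      nlinarith
    linarith
  have h3 : 2 / (k : ℝ) < 1 - ρ := by
    rw [div_lt_iff₀ hk0]
    rw [div_lt_iff₀ hρ'] at hk
    linarith
  have h4 := Real.add_one_le_exp (-(1 / (m : ℝ) ^ 3 + a / (b : ℝ) ^ 2))
  have h5 : 2 / (k : ℝ) = 1 / k + 1 / k := by ring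
  linarith

/-- The union of the radii of the unit disc that end at the points of `E`. -/
def radii (E : Set ℂ) : Set ℂ := {z | ∃ t ∈ Ico (0 : ℝ) 1, ∃ ζ ∈ E, z = (t : ℂ) * ζ}

theorem radii_subset {E : Set ℂ} (hE : E ⊆ sphere 0 1) : radii E ⊆ ball 0 1 := by
  rintro z ⟨t, ht, ζ, hζ, rfl⟩
  have h1 : ‖ζ‖ = 1 := by simpa using hE hζ
  rw [mem_ball_zero_iff, norm_mul, h1, mul_one, Complex.norm_real, Real.norm_of_nonneg ht.1]
  exact ht.2

theorem closure_radii_subset {E : Set ℂ} (hE : E ⊆ sphere 0 1) (hcl : IsClosed E) :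
    closure (radii E) ∩ sphere 0 1 ⊆ E := by
  have hcomp : IsCompact E := (isCompact_sphere (0 : ℂ) 1).of_isClosed_subset hcl hE
  rintro z ⟨hz1, hz2⟩
  have hz2' : ‖z‖ = 1 := by simpa using hz2
  have hK : IsCompact ((fun p : ℝ × ℂ => (p.1 : ℂ) * p.2) '' (Icc (0 : ℝ) 1 ×ˢ E)) :=
    (isCompact_Icc.prod hcomp).image (by fun_prop)
  have hsub : radii E ⊆ (fun p : ℝ × ℂ => (p.1 : ℂ) * p.2) '' (Icc (0 : ℝ) 1 ×ˢ E) := by
    rintro w ⟨t, ht, ζ, hζ, rfl⟩
    exact ⟨(t, ζ), ⟨⟨ht.1, ht.2.le⟩, hζ⟩, rfl⟩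
  obtain ⟨⟨t, ζ⟩, ⟨ht, hζ⟩, hz⟩ := closure_minimal hsub hK.isClosed hz1
  simp only at hz ht hζ
  have h1 : ‖ζ‖ = 1 := by simpa using hE hζ
  have h2 : t = 1 := by
    rw [← hz, norm_mul, h1, mul_one, Complex.norm_real, Real.norm_of_nonneg ht.1] at hz2'
    exact hz2'
  rw [← hz, h2]
  simpa using hζ

theorem forcing_radii {E : Set ℂ} (hE : E ⊆ sphere 0 1) (h : SidonOn E) : IsForcing (radii E) := by
  refine forcing_of_sidonOn hE (fun ρ hρ => ?_) h
  refine ⟨(((max ρ 0 + 1) / 2 : ℝ) : ℂ), ?_, ?_, fun z hz => subset_closure ?_⟩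
  · rw [Complex.norm_real, Real.norm_of_nonneg (by linarith [le_max_right ρ 0])]
    linarith [le_max_left ρ 0, max_lt hρ one_pos]
  · rw [Complex.norm_real, Real.norm_of_nonneg (by linarith [le_max_right ρ 0])]
    linarith [max_lt hρ one_pos]
  · exact ⟨_, ⟨by linarith [le_max_right ρ 0], by linarith [max_lt hρ one_pos]⟩, z, hz, rfl⟩

theorem nonempty_of_sidonOn {E : Set ℂ} (h : SidonOn E) : E.Nonempty := by
  by_contra hne
  rw [not_nonempty_iff_eq_empty] at hne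
  subst hne
  obtain ⟨N, C, hC⟩ := h 2 one_lt_two
  have hLs : LacSet 2 N (({N + 1} : Finset ℕ) : Set ℕ) := by
    constructor
    · intro m hm
      have : m = N + 1 := by simpa using hm
      omega
    · intro m hm n hn hmn
      have h1 : m = N + 1 := by simpa using hm
      have h2 : n = N + 1 := by simpa using hn
      omega
  have := hC {N + 1} (fun _ => 1) 0 hLs le_rfl (fun z hz => absurd hz (Set.notMem_empty z))
  simp at this
  linarith

/-- Rotated thin sets. -/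
theorem coeffForcing_of_rotated {S : Set ℂ} {u : ℂ} (hu : ‖u‖ = 1)
    (h : ∀ m : ℕ, 1 ≤ m → ∀ z ∈ thinPts m, u * z ∈ S) : CoeffForcing S := by
  rintro c ⟨q, hq, hL⟩ hc ⟨M, hM⟩
  have hu0 : u ≠ 0 := fun h0 => by rw [h0, norm_zero] at hu; exact zero_ne_one hu
  have key := coeffForcing_of_thinPts (S := {z | u * z ∈ S}) (fun m hm z hz => h m hm z hz)
    (fun n => c n * u ^ n) ⟨q, hq, ⟨by simp [hL.1], fun m n hmn hm hn => hL.2 m n hmn
      (left_ne_zero_of_mul hm) (left_ne_zero_of_mul hn)⟩⟩ (fun z hz => ?_) ⟨M, fun z hz => ?_⟩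
  · obtain ⟨A, hA⟩ := key
    refine ⟨A, fun n => ?_⟩
    have := hA n
    rwa [norm_mul, norm_pow, hu, one_pow, mul_one] at this
  · have h1 := hc (u * z) (by rw [norm_mul, hu, one_mul]; exact hz)
    refine h1.congr fun n => ?_
    rw [mul_pow]
    ring
  · have h1 := hM (u * z) hz
    refine le_trans (le_of_eq ?_) h1
    congr 1
    unfold ps
    refine tsum_congr fun n => ?_
    rw [mul_pow]
    ring

/-- **Thin forcing sets** over every closed set with the Sidon property. -/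
theorem exists_thin_forcing {E : Set ℂ} (hEcl : IsClosed E) (hE : E ⊆ sphere 0 1)
    (hSid : SidonOn E) : ∃ S : Set ℂ, S ⊆ ball 0 1 ∧ S.Countable ∧
    (∀ ρ : ℝ, ρ < 1 → ({z | AccPt z (𝓟 S)} ∩ closedBall 0 ρ).Finite) ∧ IsForcing S ∧
    closure S ∩ sphere 0 1 = E := by
  classical
  obtain ⟨u, huE⟩ := nonempty_of_sidonOn hSid
  have hu : ‖u‖ = 1 := by simpa using hE huE
  have hcomp : IsCompact E := (isCompact_sphere (0 : ℂ) 1).of_isClosed_subset hEcl hE
  -- a net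
  set Kk : ℕ → Set ℂ := fun k => (fun p : ℝ × ℂ => (p.1 : ℂ) * p.2) ''
    (Icc (1 - (1 / 2 : ℝ) ^ k) (1 - (1 / 2 : ℝ) ^ (k + 1)) ×ˢ E) with hKk
  have hcpt : ∀ k, IsCompact (Kk k) := fun k => (isCompact_Icc.prod hcomp).image (by fun_prop)
  have hKnorm : ∀ k, ∀ z ∈ Kk k, 1 - (1 / 2 : ℝ) ^ k ≤ ‖z‖ ∧ ‖z‖ ≤ 1 - (1 / 2 : ℝ) ^ (k + 1) := by
    rintro k z ⟨⟨s, ζ⟩, ⟨hs, hζ⟩, rfl⟩
    have h1 : ‖ζ‖ = 1 := by simpa using hE hζ
    have h2 : (0 : ℝ) ≤ s := by
      have : ((1 : ℝ) / 2) ^ k ≤ 1 := pow_le_one₀ (by norm_num) (by norm_num)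
      have := hs.1
      linarith
    simp only [norm_mul, h1, mul_one, Complex.norm_real, Real.norm_of_nonneg h2]
    exact hs
  have hKrad : ∀ k, Kk k ⊆ radii E := by
    rintro k z ⟨⟨s, ζ⟩, ⟨hs, hζ⟩, rfl⟩
    refine ⟨s, ⟨?_, ?_⟩, ζ, hζ, rfl⟩
    · have : ((1 : ℝ) / 2) ^ k ≤ 1 := pow_le_one₀ (by norm_num) (by norm_num)
      have := hs.1
      linarith
    · have : (0 : ℝ) < (1 / 2) ^ (k + 1) := by positivity
      have := hs.2
      linarith
  have hcov : ∀ k, ∃ t ⊆ Kk k, t.Finite ∧ Kk k ⊆ ⋃ x ∈ t, ball x ((1 / 2 : ℝ) ^ (k + 2)) :=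
    fun k => (hcpt k).finite_cover_balls (by positivity)
  choose t ht1 ht2 ht3 using hcov
  set S : Set ℂ := (⋃ m : ℕ, ⋃ _ : 1 ≤ m, (fun z => u * z) '' thinPts m) ∪ ⋃ k, t k with hS
  have hSrad : S ⊆ radii E := by
    rintro z (hz | hz)
    · simp only [mem_iUnion] at hz
      obtain ⟨m, hm, w, ⟨a, b, ha, hab, -, rfl⟩, rfl⟩ := hz
      refine ⟨Real.exp (-(1 / (m : ℝ) ^ 3 + a / (b : ℝ) ^ 2)), ⟨(Real.exp_pos _).le, ?_⟩, u, huE,
        mul_comm _ _⟩
      have hmR : (0 : ℝ) < m := by exact_mod_cast hm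
      have h1 : 0 < 1 / (m : ℝ) ^ 3 + a / (b : ℝ) ^ 2 := by positivity
      have := Real.exp_lt_exp.2 (show -(1 / (m : ℝ) ^ 3 + a / (b : ℝ) ^ 2) < 0 by linarith)
      rwa [Real.exp_zero] at this
    · obtain ⟨k, hk⟩ := mem_iUnion.1 hz
      exact hKrad k (ht1 k hk)
  have hSb : S ⊆ ball 0 1 := hSrad.trans (radii_subset hE)
  have hscale : ∀ w : ℂ, ∀ s ∈ Ico (0 : ℝ) 1, ∀ ζ ∈ E, w = (s : ℂ) * ζ →
      ∃ k : ℕ, ∃ z ∈ t k, ‖z - w‖ < (1 / 2 : ℝ) ^ (k + 2) ∧ ‖w‖ ≤ 1 - (1 / 2 : ℝ) ^ (k + 1) ∧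
        1 - (1 / 2 : ℝ) ^ k ≤ ‖w‖ := by
    rintro w s hs ζ hζ rfl
    have hex : ∃ k : ℕ, s ≤ 1 - (1 / 2 : ℝ) ^ (k + 1) := by
      have h1 : Tendsto (fun k : ℕ => 1 - (1 / 2 : ℝ) ^ (k + 1)) atTop (𝓝 (1 - 0)) :=
        ((tendsto_pow_atTop_nhds_zero_of_lt_one (by norm_num) (by norm_num)).comp
          (tendsto_add_atTop_nat 1)).const_sub 1
      rw [sub_zero] at h1
      obtain ⟨k, hk⟩ := (h1.eventually (lt_mem_nhds hs.2)).exists
      exact ⟨k, hk.le⟩
    have hwK : (s : ℂ) * ζ ∈ Kk (Nat.find hex) := by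
      refine ⟨(s, ζ), ⟨⟨?_, Nat.find_spec hex⟩, hζ⟩, rfl⟩
      rcases Nat.eq_zero_or_pos (Nat.find hex) with h0 | h0
      · rw [h0, pow_zero, sub_self]
        exact hs.1
      · obtain ⟨j, hj⟩ := Nat.exists_eq_succ_of_ne_zero h0.ne'
        have h2 := Nat.find_min hex (m := j) (by omega)
        rw [not_le] at h2
        rw [hj]
        exact h2.le
    set k := Nat.find hex with hk
    have h1 := ht3 k hwK
    simp only [mem_iUnion] at h1
    obtain ⟨z, hz, hwz⟩ := h1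
    rw [Metric.mem_ball, dist_eq_norm, norm_sub_rev] at hwz
    exact ⟨k, z, hz, hwz, (hKnorm k _ hwK).2, (hKnorm k _ hwK).1⟩
  refine ⟨S, hSb, ?_, fun ρ hρ => ?_, ?_, ?_⟩
  · refine Set.Countable.union ?_ ?_
    · exact countable_iUnion fun m => countable_iUnion fun _ => (thinPts_countable m).image _
    · exact countable_iUnion fun k => (ht2 k).countable
  · -- accumulation points
    obtain ⟨ρ', hρ1, hρ2⟩ := exists_between hρ
    obtain ⟨m₀, hm₀⟩ := thinPts_far hρ2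
    obtain ⟨k₀, hk₀⟩ : ∃ k₀ : ℕ, ∀ k, k₀ ≤ k → ∀ z ∈ t k, ρ' < ‖z‖ := by
      have h1 : Tendsto (fun k : ℕ => 1 - (1 / 2 : ℝ) ^ k) atTop (𝓝 (1 - 0)) :=
        (tendsto_pow_atTop_nhds_zero_of_lt_one (by norm_num) (by norm_num)).const_sub 1
      rw [sub_zero] at h1
      obtain ⟨k₀, hk₀⟩ := Filter.eventually_atTop.1 (h1.eventually (lt_mem_nhds hρ2))
      exact ⟨k₀, fun k hk z hz => (hk₀ k hk).trans_le (hKnorm k z (ht1 k hz)).1⟩
    set a : ℕ → ℂ := fun m => u * ((Real.exp (-(1 / (m : ℝ) ^ 3)) : ℝ) : ℂ) with ha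
    refine ((Finset.range m₀).image a).finite_toSet.subset ?_
    rintro z ⟨hacc, hzρ⟩
    rw [mem_closedBall_zero_iff] at hzρ
    by_contra hz
    have hne : ∀ m < m₀, z ≠ a m := by
      intro m hm heq
      apply hz
      rw [Finset.mem_coe, Finset.mem_image]
      exact ⟨m, Finset.mem_range.2 hm, heq.symm⟩
    -- a radius
    obtain ⟨δ, hδ0, hδ1, hδ2⟩ : ∃ δ : ℝ, 0 < δ ∧ δ ≤ ρ' - ρ ∧
        ∀ m < m₀, 2 * δ ≤ dist z (a m) := by
      have h1 : ∀ N : ℕ, N ≤ m₀ → ∃ δ : ℝ, 0 < δ ∧ δ ≤ ρ' - ρ ∧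
          ∀ m < N, 2 * δ ≤ dist z (a m) := by
        intro N
        induction N with
        | zero =>
          intro _
          exact ⟨ρ' - ρ, by linarith, le_rfl, fun m hm => absurd hm (Nat.not_lt_zero m)⟩
        | succ N ih =>
          intro hN
          obtain ⟨δ, h1, h2, h3⟩ := ih (by omega)
          have h4 : 0 < dist z (a N) := dist_pos.2 (hne N (by omega))
          refine ⟨min δ (dist z (a N) / 2),
            lt_min h1 (by linarith), (min_le_left _ _).trans h2, fun m hm => ?_⟩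
          rcases Nat.lt_succ_iff_lt_or_eq.1 hm with h5 | h5
          · have := h3 m h5
            have := min_le_left δ (dist z (a N) / 2)
            linarith
          · subst h5
            have := min_le_right δ (dist z (a m) / 2)
            linarith
      exact h1 m₀ le_rfl
    have hfin : (S ∩ ball z δ).Finite := by
      have hF : ((⋃ m ∈ Finset.range m₀, (fun z => u * z) ''
          (thinPts m \ ball ((Real.exp (-(1 / (m : ℝ) ^ 3)) : ℝ) : ℂ) δ)) ∪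
          ⋃ k ∈ Finset.range k₀, t k).Finite := by
        refine Set.Finite.union ?_ ?_
        · exact (Finset.range m₀).finite_toSet.biUnion fun m _ =>
            (thinPts_diff_finite m hδ0).image _
        · exact (Finset.range k₀).finite_toSet.biUnion fun k _ => ht2 k
      refine hF.subset ?_
      rintro w ⟨hwS, hwz⟩
      have hwρ : ‖w‖ < ρ' := by
        rw [Metric.mem_ball, dist_eq_norm] at hwz
        have h1 : ‖w‖ ≤ ‖w - z‖ + ‖z‖ := by
          have := norm_add_le (w - z) z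
          rwa [sub_add_cancel] at this
        linarith
      rcases hwS with hw | hw
      · left
        simp only [mem_iUnion] at hw
        obtain ⟨m, -, v, hvm, rfl⟩ := hw
        have hnv : ‖u * v‖ = ‖v‖ := by rw [norm_mul, hu, one_mul]
        have hm : m < m₀ := by
          by_contra hcon
          have := hm₀ m (not_lt.1 hcon) v hvm
          rw [hnv] at hwρ
          linarith
        simp only [mem_iUnion]
        refine ⟨m, Finset.mem_range.2 hm, v, ⟨hvm, fun hwb => ?_⟩, rfl⟩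
        have h1 := hδ2 m hm
        have h2 := dist_triangle z (u * v) (a m)
        have h3 : dist (u * v) (a m) = dist v ((Real.exp (-(1 / (m : ℝ) ^ 3)) : ℝ) : ℂ) := by
          rw [dist_eq_norm, dist_eq_norm, ha, ← mul_sub, norm_mul, hu, one_mul]
        rw [Metric.mem_ball] at hwb hwz
        rw [dist_comm z (u * v), h3] at h2
        linarith
      · right
        obtain ⟨k, hk⟩ := mem_iUnion.1 hw
        have hkk : k < k₀ := by
          by_contra hcon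
          exact absurd (hk₀ k (not_lt.1 hcon) w hk) (not_lt.2 hwρ.le)
        simp only [mem_iUnion]
        exact ⟨k, Finset.mem_range.2 hkk, hk⟩
    -- contradiction
    rw [Set.mem_ofPred_eq, accPt_iff_nhds] at hacc
    have hopen : IsOpen (ball z δ \ ((S ∩ ball z δ) \ {z})) :=
      isOpen_ball.sdiff (hfin.subset sdiff_subset).isClosed
    obtain ⟨y, ⟨hy1, hy2⟩, hy3⟩ := hacc (ball z δ \ ((S ∩ ball z δ) \ {z}))
      (hopen.mem_nhds ⟨mem_ball_self hδ0, fun h => h.2 rfl⟩)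
    exact hy1.2 ⟨⟨hy2, hy1.1⟩, hy3⟩
  · rw [forcing_iff_nbhd hSb (ρ := 1 / 2) (by norm_num) (by norm_num)]
    refine ⟨coeffForcing_of_rotated hu fun m hm z hz => Or.inl ?_, ?_⟩
    · simp only [mem_iUnion]
      exact ⟨m, hm, z, hz, rfl⟩
    · refine (forcing_radii hE hSid).mono fun w hw => ?_
      have hw1 : ‖w‖ < 1 := mem_ball_zero_iff.1 (radii_subset hE hw)
      refine ⟨hw1, ?_⟩
      obtain ⟨s, hs, ζ, hζ, hws⟩ := hw
      obtain ⟨k, z, hz, hwz, hw2, -⟩ := hscale w s hs ζ hζ hws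
      refine ⟨z, Or.inr (mem_iUnion.2 ⟨k, hz⟩), ?_⟩
      have h2 : ‖z‖ < 1 := mem_ball_zero_iff.1 (hSb (Or.inr (mem_iUnion.2 ⟨k, hz⟩)))
      have h3 : 1 - ‖w‖ ≤ ‖1 - (starRingEnd ℂ) z * w‖ := by
        have h4 : ‖(starRingEnd ℂ) z * w‖ ≤ ‖w‖ := by
          rw [norm_mul, RCLike.norm_conj]
          nlinarith [norm_nonneg w]
        have h5 := norm_sub_norm_le (1 : ℂ) ((starRingEnd ℂ) z * w)
        rw [norm_one] at h5
        linarith
      have h5 : (1 / 2 : ℝ) ^ (k + 2) = 1 / 2 * (1 / 2) ^ (k + 1) := by ring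
      linarith
  · apply Subset.antisymm
    · exact fun z hz => closure_radii_subset hE hEcl ⟨closure_mono hSrad hz.1, hz.2⟩
    · intro ζ hζ
      refine ⟨?_, hE hζ⟩
      have hζ1 : ‖ζ‖ = 1 := by simpa using hE hζ
      rw [Metric.mem_closure_iff]
      intro ε hε
      obtain ⟨s, hs1, hs2⟩ := exists_between (show max 0 (1 - ε / 3) < 1 from
        max_lt one_pos (by linarith))
      have hs0 : 0 ≤ s := (le_max_left _ _).trans hs1.le
      have hs3 : 1 - ε / 3 < s := (le_max_right _ _).trans_lt hs1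
      obtain ⟨k, z, hz, hwz, -, hk⟩ := hscale ((s : ℂ) * ζ) s ⟨hs0, hs2⟩ ζ hζ rfl
      have hns : ‖(s : ℂ) * ζ‖ = s := by
        rw [norm_mul, hζ1, mul_one, Complex.norm_real, Real.norm_of_nonneg hs0]
      obtain ⟨k', z', hz', hwz', hk1, hk2⟩ := hscale ((s : ℂ) * ζ) s ⟨hs0, hs2⟩ ζ hζ rfl
      refine ⟨z', Or.inr (mem_iUnion.2 ⟨k', hz'⟩), ?_⟩
      have h1 : dist ζ ((s : ℂ) * ζ) = 1 - s := by
        rw [dist_eq_norm]
        have e : ζ - (s : ℂ) * ζ = ((1 - s : ℝ) : ℂ) * ζ := by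
          push_cast
          ring
        rw [e, norm_mul, hζ1, mul_one, Complex.norm_real, Real.norm_of_nonneg (by linarith)]
      have h2 : dist ((s : ℂ) * ζ) z' < 1 - s := by
        rw [dist_comm, dist_eq_norm]
        rw [hns] at hk1
        have h5 : (1 / 2 : ℝ) ^ (k' + 2) = 1 / 2 * (1 / 2) ^ (k' + 1) := by ring
        have h6 : (0 : ℝ) < (1 / 2) ^ (k' + 1) := by positivity
        linarith
      have h3 := dist_triangle ζ ((s : ℂ) * ζ) z'
      linarith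

end Forcing
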