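import Pool.Agent.Lib.MP_c80ac4_an.Grow

/-! # Domination by one term on circles -/

namespace Forcing

open Complex Metric Set MeasureTheory Filter Topology

/-- One term dominates on a circle. -/
theorem dom_core {q τ : ℝ} {c : ℕ → ℂ} (hq : 1 < q) (hτ : 0 < τ) (hL : Lac q c) (hc : Conv c)
    {t₀ c₁ : ℝ} (ht₀ : t₀ = q ^ (1 / 3 : ℝ))
    (hc₁ : c₁ = (1 - 1 / t₀) ^ 2 / (1 + (1 - 1 / t₀) ^ 2))
    {n : ℕ} (hn1 : 1 ≤ n) (hcn : c n ≠ 0)
    (hn : ∀ m, ‖c m‖ * Real.exp (-(τ * m) - 2 * (m : ℝ) ^ (1 / 3 : ℝ)) ≤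
      ‖c n‖ * Real.exp (-(τ * n) - 2 * (n : ℝ) ^ (1 / 3 : ℝ)))
    (hsum : Real.exp (-(2 / 3 * c₁ * (n : ℝ) ^ (1 / 3 : ℝ))) *
      (1 + ((n : ℝ) ^ (1 / 3 : ℝ)) ^ 2 / (2 / 3 * c₁)) ≤ 1 / 2)
    {z : ℂ} (hz1 : ‖z‖ = Real.exp (-(τ + 2 / 3 / ((n : ℝ) ^ (1 / 3 : ℝ)) ^ 2))) :
    ‖c n‖ * Real.exp (-(τ * n) - 2 * (n : ℝ) ^ (1 / 3 : ℝ)) ≤ 2 * ‖ps c z‖ := by
  have ht1 : 1 < t₀ := by
    rw [ht₀]
    exact Real.one_lt_rpow hq (by norm_num)
  have ht0 : 0 < t₀ := by linarith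
  have hη : 0 < 1 - 1 / t₀ := by
    have : 1 / t₀ < 1 := by
      rw [div_lt_one ht0]
      exact ht1
    linarith
  have hc₁0 : 0 < c₁ := by
    rw [hc₁]
    positivity
  have hxnn : ∀ n : ℕ, 0 ≤ (n : ℝ) ^ (1 / 3 : ℝ) := fun n => Real.rpow_nonneg (Nat.cast_nonneg n) _
  have hx0' : 0 < (n : ℝ) ^ (1 / 3 : ℝ) := Real.rpow_pos_of_pos (by exact_mod_cast hn1) _
  set x : ℝ := (n : ℝ) ^ (1 / 3 : ℝ) with hx
  have hx0 : 0 < x := hx0'
  have hx3 : x ^ 3 = n := grow_cube n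
  set s : ℝ := 2 / 3 / x ^ 2 with hsdef
  have hs0 : 0 < s := by positivity
  have hsx : s * x ^ 2 = 2 / 3 := by
    rw [hsdef]
    field_simp
  have hzn : ∀ m : ℕ, ‖z ^ m‖ = Real.exp (-(τ * m) - s * m) := by
    intro m
    rw [norm_pow, hz1, ← Real.exp_nat_mul]
    congr 1
    ring
  -- comparison of terms
  have hterm : ∀ m : ℕ, m ≠ n → ‖c m * z ^ m‖ ≤ ‖c n * z ^ n‖ *
      (Real.exp (-(2 / 3 * c₁ * x)) * Real.exp (-(2 / 3 * c₁ / x ^ 2)) ^ m) := by
    intro m hmn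
    by_cases hcm : c m = 0
    · rw [hcm, zero_mul, norm_zero]
      positivity
    · set y : ℝ := (m : ℝ) ^ (1 / 3 : ℝ) with hy
      have hy0 : 0 ≤ y := hxnn m
      have hy3 : y ^ 3 = m := grow_cube m
      have hdich : t₀ * x ≤ y ∨ t₀ * y ≤ x := by
        rcases lt_or_gt_of_ne hmn with h1 | h1
        · right
          have h2 := hL.2 m n h1 hcm hcn
          rw [ht₀, hy, hx, ← Real.mul_rpow (by linarith) (Nat.cast_nonneg m)]
          exact Real.rpow_le_rpow (by positivity) h2 (by norm_num)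
        · left
          have h2 := hL.2 n m h1 hcn hcm
          rw [ht₀, hy, hx, ← Real.mul_rpow (by linarith) (Nat.cast_nonneg n)]
          exact Real.rpow_le_rpow (by positivity) h2 (by norm_num)
      have halg := grow_alg hx0 hy0 ht1 hdich
      rw [← hc₁, ← hsdef, hx3, hy3] at halg
      have hVm := hn m
      rw [norm_mul, norm_mul, hzn, hzn, ← Real.exp_nat_mul]
      calc ‖c m‖ * Real.exp (-(τ * m) - s * m)
          = (‖c m‖ * Real.exp (-(τ * m) - 2 * y)) * Real.exp (2 * y - s * m) := by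
            rw [mul_assoc, ← Real.exp_add]
            congr 2
            ring
        _ ≤ (‖c n‖ * Real.exp (-(τ * n) - 2 * x)) *
              Real.exp (2 * x - s * n - c₁ * s * (n + m)) :=
            mul_le_mul hVm (Real.exp_le_exp.2 halg) (Real.exp_pos _).le (by positivity)
        _ = ‖c n‖ * Real.exp (-(τ * n) - s * n) * (Real.exp (-(2 / 3 * c₁ * x)) *
              Real.exp (m * -(2 / 3 * c₁ / x ^ 2))) := by
            have e1 : s * (n : ℝ) = 2 / 3 * x := by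
              rw [← hx3]
              linear_combination x * hsx
            have e2 : 2 / 3 * c₁ / x ^ 2 = c₁ * s := by
              rw [hsdef]
              ring
            rw [mul_assoc ‖c n‖, mul_assoc ‖c n‖, ← Real.exp_add, ← Real.exp_add,
              ← Real.exp_add, e2]
            congr 2
            linear_combination (-c₁) * e1
  -- sum of the other terms
  have hzlt : ‖z‖ < 1 := by
    rw [hz1]
    exact grow_exp_lt (by linarith)
  have hsumm := hc z hzlt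
  have hb0 : 0 ≤ Real.exp (-(2 / 3 * c₁ / x ^ 2)) := (Real.exp_pos _).le
  have hb1 : Real.exp (-(2 / 3 * c₁ / x ^ 2)) < 1 := by
    apply grow_exp_lt
    have : 0 < 2 / 3 * c₁ / x ^ 2 := by positivity
    linarith
  have hgs := (summable_geometric_of_lt_one hb0 hb1).mul_left
    (‖c n * z ^ n‖ * Real.exp (-(2 / 3 * c₁ * x)))
  have hrest : ‖∑' m, (if m = n then 0 else c m * z ^ m)‖ ≤ ‖c n * z ^ n‖ * (1 / 2) := by
    have hle : ∀ m, ‖(if m = n then 0 else c m * z ^ m)‖ ≤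
        (‖c n * z ^ n‖ * Real.exp (-(2 / 3 * c₁ * x))) *
          Real.exp (-(2 / 3 * c₁ / x ^ 2)) ^ m := by
      intro m
      split_ifs with hmn
      · rw [norm_zero]
        positivity
      · rw [mul_assoc]
        exact hterm m hmn
    have h1 := tsum_of_norm_bounded hgs.hasSum hle
    refine h1.trans ?_
    rw [tsum_mul_left, tsum_geometric_of_lt_one hb0 hb1, mul_assoc]
    refine mul_le_mul_of_nonneg_left ?_ (norm_nonneg _)
    refine le_trans ?_ hsum
    refine mul_le_mul_of_nonneg_left ?_ (Real.exp_pos _).le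
    have h2 := grow_geom (a := 2 / 3 * c₁ / x ^ 2) (by positivity)
    rw [one_div_div] at h2
    exact h2
  have hsplit : ps c z = c n * z ^ n + ∑' m, (if m = n then 0 else c m * z ^ m) :=
    hsumm.tsum_eq_add_tsum_ite n
  have h3 : ‖c n * z ^ n‖ ≤ 2 * ‖ps c z‖ := by
    have h4 : c n * z ^ n = ps c z - ∑' m, (if m = n then 0 else c m * z ^ m) := by
      rw [hsplit]
      ring
    have h5 : ‖c n * z ^ n‖ ≤ ‖ps c z‖ + ‖∑' m, (if m = n then 0 else c m * z ^ m)‖ := by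
      conv_lhs => rw [h4]
      exact norm_sub_le _ _
    linarith
  refine le_trans ?_ h3
  rw [norm_mul, hzn]
  refine mul_le_mul_of_nonneg_left (Real.exp_le_exp.2 ?_) (norm_nonneg _)
  have e1 : s * (n : ℝ) = 2 / 3 * x := by
    rw [← hx3]
    linear_combination x * hsx
  rw [e1]
  linarith

theorem dom_lim {t : ℝ} (ht : 0 < t) (B : ℝ) :
    ∃ M : ℕ, ∀ n : ℕ, M ≤ n → B ≤ t * n - 2 * (n : ℝ) ^ (1 / 3 : ℝ) := by
  have hx : Tendsto (fun n : ℕ => (n : ℝ) ^ (1 / 3 : ℝ)) atTop atTop :=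
    (tendsto_rpow_atTop (by norm_num)).comp tendsto_natCast_atTop_atTop
  have h1 : ∀ᶠ x : ℝ in atTop, B ≤ t * x ^ 3 - 2 * x := by
    filter_upwards [eventually_ge_atTop (max (B + 1) (max 1 (3 / t)))] with x hx
    have h2 : B + 1 ≤ x := (le_max_left _ _).trans hx
    have h3 : 1 ≤ x := (le_max_left _ _).trans ((le_max_right _ _).trans hx)
    have h4 : 3 / t ≤ x := (le_max_right _ _).trans ((le_max_right _ _).trans hx)
    rw [div_le_iff₀ ht] at h4
    have h5 : 3 * x ^ 2 ≤ t * x ^ 3 := by nlinarith [sq_nonneg x]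
    nlinarith
  obtain ⟨M, hM⟩ := Filter.eventually_atTop.1 (hx.eventually h1)
  refine ⟨M, fun n hn => ?_⟩
  have := hM n hn
  rwa [grow_cube] at this

/-- **Domination on some circle.** If the maximal term of a gap series on the circle of radius `a`
is large and has a large index, then the series is large on some circle of radius between `a` and
`b`. -/
theorem dominate {q a b : ℝ} (hq : 1 < q) (ha : 0 < a) (hab : a < b) (hb : b < 1) :
    ∃ M : ℕ, ∀ c : ℕ → ℂ, Lac q c → Conv c →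
      (∃ n : ℕ, M ≤ n ∧ (M : ℝ) < ‖c n‖ * a ^ n ∧ ∀ m, ‖c m‖ * a ^ m ≤ ‖c n‖ * a ^ n) →
      ∃ r : ℝ, a < r ∧ r < b ∧ ∀ z : ℂ, ‖z‖ = r → 1 < ‖ps c z‖ := by
  obtain ⟨b', hab', hb'⟩ := exists_between hab
  have hb'0 : 0 < b' := ha.trans hab'
  have hb'1 : b' < 1 := hb'.trans hb
  set τ : ℝ := -Real.log b' with hτdef
  have hτ : 0 < τ := by
    have := Real.log_neg hb'0 hb'1
    linarith
  have hexpτ : Real.exp (-τ) = b' := by
    rw [hτdef, neg_neg, Real.exp_log hb'0]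
  set t : ℝ := Real.log (b' / a) with htdef
  have ht : 0 < t := Real.log_pos (by rw [lt_div_iff₀ ha]; linarith)
  have hexpt : Real.exp t = b' / a := Real.exp_log (by positivity)
  set t₀ : ℝ := q ^ (1 / 3 : ℝ) with ht₀
  have ht1 : 1 < t₀ := Real.one_lt_rpow hq (by norm_num)
  have ht0 : 0 < t₀ := by linarith
  have hη : 0 < 1 - 1 / t₀ := by
    have : 1 / t₀ < 1 := by
      rw [div_lt_one ht0]
      exact ht1
    linarith
  set c₁ : ℝ := (1 - 1 / t₀) ^ 2 / (1 + (1 - 1 / t₀) ^ 2) with hc₁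
  have hc₁0 : 0 < c₁ := by positivity
  obtain ⟨n₀, hn₀1, hn₀⟩ := grow_thr (c' := 2 / 3 * c₁) (ρ := t / 2) (by positivity) (by positivity)
  obtain ⟨M₁, hM₁⟩ := dom_lim ht (t * n₀ + 1)
  refine ⟨max M₁ 2, fun c hL hc => ?_⟩
  rintro ⟨na, hna1, hna2, hna3⟩
  have hM2 : (2 : ℝ) ≤ ((max M₁ 2 : ℕ) : ℝ) := by exact_mod_cast le_max_right _ _
  have hA : 2 < ‖c na‖ * a ^ na := lt_of_le_of_lt hM2 hna2
  have hbig := hM₁ na ((le_max_left _ _).trans hna1)
  -- the weighted terms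
  set V : ℕ → ℝ := fun m => ‖c m‖ * Real.exp (-(τ * m) - 2 * (m : ℝ) ^ (1 / 3 : ℝ)) with hV
  have hxnn : ∀ n : ℕ, 0 ≤ (n : ℝ) ^ (1 / 3 : ℝ) := fun n => Real.rpow_nonneg (Nat.cast_nonneg n) _
  have hpow : ∀ m : ℕ, Real.exp (-(τ * m)) = a ^ m * Real.exp (t * m) := by
    intro m
    have h1 : Real.exp (-(τ * m)) = b' ^ m := by
      rw [← hexpτ, ← Real.exp_nat_mul]
      congr 1
      ring
    have h2 : Real.exp (t * m) = (b' / a) ^ m := by
      rw [← hexpt, ← Real.exp_nat_mul]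
      congr 1
      ring
    rw [h1, h2, div_pow]
    field_simp
  have hVm : ∀ m, V m = (‖c m‖ * a ^ m) * Real.exp (t * m - 2 * (m : ℝ) ^ (1 / 3 : ℝ)) := by
    intro m
    simp only [hV]
    rw [sub_eq_add_neg, Real.exp_add, hpow, sub_eq_add_neg, Real.exp_add]
    ring
  have hVna : (‖c na‖ * a ^ na) * Real.exp (t * n₀ + 1) ≤ V na := by
    rw [hVm]
    exact mul_le_mul_of_nonneg_left (Real.exp_le_exp.2 hbig) (by positivity)
  have hVsmall : ∀ m, m ≤ n₀ → V m ≤ (‖c na‖ * a ^ na) * Real.exp (t * n₀) := by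
    intro m hm
    rw [hVm]
    refine mul_le_mul (hna3 m) (Real.exp_le_exp.2 ?_) (Real.exp_pos _).le (by positivity)
    have h1 : t * (m : ℝ) ≤ t * n₀ := by
      apply mul_le_mul_of_nonneg_left _ ht.le
      exact_mod_cast hm
    linarith [hxnn m]
  have hVlim : Tendsto V atTop (𝓝 0) := by
    have h1 : Tendsto (fun m : ℕ => c m * ((Real.exp (-τ) : ℝ) : ℂ) ^ m) atTop (𝓝 0) := by
      refine (hc ((Real.exp (-τ) : ℝ) : ℂ) ?_).tendsto_atTop_zero
      rw [Complex.norm_real, Real.norm_eq_abs, abs_of_pos (Real.exp_pos _)]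
      exact grow_exp_lt (by linarith)
    have h2 := h1.norm
    rw [norm_zero] at h2
    refine squeeze_zero (fun m => by positivity) (fun m => ?_) h2
    rw [norm_mul, norm_pow, Complex.norm_real, Real.norm_eq_abs, abs_of_pos (Real.exp_pos _),
      ← Real.exp_nat_mul]
    refine mul_le_mul_of_nonneg_left (Real.exp_le_exp.2 ?_) (norm_nonneg _)
    have := hxnn m
    linarith
  have hVna0 : 0 < V na := lt_of_lt_of_le (by positivity) hVna
  obtain ⟨n, hn⟩ := grow_max hVlim hVna0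
  have hcn : c n ≠ 0 := by
    intro h0
    have h1 := hn na
    have h2 : V n = 0 := by
      simp only [hV]
      rw [h0, norm_zero, zero_mul]
    linarith
  have hnn₀ : n₀ ≤ n := by
    by_contra hlt
    rw [not_le] at hlt
    have h1 := hVsmall n hlt.le
    have h2 := hn na
    have h3 : Real.exp (t * n₀) < Real.exp (t * n₀ + 1) := Real.exp_lt_exp.2 (by linarith)
    have h4 : (‖c na‖ * a ^ na) * Real.exp (t * n₀) < (‖c na‖ * a ^ na) * Real.exp (t * n₀ + 1) :=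
      mul_lt_mul_of_pos_left h3 (by linarith)
    linarith
  obtain ⟨hs, hsum⟩ := hn₀ n hnn₀
  have hn1 : 1 ≤ n := hn₀1.trans hnn₀
  have hx0 : 0 < (n : ℝ) ^ (1 / 3 : ℝ) := Real.rpow_pos_of_pos (by exact_mod_cast hn1) _
  refine ⟨Real.exp (-(τ + 2 / 3 / ((n : ℝ) ^ (1 / 3 : ℝ)) ^ 2)), ?_, ?_, fun z hz => ?_⟩
  · have h1 : a = Real.exp (-(τ + t)) := by
      rw [neg_add, Real.exp_add, hexpτ, Real.exp_neg, hexpt]
      field_simp
    conv_lhs => rw [h1]
    apply Real.exp_lt_exp.2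
    linarith
  · refine lt_trans ?_ hb'
    rw [← hexpτ]
    apply Real.exp_lt_exp.2
    have : 0 < 2 / 3 / ((n : ℝ) ^ (1 / 3 : ℝ)) ^ 2 := by positivity
    linarith
  · have h1 := dom_core hq hτ hL hc ht₀ hc₁ hn1 hcn hn hsum hz
    have h2 := hn na
    simp only [hV] at h2 hVna
    have h3 : 1 ≤ Real.exp (t * n₀ + 1) := by
      apply Real.one_le_exp
      positivity
    have h4 : ‖c na‖ * a ^ na ≤ (‖c na‖ * a ^ na) * Real.exp (t * n₀ + 1) := by
      nlinarith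
    linarith

end Forcing
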