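import Pool.Agent.Lib.MP_c80ac4_an.Local.Limit
import Pool.Agent.Lib.MP_c80ac4_an.Local.Dom

/-! # Free annuli and approximation of one by high frequencies -/

namespace Forcing

open Complex Metric Set MeasureTheory Filter Topology Polynomial

theorem Blow.mono {F : ℕ → ℂ[X]} {r r' : ℝ} (h : Blow F r) (hr : 0 < r) (hrr : r ≤ r') :
    Blow F r' := by
  intro M
  obtain ⟨i, hi, n, hn, hval, hmax⟩ := h M
  have hr' : 0 < r' := hr.trans_le hrr
  have hF : F i ≠ 0 := by
    intro h0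
    rw [h0, Polynomial.coeff_zero, norm_zero, zero_mul] at hval
    exact absurd hval (not_lt.2 (Nat.cast_nonneg M))
  obtain ⟨n', hn'0, hn'⟩ := exists_max_term hF hr'
  have hval' : (M : ℝ) < ‖(F i).coeff n‖ * r' ^ n :=
    hval.trans_le (mul_le_mul_of_nonneg_left (pow_le_pow_left₀ hr.le hrr n) (norm_nonneg _))
  rcases le_or_gt n n' with h1 | h1
  · exact ⟨i, hi, n', hn.trans h1, hval'.trans_le (hn' n), hn'⟩
  · refine ⟨i, hi, n, hn, hval', fun m => (hn' m).trans ?_⟩
    have h2 : 1 ≤ r' / r := (one_le_div hr).2 hrr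
    have e : ∀ k : ℕ, r' ^ k = r ^ k * (r' / r) ^ k := by
      intro k
      rw [← mul_pow]
      congr 1
      field_simp
    rw [e n', e n, ← mul_assoc, ← mul_assoc]
    exact mul_le_mul (hmax n') (pow_le_pow_right₀ h2 h1.le) (by positivity) (by positivity)

/-- **Free annuli.** -/
theorem free_annulus {S : Set ℂ} {q : ℝ} (hq : 1 < q) {F : ℕ → ℂ[X]}
    (hL : ∀ i, Lac q (F i).coeff)
    (hb : ∀ r : ℝ, r < 1 → ∃ i₀ : ℕ, ∀ i, i₀ ≤ i → ∀ z ∈ S, ‖z‖ ≤ r → ‖(F i).eval z‖ ≤ 1)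
    {a b : ℝ} (ha : 0 < a) (hab : a < b) (hb1 : b < 1) (hB : Blow F a) :
    ∃ x y : ℝ, a < x ∧ x < y ∧ y < b ∧ ∀ z ∈ S, ¬ (x ≤ ‖z‖ ∧ ‖z‖ ≤ y) := by
  obtain ⟨M, hM⟩ := dominate hq ha hab hb1
  obtain ⟨i₀, hi₀⟩ := hb b hb1
  obtain ⟨i, hi, n, hn, hval, hmax⟩ := hB (max M i₀)
  obtain ⟨r, hr1, hr2, hr3⟩ := hM (F i).coeff (hL i) (conv_poly _)
    ⟨n, (le_max_left _ _).trans hn,
      lt_of_le_of_lt (by exact_mod_cast le_max_left _ _) hval, hmax⟩
  simp only [ps_poly] at hr3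
  -- the set of radii where the polynomial is small somewhere is compact
  set Z : Set ℂ := closedBall 0 1 ∩ {z | ‖(F i).eval z‖ ≤ 1} with hZ
  have hcpt : IsCompact Z := by
    refine (isCompact_closedBall (0 : ℂ) 1).inter_right ?_
    exact isClosed_le (by fun_prop) continuous_const
  have himg : IsCompact (norm '' Z) := hcpt.image continuous_norm
  have hrn : r ∈ (norm '' Z)ᶜ := by
    rintro ⟨z, ⟨-, hz2⟩, hz3⟩
    exact absurd (hr3 z hz3) (not_lt.2 hz2)
  obtain ⟨δ, hδ, hball⟩ := Metric.isOpen_iff.1 himg.isClosed.isOpen_compl r hrn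
  obtain ⟨δ', hδ'1, hδ'2⟩ : ∃ δ' : ℝ, 0 < δ' ∧ δ' < δ ∧ δ' < r - a ∧ δ' < b - r := by
    obtain ⟨d, hd1, hd2⟩ := exists_between (show 0 < min δ (min (r - a) (b - r)) from
      lt_min hδ (lt_min (by linarith) (by linarith)))
    exact ⟨d, hd1, hd2.trans_le (min_le_left _ _),
      hd2.trans_le ((min_le_right _ _).trans (min_le_left _ _)),
      hd2.trans_le ((min_le_right _ _).trans (min_le_right _ _))⟩
  refine ⟨r - δ', r + δ', by linarith, by linarith, by linarith, ?_⟩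
  rintro z hz ⟨h1, h2⟩
  have h3 : ‖z‖ ∈ ball r δ := by
    rw [Metric.mem_ball, Real.dist_eq, abs_lt]
    constructor <;> linarith
  apply hball h3
  refine ⟨z, ⟨?_, ?_⟩, rfl⟩
  · rw [mem_closedBall_zero_iff]
    linarith
  · exact hi₀ i ((le_max_right _ _).trans hi) z hz (by linarith)

/-- The absolute sum of `P` at `x` is at most `ε`. -/
def AbsLe (P : ℂ[X]) (x ε : ℝ) : Prop := ∀ D : ℕ, ∑ n ∈ Finset.range D, ‖P.coeff n‖ * x ^ n ≤ ε

theorem AbsLe.eval {P : ℂ[X]} {x ε : ℝ} (h : AbsLe P x ε) {z : ℂ} (hz : ‖z‖ ≤ x) :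
    ‖P.eval z‖ ≤ ε := by
  rw [Polynomial.eval_eq_sum_range]
  refine (norm_sum_le _ _).trans (le_trans (Finset.sum_le_sum fun n _ => ?_) (h (P.natDegree + 1)))
  rw [norm_mul, norm_pow]
  exact mul_le_mul_of_nonneg_left (pow_le_pow_left₀ (norm_nonneg _) hz n) (norm_nonneg _)

theorem AbsLe.mono {P : ℂ[X]} {x y ε ε' : ℝ} (h : AbsLe P x ε) (hy : 0 ≤ y) (hyx : y ≤ x)
    (hε : ε ≤ ε') : AbsLe P y ε' := fun D =>
  (Finset.sum_le_sum fun n _ => mul_le_mul_of_nonneg_left (pow_le_pow_left₀ hy hyx n)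
    (norm_nonneg _)).trans ((h D).trans hε)

theorem AbsLe.add {P Q : ℂ[X]} {x a b : ℝ} (hx : 0 ≤ x) (hP : AbsLe P x a) (hQ : AbsLe Q x b) :
    AbsLe (P + Q) x (a + b) := fun D => by
  refine le_trans (Finset.sum_le_sum fun n _ => ?_)
    ((Finset.sum_add_distrib (s := Finset.range D) (f := fun n => ‖P.coeff n‖ * x ^ n)
      (g := fun n => ‖Q.coeff n‖ * x ^ n)).le.trans (add_le_add (hP D) (hQ D)))
  rw [Polynomial.coeff_add, ← add_mul]
  exact mul_le_mul_of_nonneg_right (norm_add_le _ _) (by positivity)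

theorem AbsLe.neg {P : ℂ[X]} {x a : ℝ} (hP : AbsLe P x a) : AbsLe (-P) x a := fun D => by
  simpa using hP D

theorem exists_absLe (P : ℂ[X]) {x : ℝ} (hx : 0 ≤ x) : ∃ B : ℝ, AbsLe P x B := by
  refine ⟨∑ n ∈ Finset.range (P.natDegree + 1), ‖P.coeff n‖ * x ^ n, fun D => ?_⟩
  rcases le_or_gt D (P.natDegree + 1) with h | h
  · exact Finset.sum_le_sum_of_subset_of_nonneg (Finset.range_mono h) fun n _ _ => by positivity
  · refine le_of_eq (Finset.sum_subset (Finset.range_mono h.le) fun n _ hn => ?_).symm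
    rw [Finset.mem_range, not_lt] at hn
    rw [Polynomial.coeff_eq_zero_of_natDegree_lt (by omega), norm_zero, zero_mul]

theorem geo_le {w : ℝ} (h0 : 0 ≤ w) (h1 : w < 1) (D : ℕ) :
    ∑ k ∈ Finset.range D, w ^ k ≤ 1 / (1 - w) := by
  have := (summable_geometric_of_lt_one h0 h1).sum_le_tsum (Finset.range D)
    fun n _ => by positivity
  rwa [tsum_geometric_of_lt_one h0 h1, ← one_div] at this

theorem sq_geo {w : ℝ} (h0 : 0 ≤ w) (h1 : w ≤ 1) {k k₀ : ℕ} (hk : k₀ ≤ k) :
    (w ^ 2) ^ k ≤ w ^ k₀ * w ^ k := by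
  rw [← pow_mul, ← pow_add]
  exact pow_le_pow_of_le_one h0 h1 (by omega)

/-- **Approximation of one.** -/
theorem approx_one {S : Set ℂ} {q : ℝ} (hq : 1 < q) {F : ℕ → ℂ[X]}
    (hL : ∀ i, Lac q (F i).coeff)
    (hb : ∀ r : ℝ, r < 1 → ∃ i₀ : ℕ, ∀ i, i₀ ≤ i → ∀ z ∈ S, ‖z‖ ≤ r → ‖(F i).eval z‖ ≤ 1)
    {x x' y : ℝ} (hx : 0 ≤ x) (hxx' : x < x') (hxy : x' < y) (hB : Blow F x')
    {ρ ε : ℝ} (hρ : ρ < 1) (hε : 0 < ε) (K : ℕ) :
    ∃ P : ℂ[X], Lac q P.coeff ∧ (∀ n < K, P.coeff n = 0) ∧ AbsLe P x ε ∧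
      ∀ z ∈ S, y ≤ ‖z‖ → ‖z‖ ≤ ρ → ‖1 - P.eval z‖ ≤ ε := by
  have hx'0 : 0 < x' := lt_of_le_of_lt hx hxx'
  have hy0 : 0 < y := hx'0.trans hxy
  have hq0 : 0 < q := by linarith
  -- square roots of the ratios
  obtain ⟨u, hu0, hu1, hu2⟩ : ∃ u : ℝ, 0 ≤ u ∧ u < 1 ∧ u ^ 2 = x' / y :=
    ⟨√(x' / y), Real.sqrt_nonneg _, by
      rw [Real.sqrt_lt' one_pos, one_pow, div_lt_one hy0]; exact hxy, Real.sq_sqrt (by positivity)⟩
  obtain ⟨v, hv0, hv1, hv2⟩ : ∃ v : ℝ, 0 ≤ v ∧ v < 1 ∧ v ^ 2 = x / x' :=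
    ⟨√(x / x'), Real.sqrt_nonneg _, by
      rw [Real.sqrt_lt' one_pos, one_pow, div_lt_one hx'0]; exact hxx', Real.sq_sqrt (by positivity)⟩
  obtain ⟨k₀, hk₀1, hk₀2, hk₀3, hk₀4⟩ : ∃ k₀ : ℕ, u ^ k₀ * (1 / (1 - u)) ≤ ε / 2 ∧
      v ^ k₀ * (1 / (1 - v)) ≤ ε ∧ K ≤ k₀ ∧ 1 ≤ k₀ := by
    have h1 : Tendsto (fun k : ℕ => u ^ k * (1 / (1 - u))) atTop (𝓝 (0 * (1 / (1 - u)))) :=
      (tendsto_pow_atTop_nhds_zero_of_lt_one hu0 hu1).mul_const _
    have h2 : Tendsto (fun k : ℕ => v ^ k * (1 / (1 - v))) atTop (𝓝 (0 * (1 / (1 - v)))) :=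
      (tendsto_pow_atTop_nhds_zero_of_lt_one hv0 hv1).mul_const _
    rw [zero_mul] at h1 h2
    obtain ⟨k, hk1, hk2, hk3, hk4⟩ := ((h1.eventually (ge_mem_nhds (half_pos hε))).and
      ((h2.eventually (ge_mem_nhds hε)).and ((eventually_ge_atTop K).and
        (eventually_ge_atTop 1)))).exists
    exact ⟨k, hk1, hk2, hk3, hk4⟩
  obtain ⟨i₀, hi₀⟩ := hb ρ hρ
  obtain ⟨M₀, hM₀⟩ := exists_nat_ge (max (2 / ε) (k₀ * q / (q - 1)))
  obtain ⟨i, hi, n, hn, hval, hmax⟩ := hB (max M₀ i₀)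
  set c : ℕ → ℂ := (F i).coeff with hc
  have hMn : (M₀ : ℝ) ≤ n := by exact_mod_cast (le_max_left M₀ i₀).trans hn
  have hval' : (M₀ : ℝ) < ‖c n‖ * x' ^ n :=
    lt_of_le_of_lt (by exact_mod_cast le_max_left _ _) hval
  have hval2 : 2 / ε < ‖c n‖ * x' ^ n := lt_of_le_of_lt ((le_max_left _ _).trans hM₀) hval'
  have hkn : (k₀ : ℝ) * q ≤ (q - 1) * n := by
    have h1 : (k₀ : ℝ) * q / (q - 1) ≤ n := (le_max_right _ _).trans (hM₀.trans hMn)
    rw [div_le_iff₀ (by linarith)] at h1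
    linarith
  have hcn : c n ≠ 0 := by
    intro h0
    rw [h0, norm_zero, zero_mul] at hval2
    have : 0 < 2 / ε := by positivity
    linarith
  have hcn0 : 0 < ‖c n‖ := norm_pos_iff.2 hcn
  -- distances of the frequencies
  have hgap1 : ∀ m, m < n → c m ≠ 0 → k₀ ≤ n - m := by
    intro m hm hcm
    have h1 := (hL i).2 m n hm hcm hcn
    have h2 : (k₀ : ℝ) ≤ ((n - m : ℕ) : ℝ) := by
      rw [Nat.cast_sub hm.le]
      have h3 : (k₀ : ℝ) * q ≤ q * n - q * m := by nlinarith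
      nlinarith
    exact_mod_cast h2
  have hgap2 : ∀ k, k ≠ 0 → c (n + k) ≠ 0 → k₀ ≤ k := by
    intro k hk hck
    have h1 := (hL i).2 n (n + k) (by omega) hcn hck
    have h2 : (k₀ : ℝ) ≤ (k : ℝ) := by
      push_cast at h1
      have h4 : (0 : ℝ) ≤ k₀ := Nat.cast_nonneg _
      nlinarith
    exact_mod_cast h2
  set D : ℕ := (F i).natDegree with hD
  set P : ℂ[X] := ∑ k ∈ Finset.range (D + 1),
    Polynomial.monomial k (if k = 0 then 0 else -(c (n + k) / c n)) with hP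
  have hPc : ∀ k, P.coeff k = if k = 0 then 0 else -(c (n + k) / c n) := by
    intro k
    rw [hP, Polynomial.finsetSum_coeff]
    simp only [Polynomial.coeff_monomial]
    rw [Finset.sum_ite_eq']
    split_ifs with h1 h2
    · rfl
    · rfl
    · exact (by simp)
    · rename_i h2
      have h3 : c (n + k) = 0 := by
        rw [hc]
        apply Polynomial.coeff_eq_zero_of_natDegree_lt
        rw [Finset.mem_range, not_lt] at h1
        omega
      rw [h3, zero_div, neg_zero]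
  have hPc0 : P.coeff 0 = 0 := by rw [hPc, if_pos rfl]
  have hPne : ∀ k, P.coeff k ≠ 0 → k ≠ 0 ∧ c (n + k) ≠ 0 := by
    intro k hk
    rw [hPc] at hk
    by_cases h0 : k = 0
    · rw [if_pos h0] at hk
      exact absurd rfl hk
    · rw [if_neg h0] at hk
      refine ⟨h0, fun h1 => hk ?_⟩
      rw [h1, zero_div, neg_zero]
  refine ⟨P, ⟨hPc0, fun m k hmk hm hk => ?_⟩, fun k hk => ?_, fun D' => ?_, fun z hz hz1 hz2 => ?_⟩
  · have h1 := (hL i).2 (n + m) (n + k) (by omega) (hPne m hm).2 (hPne k hk).2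
    push_cast at h1
    have h2 : (n : ℝ) ≤ q * n := by
      have : (0 : ℝ) ≤ n := Nat.cast_nonneg n
      nlinarith
    linarith
  · by_contra hne
    have := hgap2 k (hPne k hne).1 (hPne k hne).2
    omega
  · -- absolute sum
    refine le_trans ?_ hk₀2
    calc ∑ k ∈ Finset.range D', ‖P.coeff k‖ * x ^ k
        ≤ ∑ k ∈ Finset.range D', v ^ k₀ * v ^ k := Finset.sum_le_sum fun k _ => ?_
      _ = v ^ k₀ * ∑ k ∈ Finset.range D', v ^ k := by rw [Finset.mul_sum]
      _ ≤ v ^ k₀ * (1 / (1 - v)) := mul_le_mul_of_nonneg_left (geo_le hv0 hv1 D') (by positivity)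
    by_cases hk : P.coeff k = 0
    · rw [hk, norm_zero, zero_mul]
      positivity
    · obtain ⟨hk0, hck⟩ := hPne k hk
      refine le_trans ?_ (sq_geo hv0 hv1.le (hgap2 k hk0 hck))
      rw [hv2, hPc, if_neg hk0, norm_neg, norm_div, div_pow, div_mul_eq_mul_div,
        div_le_div_iff₀ hcn0 (by positivity)]
      have h1 := hmax (n + k)
      rw [pow_add, ← mul_assoc, mul_comm (‖_‖) (x' ^ n), mul_assoc, mul_comm (‖_‖) (x' ^ n)] at h1
      have h2 := le_of_mul_le_mul_left h1 (by positivity)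
      have h3 : 0 ≤ x ^ k := by positivity
      calc ‖c (n + k)‖ * x ^ k * x' ^ k = (‖c (n + k)‖ * x' ^ k) * x ^ k := by ring
        _ ≤ ‖c n‖ * x ^ k := mul_le_mul_of_nonneg_right h2 h3
        _ = x ^ k * ‖c n‖ := mul_comm _ _
  · -- the error
    have hzpos : 0 < ‖z‖ := hy0.trans_le hz1
    have hsplit : c n * z ^ n * (1 - P.eval z) =
        (F i).eval z - ∑ m ∈ Finset.range n, c m * z ^ m := by
      have e1 : (F i).eval z = ∑ m ∈ Finset.range (n + (D + 1)), c m * z ^ m :=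
        Polynomial.eval_eq_sum_range' (by omega) z
      have e2 : P.eval z = ∑ k ∈ Finset.range D, -(c (n + (k + 1)) / c n) * z ^ (k + 1) := by
        rw [hP, Polynomial.eval_finsetSum]
        simp only [Polynomial.eval_monomial]
        rw [Finset.sum_range_succ', if_pos rfl, zero_mul, add_zero]
        exact Finset.sum_congr rfl fun k _ => by rw [if_neg (Nat.succ_ne_zero k)]
      rw [e1, Finset.sum_range_add, add_sub_cancel_left, Finset.sum_range_succ', e2, mul_sub,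
        mul_one, Finset.mul_sum, add_zero, sub_eq_add_neg, ← Finset.sum_neg_distrib, add_comm]
      congr 1
      refine Finset.sum_congr rfl fun k _ => ?_
      rw [pow_add z n (k + 1)]
      field_simp
    set W : ℝ := ‖c n * z ^ n‖ with hW
    have hWv : ‖c n‖ * x' ^ n ≤ W := by
      rw [hW, norm_mul, norm_pow]
      exact mul_le_mul_of_nonneg_left (pow_le_pow_left₀ hx'0.le (hxy.le.trans hz1) n) hcn0.le
    have hW0 : 0 < W := by
      have : 0 < 2 / ε := by positivity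
      linarith
    have hlowsum : ‖∑ m ∈ Finset.range n, c m * z ^ m‖ ≤ W * (ε / 2) := by
      refine (norm_sum_le _ _).trans ?_
      have hterm : ∀ j ∈ Finset.range n, ‖c (n - 1 - j) * z ^ (n - 1 - j)‖ ≤
          W * u ^ k₀ * u ^ j := by
        intro j hj
        rw [Finset.mem_range] at hj
        set m := n - 1 - j with hm
        have hmn : m < n := by omega
        by_cases hcm : c m = 0
        · rw [hcm, zero_mul, norm_zero]
          positivity
        · have hkm := hgap1 m hmn hcm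
          have h1 : ‖c m * z ^ m‖ ≤ W * (x' / y) ^ (n - m) := by
            rw [hW, norm_mul, norm_pow, norm_mul, norm_pow]
            have h2 := hmax m
            have h3 : x' ^ n = x' ^ m * x' ^ (n - m) := by
              rw [← pow_add]
              congr 1
              omega
            have h4 : ‖z‖ ^ n = ‖z‖ ^ m * ‖z‖ ^ (n - m) := by
              rw [← pow_add]
              congr 1
              omega
            have h5 : ‖c m‖ ≤ ‖c n‖ * x' ^ (n - m) := by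
              rw [h3, ← mul_assoc, mul_comm (‖_‖) (x' ^ m), mul_comm (‖_‖) (x' ^ m),
                mul_assoc] at h2
              exact le_of_mul_le_mul_left h2 (by positivity)
            have h6 : y ^ (n - m) ≤ ‖z‖ ^ (n - m) := pow_le_pow_left₀ hy0.le hz1 _
            rw [div_pow, mul_div_assoc', le_div_iff₀ (by positivity), h4]
            calc ‖c m‖ * ‖z‖ ^ m * y ^ (n - m)
                ≤ (‖c n‖ * x' ^ (n - m)) * ‖z‖ ^ m * ‖z‖ ^ (n - m) := by gcongr
              _ = ‖c n‖ * (‖z‖ ^ m * ‖z‖ ^ (n - m)) * x' ^ (n - m) := by ring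
          refine h1.trans ?_
          rw [← hu2, mul_assoc]
          refine mul_le_mul_of_nonneg_left ?_ hW0.le
          refine (sq_geo hu0 hu1.le hkm).trans ?_
          refine mul_le_mul_of_nonneg_left ?_ (by positivity)
          exact pow_le_pow_of_le_one hu0 hu1.le (by omega)
      rw [← Finset.sum_range_reflect]
      refine (Finset.sum_le_sum hterm).trans ?_
      rw [← Finset.mul_sum, mul_assoc]
      refine mul_le_mul_of_nonneg_left ?_ hW0.le
      exact (mul_le_mul_of_nonneg_left (geo_le hu0 hu1 n) (by positivity)).trans hk₀1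
    have hone : (1 : ℝ) ≤ W * (ε / 2) := by
      have h1 : 2 / ε ≤ W := by linarith
      rw [div_le_iff₀ hε] at h1
      linarith
    have h1 : W * ‖1 - P.eval z‖ ≤ W * ε := by
      rw [hW, ← norm_mul, hsplit, ← hW]
      refine (norm_sub_le _ _).trans ?_
      have h2 := hi₀ i ((le_max_right _ _).trans hi) z hz hz2
      linarith
    exact le_of_mul_le_mul_left h1 hW0

/-- **Approximation of polynomials.** -/
theorem approx_poly {S : Set ℂ} (hS : S ⊆ ball 0 1) {q q' : ℝ} (hq' : 1 < q') (hqq : q' < q)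
    {x y : ℝ} (hx : 0 ≤ x) (hx1 : x ≤ 1)
    (h : ∀ ρ ε : ℝ, ρ < 1 → 0 < ε → ∀ K : ℕ, ∃ P : ℂ[X], Lac q P.coeff ∧
      (∀ n < K, P.coeff n = 0) ∧ AbsLe P x ε ∧
        ∀ z ∈ S, y ≤ ‖z‖ → ‖z‖ ≤ ρ → ‖1 - P.eval z‖ ≤ ε) (Q : ℂ[X]) :
    ∀ ρ ε : ℝ, ρ < 1 → 0 < ε → ∀ K : ℕ, ∃ G : ℂ[X], Lac q' G.coeff ∧
      (∀ n < K, G.coeff n = 0) ∧ AbsLe G x ε ∧
        ∀ z ∈ S, y ≤ ‖z‖ → ‖z‖ ≤ ρ → ‖Q.eval z - G.eval z‖ ≤ ε := by
  induction Q using Polynomial.induction_on' with
  | add Q1 Q2 ih1 ih2 =>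
    intro ρ ε hρ hε K
    obtain ⟨G1, hG1L, hG1K, hG1A, hG1⟩ := ih1 ρ (ε / 2) hρ (half_pos hε) K
    obtain ⟨G2, hG2L, hG2K, hG2A, hG2⟩ := ih2 ρ (ε / 2) hρ (half_pos hε)
      (max K (⌈q' * G1.natDegree⌉₊ + G1.natDegree + 1))
    have hz2 : ∀ n, n ≤ G1.natDegree → G2.coeff n = 0 := fun n hn => hG2K n (by
      have := le_max_right K (⌈q' * G1.natDegree⌉₊ + G1.natDegree + 1)
      omega)
    have hz1 : ∀ n, G1.natDegree < n → G1.coeff n = 0 := fun n hn =>
      Polynomial.coeff_eq_zero_of_natDegree_lt hn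
    have hbig : ∀ n, G2.coeff n ≠ 0 → q' * G1.natDegree ≤ n := by
      intro n hn
      have h1 : ⌈q' * G1.natDegree⌉₊ ≤ n := by
        by_contra hlt
        apply hn
        apply hG2K
        have := le_max_right K (⌈q' * G1.natDegree⌉₊ + G1.natDegree + 1)
        omega
      exact (Nat.le_ceil _).trans (by exact_mod_cast h1)
    refine ⟨G1 + G2, ⟨?_, fun m n hmn hm hn => ?_⟩, fun n hn => ?_, ?_, fun z hz h1 h2 => ?_⟩
    · rw [Polynomial.coeff_add, hG1L.1, hG2L.1, add_zero]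
    · rw [Polynomial.coeff_add] at hm hn
      rcases le_or_gt n G1.natDegree with h1 | h1
      · rw [hz2 n h1, add_zero] at hn
        rw [hz2 m (hmn.le.trans h1), add_zero] at hm
        exact hG1L.2 m n hmn hm hn
      · rw [hz1 n h1, zero_add] at hn
        rcases le_or_gt m G1.natDegree with h3 | h3
        · refine le_trans ?_ (hbig n hn)
          apply mul_le_mul_of_nonneg_left _ (by linarith)
          exact_mod_cast h3
        · rw [hz1 m h3, zero_add] at hm
          exact hG2L.2 m n hmn hm hn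
    · rw [Polynomial.coeff_add, hG1K n hn, hG2K n (hn.trans_le (le_max_left _ _)), add_zero]
    · have := hG1A.add hx hG2A
      rwa [add_halves] at this
    · rw [Polynomial.eval_add, Polynomial.eval_add]
      have e : Q1.eval z + Q2.eval z - (G1.eval z + G2.eval z) =
          (Q1.eval z - G1.eval z) + (Q2.eval z - G2.eval z) := by ring
      rw [e]
      refine (norm_add_le _ _).trans ?_
      linarith [hG1 z hz h1 h2, hG2 z hz h1 h2]
  | monomial k a =>
    intro ρ ε hρ hε K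
    have ha : 0 < ‖a‖ + 1 := by positivity
    set K' : ℕ := max K (⌈(q' - 1) * k / (q - q')⌉₊) with hK'
    obtain ⟨P, hPL, hPK, hPA, hP⟩ := h ρ (ε / (‖a‖ + 1)) hρ (by positivity) K'
    have hsmall : ‖a‖ * (ε / (‖a‖ + 1)) ≤ ε := by
      rw [mul_div_assoc', div_le_iff₀ ha]
      nlinarith [norm_nonneg a]
    have hcoeff : ∀ d, (Polynomial.C a * (Polynomial.X ^ k * P)).coeff d =
        a * (if k ≤ d then P.coeff (d - k) else 0) := by
      intro d
      rw [Polynomial.coeff_C_mul, Polynomial.coeff_X_pow_mul']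
    have hne : ∀ d, (Polynomial.C a * (Polynomial.X ^ k * P)).coeff d ≠ 0 →
        k ≤ d ∧ P.coeff (d - k) ≠ 0 := by
      intro d hd
      rw [hcoeff] at hd
      by_cases hkd : k ≤ d
      · rw [if_pos hkd] at hd
        exact ⟨hkd, right_ne_zero_of_mul hd⟩
      · rw [if_neg hkd, mul_zero] at hd
        exact absurd rfl hd
    refine ⟨Polynomial.C a * (Polynomial.X ^ k * P), ⟨?_, fun m n hmn hm hn => ?_⟩,
      fun n hn => ?_, fun D => ?_, fun z hz h1 h2 => ?_⟩
    · rw [hcoeff]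
      split_ifs with h0
      · rw [Nat.zero_sub, hPL.1, mul_zero]
      · rw [mul_zero]
    · obtain ⟨hkm, hPm⟩ := hne m hm
      obtain ⟨hkn, hPn⟩ := hne n hn
      have h1 := hPL.2 (m - k) (n - k) (by omega) hPm hPn
      have h2 : K' ≤ m - k := by
        by_contra hlt
        exact hPm (hPK _ (not_le.1 hlt))
      have h3 : (q' - 1) * k / (q - q') ≤ ((m - k : ℕ) : ℝ) :=
        (Nat.le_ceil _).trans (by exact_mod_cast (le_max_right _ _).trans h2)
      rw [div_le_iff₀ (by linarith)] at h3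
      rw [Nat.cast_sub hkm] at h1 h3
      rw [Nat.cast_sub hkn] at h1
      nlinarith
    · by_contra hcon
      obtain ⟨hkn, hPn⟩ := hne n hcon
      exact hPn (hPK _ (by
        have := le_max_left K (⌈(q' - 1) * k / (q - q')⌉₊)
        omega))
    · rcases le_or_gt D k with hD | hD
      · rw [Finset.sum_eq_zero]
        · exact hε.le
        · intro n hn
          rw [Finset.mem_range] at hn
          rw [hcoeff, if_neg (by omega), mul_zero, norm_zero, zero_mul]
      · obtain ⟨D', rfl⟩ := Nat.exists_eq_add_of_le hD.le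
        rw [Finset.sum_range_add, Finset.sum_eq_zero, zero_add]
        · refine le_trans ?_ hsmall
          refine le_trans ?_ (mul_le_mul_of_nonneg_left (hPA D') (norm_nonneg a))
          rw [Finset.mul_sum]
          refine Finset.sum_le_sum fun n _ => ?_
          rw [hcoeff, if_pos (by omega), norm_mul, Nat.add_sub_cancel_left, pow_add, mul_assoc]
          refine mul_le_mul_of_nonneg_left ?_ (norm_nonneg a)
          refine mul_le_mul_of_nonneg_left ?_ (norm_nonneg _)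
          have h3 : x ^ k ≤ 1 := pow_le_one₀ hx hx1
          have h4 : 0 ≤ x ^ n := by positivity
          nlinarith
        · intro n hn
          rw [Finset.mem_range] at hn
          rw [hcoeff, if_neg (by omega), mul_zero, norm_zero, zero_mul]
    · have hz1 : ‖z‖ < 1 := mem_ball_zero_iff.1 (hS hz)
      have e : (Polynomial.monomial k a).eval z - (Polynomial.C a * (Polynomial.X ^ k * P)).eval z =
          a * (z ^ k * (1 - P.eval z)) := by
        rw [Polynomial.eval_monomial, Polynomial.eval_mul, Polynomial.eval_C, Polynomial.eval_mul,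
          Polynomial.eval_pow, Polynomial.eval_X]
        ring
      rw [e, norm_mul, norm_mul, norm_pow]
      refine le_trans ?_ hsmall
      refine mul_le_mul_of_nonneg_left ?_ (norm_nonneg a)
      have h3 : ‖z‖ ^ k ≤ 1 := pow_le_one₀ (norm_nonneg _) hz1.le
      have h4 := hP z hz h1 h2
      nlinarith [norm_nonneg (1 - P.eval z), norm_nonneg z]

end Forcing
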