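import Pool.Agent.Lib.MP_c80ac4_an.Local.Approx

/-! # An unbounded gap series bounded on a set with free annuli and approximations of one -/

namespace Forcing

open Complex Metric Set MeasureTheory Filter Topology Polynomial

/-- one step of the construction -/
theorem build_step {S : Set ℂ} {q' : ℝ} (hq' : 1 < q') {x y ρ : ℝ} (hx : 0 ≤ x) (hx1 : x < 1)
    (hSρ : ∀ z ∈ S, ‖z‖ < 1) (hρ : ρ < 1)
    (h : ∀ (Q : ℂ[X]) (ε : ℝ), 0 < ε → ∀ K : ℕ, ∃ G : ℂ[X], Lac q' G.coeff ∧
      (∀ n < K, G.coeff n = 0) ∧ AbsLe G x ε ∧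
        ∀ z ∈ S, y ≤ ‖z‖ → ‖z‖ ≤ ρ → ‖Q.eval z - G.eval z‖ ≤ ε) (j : ℕ) (Q : ℂ[X]) (K : ℕ) :
    ∃ H : ℂ[X], Lac q' H.coeff ∧ (∀ n < K, H.coeff n = 0) ∧ AbsLe H x ((1 / 2) ^ j) ∧
      (∀ z ∈ S, y ≤ ‖z‖ → ‖z‖ ≤ ρ → ‖(Q + H).eval z‖ ≤ 2) ∧ ∃ N, ‖H.coeff N‖ = 1 := by
  have hε : (0 : ℝ) < (1 / 2) ^ j / 2 := by positivity
  have hε1 : ((1 : ℝ) / 2) ^ j ≤ 1 := pow_le_one₀ (by norm_num) (by norm_num)
  obtain ⟨G, hGL, hGK, hGA, hG⟩ := h Q ((1 / 2) ^ j / 2) hε K
  obtain ⟨N, hN1, hN2⟩ : ∃ N : ℕ, x ^ N ≤ (1 / 2) ^ j / 2 ∧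
      K + G.natDegree + ⌈q' * G.natDegree⌉₊ + 1 ≤ N := by
    have h1 := (tendsto_pow_atTop_nhds_zero_of_lt_one hx hx1).eventually (ge_mem_nhds hε)
    exact (h1.and (eventually_ge_atTop _)).exists
  have hc : ∀ n, (X ^ N - G).coeff n = (if n = N then 1 else 0) - G.coeff n := by
    intro n
    rw [Polynomial.coeff_sub, Polynomial.coeff_X_pow]
  have hGz : ∀ n, G.natDegree < n → G.coeff n = 0 := fun n hn =>
    Polynomial.coeff_eq_zero_of_natDegree_lt hn
  refine ⟨X ^ N - G, ⟨?_, fun m n hmn hm hn => ?_⟩, fun n hn => ?_, fun D => ?_,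
    fun z hz h1 h2 => ?_, N, ?_⟩
  · rw [hc, if_neg (by omega), hGL.1, sub_zero]
  · rw [hc] at hm hn
    rcases lt_trichotomy n N with h1 | h1 | h1
    · rw [if_neg h1.ne, zero_sub, neg_ne_zero] at hn
      rw [if_neg (hmn.trans h1).ne, zero_sub, neg_ne_zero] at hm
      exact hGL.2 m n hmn hm hn
    · rw [if_neg (by omega), zero_sub, neg_ne_zero] at hm
      have h2 : m ≤ G.natDegree := by
        by_contra hlt
        exact hm (hGz m (not_le.1 hlt))
      have h3 : q' * m ≤ q' * G.natDegree := by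
        apply mul_le_mul_of_nonneg_left _ (by linarith)
        exact_mod_cast h2
      have h4 : q' * (G.natDegree : ℝ) ≤ (⌈q' * G.natDegree⌉₊ : ℝ) := Nat.le_ceil _
      have h5 : (⌈q' * G.natDegree⌉₊ : ℝ) ≤ n := by
        exact_mod_cast (by omega : ⌈q' * G.natDegree⌉₊ ≤ n)
      linarith
    · exfalso
      apply hn
      rw [if_neg h1.ne', hGz n (by omega), sub_zero]
  · rw [hc, if_neg (by omega), hGK n hn, sub_zero]
  · have h1 : ∑ n ∈ Finset.range D, ‖(X ^ N - G).coeff n‖ * x ^ n ≤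
        ∑ n ∈ Finset.range D, ((if n = N then x ^ N else 0) + ‖G.coeff n‖ * x ^ n) := by
      refine Finset.sum_le_sum fun n _ => ?_
      rw [hc]
      split_ifs with h0
      · rw [h0]
        have h4 : ‖1 - G.coeff N‖ ≤ 1 + ‖G.coeff N‖ := by
          refine (norm_sub_le _ _).trans ?_
          rw [norm_one]
        have h5 : 0 ≤ x ^ N := by positivity
        nlinarith
      · rw [zero_sub, norm_neg, zero_add]
    refine h1.trans ?_
    rw [Finset.sum_add_distrib]
    have h2 : ∑ n ∈ Finset.range D, (if n = N then x ^ N else 0) ≤ (1 / 2) ^ j / 2 := by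
      rw [Finset.sum_ite_eq']
      split_ifs
      · exact hN1
      · exact hε.le
    have h3 := hGA D
    linarith
  · rw [Polynomial.eval_add, Polynomial.eval_sub, Polynomial.eval_pow, Polynomial.eval_X]
    have e : Q.eval z + (z ^ N - G.eval z) = (Q.eval z - G.eval z) + z ^ N := by ring
    rw [e]
    refine (norm_add_le _ _).trans ?_
    rw [norm_pow]
    have h3 : ‖z‖ ^ N ≤ 1 := pow_le_one₀ (norm_nonneg _) (hSρ z hz).le
    linarith [hG z hz h1 h2]
  · rw [hc, if_pos rfl, hGz N (by omega), sub_zero, norm_one]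

/-- **The construction.** -/
theorem not_forcing_of_free {S : Set ℂ} (hS : S ⊆ ball 0 1) {q' : ℝ} (hq' : 1 < q')
    {x y : ℕ → ℝ} (hx0 : ∀ j, 0 ≤ x j) (hx1 : ∀ j, x j < 1) (hxm : Monotone x)
    (hlim : ∀ r : ℝ, r < 1 → ∃ j, r < x j)
    (hfree : ∀ j, ∀ z ∈ S, ¬ (x j ≤ ‖z‖ ∧ ‖z‖ ≤ y j))
    (happ : ∀ j, ∀ (Q : ℂ[X]) (ρ ε : ℝ), ρ < 1 → 0 < ε → ∀ K : ℕ, ∃ G : ℂ[X], Lac q' G.coeff ∧
      (∀ n < K, G.coeff n = 0) ∧ AbsLe G (x j) ε ∧
        ∀ z ∈ S, y j ≤ ‖z‖ → ‖z‖ ≤ ρ → ‖Q.eval z - G.eval z‖ ≤ ε) : ¬ IsForcing S := by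
  classical
  intro hF
  have hS1 : ∀ z ∈ S, ‖z‖ < 1 := fun z hz => mem_ball_zero_iff.1 (hS hz)
  have step : ∀ (j : ℕ) (Q : ℂ[X]) (K : ℕ), ∃ H : ℂ[X], Lac q' H.coeff ∧
      (∀ n < ⌈q' * K⌉₊ + K + 1, H.coeff n = 0) ∧ AbsLe H (x j) ((1 / 2) ^ j) ∧
      (∀ z ∈ S, y j ≤ ‖z‖ → ‖z‖ ≤ x (j + 1) → ‖(Q + H).eval z‖ ≤ 2) ∧ ∃ N, ‖H.coeff N‖ = 1 :=
    fun j Q K => build_step hq' (hx0 j) (hx1 j) hS1 (hx1 (j + 1))
      (fun Q ε hε K => happ j Q (x (j + 1)) ε (hx1 (j + 1)) hε K) j Q (⌈q' * K⌉₊ + K + 1)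
  choose H hHL hHK hHA hHS N hHN using step
  let st : ℕ → ℂ[X] × ℕ := fun j => Nat.rec (0, 0) (fun i p =>
    (p.1 + H i p.1 p.2, max ((H i p.1 p.2).natDegree + 1) (p.2 + 1))) j
  have hst : ∀ j, st (j + 1) = ((st j).1 + H j (st j).1 (st j).2,
    max ((H j (st j).1 (st j).2).natDegree + 1) ((st j).2 + 1)) := fun j => rfl
  set F : ℕ → ℂ[X] := fun j => (st j).1 with hFdef
  set K : ℕ → ℕ := fun j => (st j).2 with hKdef
  set B : ℕ → ℂ[X] := fun j => H j (F j) (K j) with hBdef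
  have hF0 : F 0 = 0 := rfl
  have hFs : ∀ j, F (j + 1) = F j + B j := fun j => by
    simp only [hFdef, hBdef, hKdef]
    rw [hst]
  have hKs : ∀ j, K (j + 1) = max ((B j).natDegree + 1) (K j + 1) := fun j => by
    simp only [hFdef, hBdef, hKdef]
    rw [hst]
  have hKm : StrictMono K := strictMono_nat_of_lt_succ fun j => by
    rw [hKs]
    exact lt_of_lt_of_le (Nat.lt_succ_self _) (le_max_right _ _)
  have hjK : ∀ j, j ≤ K j := fun j => hKm.le_apply
  have hBlow : ∀ j, ∀ n < ⌈q' * K j⌉₊ + K j + 1, (B j).coeff n = 0 := fun j => hHK j _ _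
  have hBhigh : ∀ j, ∀ n, K (j + 1) ≤ n → (B j).coeff n = 0 := by
    intro j n hn
    apply Polynomial.coeff_eq_zero_of_natDegree_lt
    have := le_max_left ((B j).natDegree + 1) (K j + 1)
    rw [← hKs] at this
    omega
  have hBL : ∀ j, Lac q' (B j).coeff := fun j => hHL j _ _
  have hFz : ∀ j, ∀ n, K j ≤ n → (F j).coeff n = 0 := by
    intro j
    induction j with
    | zero =>
      intro n _
      rw [hF0, Polynomial.coeff_zero]
    | succ j ih =>
      intro n hn
      rw [hFs, Polynomial.coeff_add, hBhigh j n hn, ih n ((hKm (Nat.lt_succ_self j)).le.trans hn),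
        add_zero]
  have hstab : ∀ j i, j ≤ i → ∀ n, n < K j → (F i).coeff n = (F j).coeff n := by
    intro j i hji
    induction i, hji using Nat.le_induction with
    | base => intro n _; rfl
    | succ i hi ih =>
      intro n hn
      have h1 : K j ≤ K i := hKm.monotone hi
      rw [hFs, Polynomial.coeff_add, hBlow i n (by omega), add_zero, ih n hn]
  set c : ℕ → ℂ := fun n => (F (n + 1)).coeff n with hc
  have hcF : ∀ i n, n < K i → c n = (F i).coeff n := by
    intro i n hn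
    have h1 : n < K (n + 1) := lt_of_lt_of_le (Nat.lt_succ_self n) (hjK (n + 1))
    rcases le_total i (n + 1) with h | h
    · exact hstab i (n + 1) h n hn
    · exact (hstab (n + 1) i h n h1).symm
  have hFL : ∀ j, Lac q' (F j).coeff := by
    intro j
    induction j with
    | zero =>
      rw [hF0]
      exact ⟨Polynomial.coeff_zero 0, fun m n _ hm => absurd (Polynomial.coeff_zero m) hm⟩
    | succ j ih =>
      refine ⟨by rw [hFs, Polynomial.coeff_add, ih.1, (hBL j).1, add_zero], ?_⟩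
      intro m n hmn hm hn
      rw [hFs, Polynomial.coeff_add] at hm hn
      rcases lt_or_ge n (K j) with h1 | h1
      · rw [hBlow j n (by omega), add_zero] at hn
        rw [hBlow j m (by omega), add_zero] at hm
        exact ih.2 m n hmn hm hn
      · rw [hFz j n h1, zero_add] at hn
        rcases lt_or_ge m (K j) with h2 | h2
        · have h3 : ⌈q' * K j⌉₊ ≤ n := by
            by_contra hlt
            exact hn (hBlow j n (by omega))
          have h4 : q' * m ≤ q' * K j := by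
            apply mul_le_mul_of_nonneg_left _ (by linarith)
            exact_mod_cast h2.le
          have h5 : q' * (K j : ℝ) ≤ (⌈q' * K j⌉₊ : ℝ) := Nat.le_ceil _
          have h6 : (⌈q' * K j⌉₊ : ℝ) ≤ n := by exact_mod_cast h3
          linarith
        · rw [hFz j m h2, zero_add] at hm
          exact (hBL j).2 m n hmn hm hn
  have hcL : Lac q' c := by
    refine ⟨(hFL 1).1, fun m n hmn hm hn => ?_⟩
    have h1 : n < K (n + 1) := lt_of_lt_of_le (Nat.lt_succ_self n) (hjK (n + 1))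
    rw [hcF (n + 1) n h1] at hn
    rw [hcF (n + 1) m (hmn.trans h1)] at hm
    exact (hFL (n + 1)).2 m n hmn hm hn
  -- partial sums
  have hpart : ∀ J z, ∑ n ∈ Finset.range (K J), c n * z ^ n = (F J).eval z := by
    intro J z
    rw [← ps_poly, ps, tsum_eq_sum (s := Finset.range (K J))]
    · exact Finset.sum_congr rfl fun n hn => by rw [hcF J n (Finset.mem_range.1 hn)]
    · intro n hn
      rw [Finset.mem_range, not_lt] at hn
      rw [hFz J n hn, zero_mul]
  have hgeom : ∀ s : Finset ℕ, ∑ j ∈ s, (1 / 2 : ℝ) ^ j ≤ 2 := by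
    intro s
    have := (summable_geometric_two).sum_le_tsum s fun n _ => by positivity
    rwa [tsum_geometric_two] at this
  -- absolute sums of the partial sums
  have habs : ∀ j₀ r b, 0 ≤ r → r ≤ x j₀ → AbsLe (F j₀) r b → ∀ J, j₀ ≤ J →
      AbsLe (F J) r (b + ∑ j ∈ Finset.Ico j₀ J, (1 / 2 : ℝ) ^ j) := by
    intro j₀ r b hr hrx hb J hJ
    induction J, hJ using Nat.le_induction with
    | base => simpa using hb
    | succ J hJ ih =>
      rw [Finset.sum_Ico_succ_top hJ, ← add_assoc, hFs]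
      exact ih.add hr ((hHA J _ _).mono hr (hrx.trans (hxm hJ)) le_rfl)
  have hcc : Conv c := by
    intro z hz
    obtain ⟨j₀, hj₀⟩ := hlim ‖z‖ hz
    obtain ⟨b, hb⟩ := exists_absLe (F j₀) (norm_nonneg z)
    have h1 : Summable fun n => ‖c n‖ * ‖z‖ ^ n := by
      refine summable_of_sum_range_le (c := b + 2) (fun n => by positivity) fun D => ?_
      have h2 := habs j₀ ‖z‖ b (norm_nonneg z) hj₀.le hb (max j₀ D) (le_max_left _ _) D
      refine le_trans (le_of_eq (Finset.sum_congr rfl fun n hn => ?_))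
        (h2.trans (add_le_add le_rfl (hgeom _)))
      rw [hcF (max j₀ D) n (lt_of_lt_of_le (Finset.mem_range.1 hn)
        ((le_max_right j₀ D).trans (hjK _)))]
    refine Summable.of_norm (h1.congr fun n => ?_)
    rw [norm_mul, norm_pow]
  have hlimF : ∀ z : ℂ, ‖z‖ < 1 → Tendsto (fun J => (F J).eval z) atTop (𝓝 (ps c z)) := by
    intro z hz
    have h1 : Tendsto (fun J => ∑ n ∈ Finset.range (K J), c n * z ^ n) atTop (𝓝 (ps c z)) :=
      (hcc z hz).hasSum.tendsto_sum_nat.comp hKm.tendsto_atTop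
    exact h1.congr fun J => hpart J z
  -- evaluation bounds
  have heval : ∀ j₀ z b, ‖z‖ ≤ x j₀ → ‖(F j₀).eval z‖ ≤ b → ∀ J, j₀ ≤ J →
      ‖(F J).eval z‖ ≤ b + ∑ j ∈ Finset.Ico j₀ J, (1 / 2 : ℝ) ^ j := by
    intro j₀ z b hz hb J hJ
    induction J, hJ using Nat.le_induction with
    | base => simpa using hb
    | succ J hJ ih =>
      rw [Finset.sum_Ico_succ_top hJ, ← add_assoc, hFs, Polynomial.eval_add]
      exact (norm_add_le _ _).trans (add_le_add ih ((hHA J _ _).eval (hz.trans (hxm hJ))))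
  have hbS : BddOnSet c S := by
    refine ⟨4, fun z hz => ?_⟩
    have hz1 := hS1 z hz
    have hkey : ∃ j₀, ‖z‖ ≤ x j₀ ∧ ‖(F j₀).eval z‖ ≤ 2 := by
      have hex := hlim ‖z‖ hz1
      rcases Nat.eq_zero_or_pos (Nat.find hex) with h0 | h0
      · refine ⟨0, ?_, ?_⟩
        · have := Nat.find_spec hex
          rw [h0] at this
          exact this.le
        · rw [hF0, Polynomial.eval_zero, norm_zero]
          norm_num
      · obtain ⟨j, hj⟩ := Nat.exists_eq_succ_of_ne_zero h0.ne'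
        have h1 : ‖z‖ < x (j + 1) := by
          have := Nat.find_spec hex
          rwa [hj] at this
        have h2 : x j ≤ ‖z‖ := not_lt.1 (Nat.find_min hex (by omega))
        have h3 : y j ≤ ‖z‖ := by
          by_contra hlt
          exact hfree j z hz ⟨h2, (not_le.1 hlt).le⟩
        refine ⟨j + 1, h1.le, ?_⟩
        rw [hFs]
        exact hHS j _ _ z hz h3 h1.le
    obtain ⟨j₀, hj1, hj2⟩ := hkey
    refine le_of_tendsto (hlimF z hz1).norm ?_
    filter_upwards [eventually_ge_atTop j₀] with J hJ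
    have h1 := heval j₀ z 2 hj1 hj2 J hJ
    have h2 := hgeom (Finset.Ico j₀ J)
    linarith
  obtain ⟨T, hT⟩ := sum_bdd_of_bdd hq' hcL hcc (hF c ⟨q', hq', hcL⟩ hcc hbS)
  have hbig : ∀ J : ℕ, (J : ℝ) ≤ ∑ n ∈ Finset.range (K J), ‖c n‖ := by
    intro J
    induction J with
    | zero => simpa using Finset.sum_nonneg fun n _ => norm_nonneg (c n)
    | succ J ih =>
      have hN := hHN J (F J) (K J)
      set n := N J (F J) (K J) with hn
      have hBn : ‖(B J).coeff n‖ = 1 := hN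
      have hBn0 : (B J).coeff n ≠ 0 := by
        intro h0
        rw [h0, norm_zero] at hBn
        exact zero_ne_one hBn
      have h1 : K J ≤ n := by
        by_contra hlt
        exact hBn0 (hBlow J n (by omega))
      have h2 : n < K (J + 1) := by
        by_contra hlt
        exact hBn0 (hBhigh J n (not_lt.1 hlt))
      have h3 : ‖c n‖ = 1 := by
        rw [hcF (J + 1) n h2, hFs, Polynomial.coeff_add, hFz J n h1, zero_add, hBn]
      have h4 : n ∉ Finset.range (K J) := by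
        rw [Finset.mem_range, not_lt]
        exact h1
      have h5 : insert n (Finset.range (K J)) ⊆ Finset.range (K (J + 1)) := by
        intro m hm
        rw [Finset.mem_insert, Finset.mem_range] at hm
        rw [Finset.mem_range]
        rcases hm with h | h
        · omega
        · exact h.trans (hKm (Nat.lt_succ_self J))
      have h6 := Finset.sum_le_sum_of_subset_of_nonneg (f := fun n => ‖c n‖) h5
        fun _ _ _ => norm_nonneg _
      rw [Finset.sum_insert h4, h3] at h6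
      push_cast
      linarith
  obtain ⟨J, hJ⟩ := exists_nat_gt T
  have := hT (Finset.range (K J))
  linarith [hbig J]

/-- **Blow-up destroys forcing.** -/
theorem not_forcing_of_blow {S : Set ℂ} (hS : S ⊆ ball 0 1) {q : ℝ} (hq : 1 < q) {F : ℕ → ℂ[X]}
    (hL : ∀ i, Lac q (F i).coeff)
    (hb : ∀ r : ℝ, r < 1 → ∃ i₀ : ℕ, ∀ i, i₀ ≤ i → ∀ z ∈ S, ‖z‖ ≤ r → ‖(F i).eval z‖ ≤ 1)
    {r : ℝ} (hr0 : 0 < r) (hr1 : r < 1) (hB : Blow F r) : ¬ IsForcing S := by
  -- free annuli
  set a : ℕ → ℝ := fun j => 1 - (1 - r) / ((j : ℝ) + 1) with ha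
  have har : ∀ j, r ≤ a j := by
    intro j
    simp only [ha]
    have h1 : (1 - r) / ((j : ℝ) + 1) ≤ 1 - r := by
      apply div_le_self (by linarith)
      have : (0 : ℝ) ≤ j := Nat.cast_nonneg j
      linarith
    linarith
  have haa : ∀ j, a j < a (j + 1) := by
    intro j
    simp only [ha]
    have h1 : (1 - r) / (((j + 1 : ℕ) : ℝ) + 1) < (1 - r) / ((j : ℝ) + 1) := by
      apply div_lt_div_of_pos_left (by linarith) (by positivity)
      push_cast
      linarith
    linarith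
  have ha1 : ∀ j, a j < 1 := by
    intro j
    simp only [ha]
    have h1 : 0 < (1 - r) / ((j : ℝ) + 1) := div_pos (by linarith) (by positivity)
    linarith
  have h1 : ∀ j, ∃ x y : ℝ, a j < x ∧ x < y ∧ y < a (j + 1) ∧ ∀ z ∈ S, ¬ (x ≤ ‖z‖ ∧ ‖z‖ ≤ y) :=
    fun j => free_annulus hq hL hb (hr0.trans_le (har j)) (haa j) (ha1 (j + 1))
      (hB.mono hr0 (har j))
  choose x y hax hxy hya hfree using h1
  refine not_forcing_of_free hS (q' := (1 + q) / 2) (by linarith) (x := x) (y := y)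
    (fun j => hr0.le.trans ((har j).trans (hax j).le))
    (fun j => (hxy j).trans ((hya j).trans (ha1 (j + 1))))
    (monotone_nat_of_le_succ fun j => ((hxy j).trans ((hya j).trans (hax (j + 1)))).le) ?_ hfree ?_
  · intro s hs
    have h2 : Tendsto (fun j : ℕ => a j) atTop (𝓝 (1 - 0)) := by
      simp only [ha]
      refine Tendsto.const_sub 1 ?_
      have h3 : Tendsto (fun j : ℕ => (1 - r) / ((j : ℝ) + 1)) atTop (𝓝 0) := by
        refine Tendsto.div_atTop tendsto_const_nhds ?_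
        exact tendsto_atTop_add_const_right _ _ tendsto_natCast_atTop_atTop
      exact h3
    rw [sub_zero] at h2
    obtain ⟨j, hj⟩ := (h2.eventually (lt_mem_nhds hs)).exists
    exact ⟨j, hj.trans (hax j)⟩
  · intro j Q ρ ε hρ hε K
    obtain ⟨x', hx'1, hx'2⟩ := exists_between (hxy j)
    have hrx : r ≤ x j := (har j).trans (hax j).le
    exact approx_poly hS (q := q) (by linarith) (by linarith) (hr0.le.trans hrx)
      ((hxy j).trans ((hya j).trans (ha1 (j + 1)))).le
      (fun ρ ε hρ hε K => approx_one hq hL hb (hr0.le.trans hrx) hx'1 hx'2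
        (hB.mono hr0 (hrx.trans hx'1.le)) hρ hε K) Q ρ ε hρ hε K

end Forcing
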