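import Pool.Agent.Lib.MP_c80ac4_an.Local.Build

/-! # The local criterion -/

namespace Forcing

open Complex Metric Set MeasureTheory Filter Topology Polynomial

/-- Local inequality: for every `K` there is a radius `ρ < 1` such that every polynomial with
`q`-lacunary positive exponents which is bounded by one on the points of `S` of modulus at most `ρ`
has the sum of the moduli of its coefficients of order at most `K` bounded by `C`. -/
def LocalIneq (q C : ℝ) (S : Set ℂ) : Prop :=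
  ∀ K : ℕ, ∃ ρ : ℝ, ρ < 1 ∧ ∀ (s : Finset ℕ) (c : ℕ → ℂ), LacSet q 1 (s : Set ℕ) →
    (∀ z ∈ S, ‖z‖ ≤ ρ → ‖∑ n ∈ s, c n * z ^ n‖ ≤ 1) → ∑ n ∈ s with n ≤ K, ‖c n‖ ≤ C

theorem LocalIneq.nonneg {q C : ℝ} {S : Set ℂ} (h : LocalIneq q C S) : 0 ≤ C := by
  obtain ⟨ρ, -, h1⟩ := h 0
  have := h1 ∅ 0 ⟨by simp, by simp⟩ (by simp)
  simpa using this

/-- The local inequality for the polynomials with exponents in a given set `L`. -/
def LocalIneqOn (L : Set ℕ) (C : ℝ) (S : Set ℂ) : Prop :=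
  ∀ K : ℕ, ∃ ρ : ℝ, ρ < 1 ∧ ∀ (s : Finset ℕ) (c : ℕ → ℂ), (s : Set ℕ) ⊆ L →
    (∀ z ∈ S, ‖z‖ ≤ ρ → ‖∑ n ∈ s, c n * z ^ n‖ ≤ 1) → ∑ n ∈ s with n ≤ K, ‖c n‖ ≤ C

theorem LocalIneq.on {q C : ℝ} {S : Set ℂ} (h : LocalIneq q C S) {L : Set ℕ}
    (hL : LacSet q 1 L) : LocalIneqOn L C S := by
  intro K
  obtain ⟨ρ, hρ, h1⟩ := h K
  exact ⟨ρ, hρ, fun s c hs => h1 s c (hL.mono le_rfl hs)⟩

/-- **The local criterion**, necessity. -/
theorem local_of_forcing {S : Set ℂ} (hS : S ⊆ ball 0 1) (hF : IsForcing S) {q : ℝ} (hq : 1 < q) :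
    ∃ C : ℝ, LocalIneq q C S := by
  classical
  obtain ⟨C, hC, hU⟩ := unif_zero hS hF hq
  refine ⟨C + 1, ?_⟩
  by_contra hno
  unfold LocalIneq at hno
  push Not at hno
  obtain ⟨K, hK⟩ := hno
  have h1 : ∀ i : ℕ, 1 - 1 / ((i : ℝ) + 1) < 1 := fun i => by
    have : 0 < 1 / ((i : ℝ) + 1) := by positivity
    linarith
  choose s c hs hb hbig using fun i : ℕ => hK (1 - 1 / ((i : ℝ) + 1)) (h1 i)
  set F : ℕ → ℂ[X] := fun i => ∑ n ∈ s i, Polynomial.monomial n (c i n) with hFdef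
  have hFc : ∀ i n, (F i).coeff n = if n ∈ s i then c i n else 0 := by
    intro i n
    simp only [hFdef]
    rw [Polynomial.finsetSum_coeff]
    simp only [Polynomial.coeff_monomial]
    rw [Finset.sum_ite_eq']
  have hFe : ∀ i z, (F i).eval z = ∑ n ∈ s i, c i n * z ^ n := by
    intro i z
    simp only [hFdef]
    rw [Polynomial.eval_finsetSum]
    simp only [Polynomial.eval_monomial]
  have hmem : ∀ i n, (F i).coeff n ≠ 0 → n ∈ s i := by
    intro i n hn
    rw [hFc] at hn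
    by_contra h
    rw [if_neg h] at hn
    exact hn rfl
  have hL : ∀ i, Lac q (F i).coeff := by
    intro i
    refine ⟨?_, fun m n hmn hm hn => (hs i).2 m (hmem i m hm) n (hmem i n hn) hmn⟩
    by_contra h0
    exact absurd ((hs i).1 0 (hmem i 0 h0)).1 (lt_irrefl 0)
  have hbF : ∀ r : ℝ, r < 1 → ∃ i₀ : ℕ, ∀ i, i₀ ≤ i → ∀ z ∈ S, ‖z‖ ≤ r → ‖(F i).eval z‖ ≤ 1 := by
    intro r hr
    have h2 : Tendsto (fun i : ℕ => 1 - 1 / ((i : ℝ) + 1)) atTop (𝓝 (1 - 0)) :=
      tendsto_one_div_add_atTop_nhds_zero_nat.const_sub 1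
    rw [sub_zero] at h2
    obtain ⟨i₀, hi₀⟩ := Filter.eventually_atTop.1 (h2.eventually (lt_mem_nhds hr))
    refine ⟨i₀, fun i hi z hz hzr => ?_⟩
    rw [hFe]
    exact hb i z hz (hzr.trans (hi₀ i hi).le)
  have hKF : ∀ i, C + 1 < ∑ n ∈ Finset.range (K + 1), ‖(F i).coeff n‖ := by
    intro i
    refine (hbig i).trans_le ?_
    have h2 : ∑ n ∈ s i with n ≤ K, ‖c i n‖ = ∑ n ∈ s i with n ≤ K, ‖(F i).coeff n‖ := by
      refine Finset.sum_congr rfl fun n hn => ?_
      rw [hFc, if_pos (Finset.mem_filter.1 hn).1]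
    rw [h2]
    refine Finset.sum_le_sum_of_subset_of_nonneg (fun n hn => ?_) fun _ _ _ => norm_nonneg _
    have := (Finset.mem_filter.1 hn).2
    exact Finset.mem_range.2 (by omega)
  obtain ⟨r, hr0, hr1, hB⟩ := blow_of_unif hS hC hU hL hbF hKF
  exact not_forcing_of_blow hS hq hL hbF hr0 hr1 hB hF

/-- **The local criterion**, sufficiency, for each set of exponents separately. -/
theorem forcing_of_localOn {S : Set ℂ} (hS : S ⊆ ball 0 1)
    (h : ∀ (q : ℝ) (L : Set ℕ), 1 < q → LacSet q 1 L → ∃ C : ℝ, LocalIneqOn L C S) :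
    IsForcing S := by
  classical
  rintro c ⟨q, hq, hL⟩ hc ⟨M, hM⟩
  obtain ⟨C, hC⟩ := h q {n | c n ≠ 0} hq ⟨fun m hm => by
    have hm0 : 0 < m := Nat.pos_of_ne_zero fun h0 => hm (h0 ▸ hL.1)
    exact ⟨hm0, hm0⟩, fun m hm n hn hmn => hL.2 m n hmn hm hn⟩
  have hC0 : 0 ≤ C := by
    obtain ⟨ρ, -, h1⟩ := hC 0
    have := h1 ∅ 0 (by simp) (by simp)
    simpa using this
  set M' : ℝ := max M 0 + 1 with hM'
  have hM'0 : 0 < M' := by
    have := le_max_right M 0
    linarith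
  refine bdd_of_sum_bdd (K := C * M') hc fun t => ?_
  set K := t.sup id with hK
  obtain ⟨ρ, hρ, hC1⟩ := hC K
  have hρ' : max ρ 0 < 1 := max_lt hρ one_pos
  have hsum := hc.summable_norm (le_max_right ρ 0) hρ'
  set T := ∑' n, ‖c n‖ * (max ρ 0) ^ n with hT
  obtain ⟨D, hD1, hD2⟩ : ∃ D : ℕ, T - ∑ n ∈ Finset.range D, ‖c n‖ * (max ρ 0) ^ n ≤ 1 ∧ K + 1 ≤ D := by
    have h1 : Tendsto (fun D : ℕ => T - ∑ n ∈ Finset.range D, ‖c n‖ * (max ρ 0) ^ n) atTop
        (𝓝 (T - T)) := hsum.hasSum.tendsto_sum_nat.const_sub T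
    rw [sub_self] at h1
    exact ((h1.eventually (ge_mem_nhds one_pos)).and (eventually_ge_atTop (K + 1))).exists
  set s := (Finset.range D).filter fun n => c n ≠ 0 with hs
  have h1 := hC1 s (fun n => c n / (M' : ℂ)) (fun m hm => ?_) fun z hz hzρ => ?_
  · have h2 : ∑ n ∈ s with n ≤ K, ‖c n / (M' : ℂ)‖ = (∑ n ∈ s with n ≤ K, ‖c n‖) / M' := by
      rw [Finset.sum_div]
      refine Finset.sum_congr rfl fun n _ => ?_
      rw [norm_div, Complex.norm_real, Real.norm_of_nonneg hM'0.le]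
    rw [h2, div_le_iff₀ hM'0] at h1
    refine le_trans ?_ h1
    have h3 : ∑ n ∈ t, ‖c n‖ = ∑ n ∈ t with c n ≠ 0, ‖c n‖ := by
      rw [Finset.sum_filter]
      refine Finset.sum_congr rfl fun n _ => ?_
      split_ifs with hn
      · rfl
      · have : c n = 0 := by simpa using hn
        simp [this]
    rw [h3]
    refine Finset.sum_le_sum_of_subset_of_nonneg (fun n hn => ?_) fun _ _ _ => norm_nonneg _
    rw [Finset.mem_filter] at hn
    have h4 : n ≤ K := Finset.le_sup (f := id) hn.1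
    rw [Finset.mem_filter, hs, Finset.mem_filter, Finset.mem_range]
    exact ⟨⟨by omega, hn.2⟩, h4⟩
  · rw [hs, Finset.coe_filter] at hm
    exact hm.2
  · have hz1 : ‖z‖ < 1 := mem_ball_zero_iff.1 (hS hz)
    have e1 : ∑ n ∈ s, c n / (M' : ℂ) * z ^ n = (∑ n ∈ Finset.range D, c n * z ^ n) / M' := by
      rw [hs, Finset.sum_filter, Finset.sum_div]
      refine Finset.sum_congr rfl fun n _ => ?_
      split_ifs with h
      · ring
      · have : c n = 0 := by simpa using h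
        simp [this]
    have e2 : ∑ n ∈ Finset.range D, c n * z ^ n = ps c z - ∑' n, c (n + D) * z ^ (n + D) := by
      rw [ps, ← (hc z hz1).sum_add_tsum_nat_add D, add_sub_cancel_right]
    have e3 : ‖∑' n, c (n + D) * z ^ (n + D)‖ ≤ 1 := by
      have e4 : ∑' n, ‖c (n + D)‖ * (max ρ 0) ^ (n + D) =
          T - ∑ n ∈ Finset.range D, ‖c n‖ * (max ρ 0) ^ n := by
        rw [hT, ← hsum.sum_add_tsum_nat_add D]; ring
      refine le_trans ?_ ((le_of_eq e4).trans hD1)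
      refine tsum_of_norm_bounded ((summable_nat_add_iff D).2 hsum).hasSum fun n => ?_
      rw [norm_mul, norm_pow]
      exact mul_le_mul_of_nonneg_left (pow_le_pow_left₀ (norm_nonneg _)
        (hzρ.trans (le_max_left _ _)) _) (norm_nonneg _)
    rw [e1, e2, norm_div, Complex.norm_real, Real.norm_of_nonneg hM'0.le, div_le_one hM'0]
    refine (norm_sub_le _ _).trans ?_
    have := hM z hz
    have := le_max_left M 0
    linarith

/-- **The local criterion**, sufficiency. -/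
theorem forcing_of_local {S : Set ℂ} (hS : S ⊆ ball 0 1)
    (h : ∀ q : ℝ, 1 < q → ∃ C : ℝ, LocalIneq q C S) : IsForcing S :=
  forcing_of_localOn hS fun q L hq hL => by
    obtain ⟨C, hC⟩ := h q hq
    exact ⟨C, hC.on hL⟩

/-- **The local criterion**, for each set of exponents separately. -/
theorem isForcing_iff_localOn {S : Set ℂ} (hS : S ⊆ ball 0 1) :
    IsForcing S ↔ ∀ (q : ℝ) (L : Set ℕ), 1 < q → LacSet q 1 L → ∃ C : ℝ, LocalIneqOn L C S :=
  ⟨fun hF _ _ hq hL => by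
    obtain ⟨C, hC⟩ := local_of_forcing hS hF hq
    exact ⟨C, hC.on hL⟩, forcing_of_localOn hS⟩

/-- **The local criterion.** -/
theorem isForcing_iff_local {S : Set ℂ} (hS : S ⊆ ball 0 1) :
    IsForcing S ↔ ∀ q : ℝ, 1 < q → ∃ C : ℝ, LocalIneq q C S :=
  ⟨fun hF _ hq => local_of_forcing hS hF hq, forcing_of_local hS⟩

end Forcing
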