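import Pool.Agent.Lib.MP_c80ac4_an.Coarse

/-! # Differences isolate the largest term of a gap series -/

namespace Forcing

open Complex Metric Set MeasureTheory Filter Topology

/-- Points away from `log 2` give products smaller than one quarter. -/
theorem diff_away {t e : ℝ} (he : 0 ≤ e) (h : t ≤ Real.log 2 - e ∨ Real.log 2 + e ≤ t) :
    Real.exp (-t) * (1 - Real.exp (-t)) ≤ 1 / 4 - ((1 - Real.exp (-e)) / 2) ^ 2 := by
  have h2 : Real.exp (-Real.log 2) = 1 / 2 := by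
    rw [Real.exp_neg, Real.exp_log (by norm_num)]
    norm_num
  have he1 : Real.exp (-e) ≤ 1 := Real.exp_le_one_iff.2 (by linarith)
  have he0 := Real.exp_pos (-e)
  have key : (1 - Real.exp (-e)) / 2 ≤ |1 / 2 - Real.exp (-t)| := by
    rcases h with h | h
    · have h1 : Real.exp (-Real.log 2 + e) ≤ Real.exp (-t) := Real.exp_le_exp.2 (by linarith)
      rw [Real.exp_add, h2] at h1
      have h3 : 1 ≤ Real.exp e * Real.exp (-e) := by
        rw [← Real.exp_add, add_neg_cancel, Real.exp_zero]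
      have h4 : 1 - Real.exp (-e) ≤ Real.exp e - 1 := by
        have := Real.add_one_le_exp e
        have := Real.add_one_le_exp (-e)
        linarith
      rw [abs_of_nonpos (by nlinarith [Real.exp_pos e])]
      linarith
    · have h1 : Real.exp (-t) ≤ Real.exp (-Real.log 2 + -e) := Real.exp_le_exp.2 (by linarith)
      rw [Real.exp_add, h2] at h1
      rw [abs_of_nonneg (by nlinarith)]
      linarith
  have h3 : ((1 - Real.exp (-e)) / 2) ^ 2 ≤ (1 / 2 - Real.exp (-t)) ^ 2 := by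
    rw [← sq_abs (1 / 2 - Real.exp (-t))]
    exact pow_le_pow_left₀ (by linarith) key 2
  nlinarith

/-- Points close to `log 2` give products close to one quarter. -/
theorem diff_near {t e : ℝ} (h : |t - Real.log 2| ≤ e) (ht : 0 ≤ t) :
    1 / 4 - e ^ 2 ≤ Real.exp (-t) * (1 - Real.exp (-t)) := by
  have h2 : Real.exp (-Real.log 2) = 1 / 2 := by
    rw [Real.exp_neg, Real.exp_log (by norm_num)]
    norm_num
  have hlog : 0 ≤ Real.log 2 := Real.log_nonneg (by norm_num)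
  have lip : ∀ a b : ℝ, 0 ≤ a → a ≤ b → Real.exp (-a) - Real.exp (-b) ≤ b - a := by
    intro a b ha hab
    have h1 := Real.add_one_le_exp (-(b - a))
    have h3 : Real.exp (-b) = Real.exp (-a) * Real.exp (-(b - a)) := by
      rw [← Real.exp_add]
      congr 1
      ring
    have h4 : Real.exp (-a) ≤ 1 := Real.exp_le_one_iff.2 (by linarith)
    have h5 := Real.exp_pos (-a)
    rw [h3]
    nlinarith
  have key : |1 / 2 - Real.exp (-t)| ≤ e := by
    rw [abs_le] at h ⊢
    rcases le_total t (Real.log 2) with h1 | h1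
    · have h3 := lip t (Real.log 2) ht h1
      have h4 : Real.exp (-Real.log 2) ≤ Real.exp (-t) := Real.exp_le_exp.2 (by linarith)
      constructor <;> linarith
    · have h3 := lip (Real.log 2) t hlog h1
      have h4 : Real.exp (-t) ≤ Real.exp (-Real.log 2) := Real.exp_le_exp.2 (by linarith)
      constructor <;> linarith
  have h3 : (1 / 2 - Real.exp (-t)) ^ 2 ≤ e ^ 2 := by
    rw [← sq_abs (1 / 2 - Real.exp (-t))]
    exact pow_le_pow_left₀ (abs_nonneg _) key 2
  nlinarith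

/-- **Differences isolate the largest term.** -/
theorem diff_bound {q : ℝ} (hq : 1 < q) : ∃ (p : ℕ) (η C : ℝ), 1 ≤ p ∧ 0 < η ∧ 0 < C ∧
    ∀ (b : ℕ → ℂ) (n₁ : ℕ) (h M : ℝ), Lac q b → (Summable fun n => ‖b n‖) →
      (∀ n, ‖b n‖ ≤ ‖b n₁‖) → b n₁ ≠ 0 → 0 < h → |n₁ * h - Real.log 2| ≤ η →
      (∀ j : ℕ, j ≤ p → ‖∑' n, b n * ((Real.exp (-(n * h)) : ℝ) : ℂ) ^ (p + j)‖ ≤ M) →
      ‖b n₁‖ ≤ C * M := by
  have hlog2 : 0 < Real.log 2 := Real.log_pos (by norm_num)
  have hlog2' : Real.log 2 < 1 := by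
    have := Real.log_two_lt_d9
    linarith
  set η' : ℝ := (q - 1) * Real.log 2 / (2 * q) with hη'
  have hq0 : 0 < q := by linarith
  have hη'0 : 0 < η' := by
    have : 0 < q - 1 := by linarith
    positivity
  set d : ℝ := (1 - Real.exp (-η')) / 2 with hd
  have hexp1 : Real.exp (-η') < 1 := by
    have := Real.exp_lt_exp.2 (show -η' < 0 by linarith)
    rwa [Real.exp_zero] at this
  have hexp0 := Real.exp_pos (-η')
  have hd0 : 0 < d := by linarith
  have hd1 : d < 1 / 2 := by linarith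
  set η : ℝ := min η' (d / 2) with hη
  have hη0 : 0 < η := lt_min hη'0 (by linarith)
  have hηη' : η ≤ η' := min_le_left _ _
  have hηd : η ≤ d / 2 := min_le_right _ _
  set κ : ℝ := (1 / 4 - d ^ 2) / (1 / 4 - d ^ 2 / 4) with hκ
  have hden : 0 < 1 / 4 - d ^ 2 / 4 := by nlinarith
  have hnum : 0 ≤ 1 / 4 - d ^ 2 := by nlinarith
  have hκ0 : 0 ≤ κ := div_nonneg hnum hden.le
  have hκ1 : κ < 1 := by
    rw [hκ, div_lt_one hden]
    nlinarith
  have hCq : 0 < 2 * q / (q - 1) := by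
    have : 0 < q - 1 := by linarith
    positivity
  obtain ⟨p', hp'⟩ : ∃ p' : ℕ, κ ^ p' * (2 * q / (q - 1)) ≤ 1 / 16 := by
    have h1 : Tendsto (fun k : ℕ => κ ^ k * (2 * q / (q - 1))) atTop
        (𝓝 (0 * (2 * q / (q - 1)))) :=
      (tendsto_pow_atTop_nhds_zero_of_lt_one hκ0 hκ1).mul_const _
    rw [zero_mul] at h1
    exact (h1.eventually (ge_mem_nhds (by norm_num))).exists
  set p := p' + 1 with hp
  refine ⟨p, η, 2 * 8 ^ p * 2 ^ p, by omega, hη0, by positivity, ?_⟩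
  intro b n₁ h M hL hs hmax hb hh hnear hM
  have hn₁ : n₁ ≠ 0 := fun h0 => hb (h0 ▸ hL.1)
  have hb0 : 0 < ‖b n₁‖ := norm_pos_iff.2 hb
  set u : ℕ → ℝ := fun n => Real.exp (-(n * h)) with hu
  have hu0 : ∀ n, 0 < u n := fun n => Real.exp_pos _
  have hu1 : ∀ n, u n ≤ 1 := fun n => Real.exp_le_one_iff.2 (by
    have : (0 : ℝ) ≤ n * h := by positivity
    linarith)
  set A : ℕ → ℝ := fun n => u n * (1 - u n) with hA
  have hA0 : ∀ n, 0 ≤ A n := fun n => mul_nonneg (hu0 n).le (by linarith [hu1 n])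
  have hA1 : ∀ n, A n ≤ 1 := fun n => by
    simp only [hA]
    nlinarith [hu0 n, hu1 n]
  have hAn₁ : 1 / 4 - d ^ 2 / 4 ≤ A n₁ := by
    have h1 := diff_near hnear (by positivity)
    have h2 : η ^ 2 ≤ (d / 2) ^ 2 := pow_le_pow_left₀ hη0.le hηd 2
    simp only [hA, hu]
    nlinarith
  have hAn₁8 : 1 / 8 ≤ A n₁ := by nlinarith
  have hnear' := abs_le.1 hnear
  -- the other terms
  have hAn : ∀ n, n ≠ n₁ → b n ≠ 0 → A n ≤ κ * A n₁ := by
    intro n hn hbn
    have h1 : A n ≤ 1 / 4 - d ^ 2 := by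
      apply diff_away hη'0.le
      have e1 : 2 * q * η' = (q - 1) * Real.log 2 := by
        rw [hη']
        field_simp
      rcases lt_or_gt_of_ne hn with hlt | hgt
      · left
        have h2 := hL.2 n n₁ hlt hbn hb
        have h3 : q * (n * h) ≤ n₁ * h := by
          have := mul_le_mul_of_nonneg_right h2 hh.le
          linarith
        have h4 : q * (n * h) ≤ Real.log 2 + η' := by linarith
        have h5 : Real.log 2 + η' ≤ q * (Real.log 2 - η') := by nlinarith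
        have h6 : q * (n * h) ≤ q * (Real.log 2 - η') := h4.trans h5
        exact le_of_mul_le_mul_left h6 hq0
      · right
        have h2 := hL.2 n₁ n hgt hb hbn
        have h3 : q * (n₁ * h) ≤ n * h := by
          have := mul_le_mul_of_nonneg_right h2 hh.le
          linarith
        have h4 : q * (Real.log 2 - η') ≤ q * (n₁ * h) :=
          mul_le_mul_of_nonneg_left (by linarith) hq0.le
        have h5 : Real.log 2 + η' ≤ q * (Real.log 2 - η') := by nlinarith
        linarith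
    refine h1.trans ?_
    have h2 : κ * (1 / 4 - d ^ 2 / 4) = 1 / 4 - d ^ 2 := by
      rw [hκ]
      exact div_mul_cancel₀ _ hden.ne'
    rw [← h2]
    exact mul_le_mul_of_nonneg_left hAn₁ hκ0
  -- sums over finite sets
  have hsum : ∀ s : Finset ℕ, ∑ n ∈ s, ‖if n = n₁ then 0 else b n * ((A n : ℝ) : ℂ) ^ p‖ ≤
      ‖b n₁‖ * (A n₁ ^ p / 2) := by
    intro s
    set s' := s.filter fun n => n ≠ n₁ ∧ b n ≠ 0 with hs'
    have e1 : ∑ n ∈ s, ‖if n = n₁ then 0 else b n * ((A n : ℝ) : ℂ) ^ p‖ =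
        ∑ n ∈ s', ‖b n‖ * A n ^ p := by
      rw [hs', Finset.sum_filter]
      refine Finset.sum_congr rfl fun n _ => ?_
      by_cases h1 : n = n₁
      · rw [if_pos h1, if_neg (fun h2 => h2.1 h1), norm_zero]
      · by_cases h2 : b n = 0
        · rw [if_neg h1, if_neg (fun h3 => h3.2 h2), h2, zero_mul, norm_zero]
        · rw [if_neg h1, if_pos ⟨h1, h2⟩, norm_mul, norm_pow, Complex.norm_real,
            Real.norm_of_nonneg (hA0 n)]
    rw [e1]
    have e2 : ∀ n ∈ s', ‖b n‖ * A n ^ p ≤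
        (‖b n₁‖ * (κ * A n₁) ^ p') * ((n * h) * Real.exp (-(n * h))) := by
      intro n hn
      rw [hs', Finset.mem_filter] at hn
      have h1 := hAn n hn.2.1 hn.2.2
      have h2 : A n ^ p = A n ^ p' * A n := pow_succ _ _
      have h3 : A n ≤ (n * h) * Real.exp (-(n * h)) := by
        simp only [hA, hu]
        have := Real.add_one_le_exp (-(n * h))
        have h4 : 1 - Real.exp (-(n * h)) ≤ n * h := by linarith
        rw [mul_comm]
        exact mul_le_mul_of_nonneg_right h4 (Real.exp_pos _).le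
      have h4 : A n ^ p' ≤ (κ * A n₁) ^ p' := pow_le_pow_left₀ (hA0 n) h1 p'
      rw [h2]
      calc ‖b n‖ * (A n ^ p' * A n) ≤
            ‖b n₁‖ * ((κ * A n₁) ^ p' * ((n * h) * Real.exp (-(n * h)))) := by
            refine mul_le_mul (hmax n) (mul_le_mul h4 h3 (hA0 n) ?_) ?_ (norm_nonneg _)
            · have := hA0 n₁
              positivity
            · have := hA0 n
              positivity
        _ = _ := by ring
    refine (Finset.sum_le_sum e2).trans ?_
    rw [← Finset.mul_sum]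
    have h1 := gap_sum_exp hq hh s' (fun m hm => Nat.pos_of_ne_zero fun h0 => by
        rw [hs', Finset.mem_filter] at hm
        exact hm.2.2 (h0 ▸ hL.1))
      (fun m hm n hn hmn => by
        rw [hs', Finset.mem_filter] at hm hn
        exact hL.2 m n hmn hm.2.2 hn.2.2)
    have hA₁0 := hA0 n₁
    calc ‖b n₁‖ * (κ * A n₁) ^ p' * ∑ n ∈ s', (n * h) * Real.exp (-(n * h))
        ≤ ‖b n₁‖ * (κ * A n₁) ^ p' * (2 * q / (q - 1)) := by gcongr
      _ = ‖b n₁‖ * (A n₁ ^ p' * (κ ^ p' * (2 * q / (q - 1)))) := by rw [mul_pow]; ring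
      _ ≤ ‖b n₁‖ * (A n₁ ^ p' * (1 / 16)) := by gcongr
      _ ≤ ‖b n₁‖ * (A n₁ ^ p / 2) := by
          refine mul_le_mul_of_nonneg_left ?_ (norm_nonneg _)
          have h2 : A n₁ ^ p = A n₁ ^ p' * A n₁ := pow_succ _ _
          rw [h2]
          have h3 : 0 ≤ A n₁ ^ p' := by positivity
          nlinarith
  -- the combination of the values
  have hsj : ∀ j : ℕ, Summable fun n => b n * ((u n : ℝ) : ℂ) ^ (p + j) := by
    intro j
    refine Summable.of_norm_bounded hs fun n => ?_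
    rw [norm_mul, norm_pow, Complex.norm_real, Real.norm_of_nonneg (hu0 n).le]
    have : u n ^ (p + j) ≤ 1 := pow_le_one₀ (hu0 n).le (hu1 n)
    nlinarith [norm_nonneg (b n)]
  have hcomb : HasSum (fun n => b n * ((A n : ℝ) : ℂ) ^ p)
      (∑ j ∈ Finset.range (p + 1), ((-1) ^ j * (p.choose j : ℂ)) *
        ∑' n, b n * ((u n : ℝ) : ℂ) ^ (p + j)) := by
    have h1 : HasSum (fun n => ∑ j ∈ Finset.range (p + 1), ((-1) ^ j * (p.choose j : ℂ)) *
        (b n * ((u n : ℝ) : ℂ) ^ (p + j))) (∑ j ∈ Finset.range (p + 1),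
        ((-1) ^ j * (p.choose j : ℂ)) * ∑' n, b n * ((u n : ℝ) : ℂ) ^ (p + j)) :=
      hasSum_sum fun j _ => (hsj j).hasSum.mul_left _
    refine h1.congr_fun ?_
    intro n
    have h2 : ((A n : ℝ) : ℂ) ^ p = ((u n : ℝ) : ℂ) ^ p * (-((u n : ℝ) : ℂ) + 1) ^ p := by
      rw [← mul_pow]
      congr 1
      simp only [hA]
      push_cast
      ring
    rw [h2, add_pow, Finset.mul_sum, Finset.mul_sum]
    refine Finset.sum_congr rfl fun j _ => ?_
    rw [one_pow, mul_one, neg_pow, pow_add]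
    ring
  set D : ℂ := ∑ j ∈ Finset.range (p + 1), ((-1) ^ j * (p.choose j : ℂ)) *
        ∑' n, b n * ((u n : ℝ) : ℂ) ^ (p + j) with hD
  have hDle : ‖D‖ ≤ 2 ^ p * M := by
    refine (norm_sum_le _ _).trans ?_
    have h1 : ∀ j ∈ Finset.range (p + 1), ‖((-1) ^ j * (p.choose j : ℂ)) *
        ∑' n, b n * ((u n : ℝ) : ℂ) ^ (p + j)‖ ≤ (p.choose j : ℝ) * M := by
      intro j hj
      rw [Finset.mem_range] at hj
      rw [norm_mul, norm_mul, norm_pow, norm_neg, norm_one, one_pow, one_mul, Complex.norm_natCast]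
      exact mul_le_mul_of_nonneg_left (hM j (by omega)) (Nat.cast_nonneg _)
    refine (Finset.sum_le_sum h1).trans (le_of_eq ?_)
    rw [← Finset.sum_mul]
    congr 1
    have := Nat.sum_range_choose p
    exact_mod_cast this
  have hsplit : D = b n₁ * ((A n₁ : ℝ) : ℂ) ^ p +
      ∑' n, (if n = n₁ then 0 else b n * ((A n : ℝ) : ℂ) ^ p) := by
    rw [← hcomb.tsum_eq]
    exact hcomb.summable.tsum_eq_add_tsum_ite n₁
  have hrest : ‖∑' n, (if n = n₁ then 0 else b n * ((A n : ℝ) : ℂ) ^ p)‖ ≤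
      ‖b n₁‖ * (A n₁ ^ p / 2) := by
    have h1 : Summable fun n => ‖if n = n₁ then 0 else b n * ((A n : ℝ) : ℂ) ^ p‖ :=
      summable_of_sum_le (fun n => norm_nonneg _) hsum
    exact (norm_tsum_le_tsum_norm h1).trans (h1.tsum_le_of_sum_le hsum)
  have hmain : ‖b n₁‖ * A n₁ ^ p ≤ ‖D‖ + ‖b n₁‖ * (A n₁ ^ p / 2) := by
    have h1 : b n₁ * ((A n₁ : ℝ) : ℂ) ^ p = D -
        ∑' n, (if n = n₁ then 0 else b n * ((A n : ℝ) : ℂ) ^ p) := by
      rw [hsplit]
      ring
    have h2 : ‖b n₁ * ((A n₁ : ℝ) : ℂ) ^ p‖ = ‖b n₁‖ * A n₁ ^ p := by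
      rw [norm_mul, norm_pow, Complex.norm_real, Real.norm_of_nonneg (hA0 n₁)]
    rw [← h2, h1]
    exact (norm_sub_le _ _).trans (add_le_add le_rfl hrest)
  have hM0 : 0 ≤ M := (norm_nonneg _).trans (hM 0 (Nat.zero_le _))
  have h8 : (1 / 8 : ℝ) ^ p ≤ A n₁ ^ p := pow_le_pow_left₀ (by norm_num) hAn₁8 p
  have h9 : ‖b n₁‖ * (1 / 8) ^ p ≤ 2 * (2 ^ p * M) := by
    have : ‖b n₁‖ * (1 / 8) ^ p ≤ ‖b n₁‖ * A n₁ ^ p := mul_le_mul_of_nonneg_left h8 hb0.le
    linarith
  have h10 : ‖b n₁‖ = (‖b n₁‖ * (1 / 8) ^ p) * 8 ^ p := by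
    rw [div_pow, one_pow]
    field_simp
  rw [h10]
  calc (‖b n₁‖ * (1 / 8) ^ p) * 8 ^ p ≤ (2 * (2 ^ p * M)) * 8 ^ p := by gcongr
    _ = 2 * 8 ^ p * 2 ^ p * M := by ring

end Forcing
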