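import Pool.Agent.Lib.MP_c80ac4_an.Local.Zero

/-! # A blow-up dichotomy for polynomials bounded on compact parts of a set -/

namespace Forcing

open Complex Metric Set MeasureTheory Filter Topology Polynomial

theorem ps_poly (P : ℂ[X]) (z : ℂ) : ps P.coeff z = P.eval z := by
  rw [ps, Polynomial.eval_eq_sum_range]
  exact tsum_eq_sum fun n hn => by
    rw [Finset.mem_range, not_lt] at hn
    rw [Polynomial.coeff_eq_zero_of_natDegree_lt (by omega), zero_mul]

theorem conv_poly (P : ℂ[X]) : Conv P.coeff := fun z _ =>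
  summable_of_ne_finset_zero (s := Finset.range (P.natDegree + 1)) fun n hn => by
    rw [Finset.mem_range, not_lt] at hn
    rw [Polynomial.coeff_eq_zero_of_natDegree_lt (by omega), zero_mul]

/-- The maximal terms of the polynomials `F i` on the circle of radius `r` have arbitrarily large
modulus and index. -/
def Blow (F : ℕ → ℂ[X]) (r : ℝ) : Prop :=
  ∀ M : ℕ, ∃ i : ℕ, M ≤ i ∧ ∃ n : ℕ, M ≤ n ∧ (M : ℝ) < ‖(F i).coeff n‖ * r ^ n ∧
    ∀ m, ‖(F i).coeff m‖ * r ^ m ≤ ‖(F i).coeff n‖ * r ^ n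

theorem exists_max_term {P : ℂ[X]} (hP : P ≠ 0) {r : ℝ} (hr : 0 < r) :
    ∃ n, P.coeff n ≠ 0 ∧ ∀ m, ‖P.coeff m‖ * r ^ m ≤ ‖P.coeff n‖ * r ^ n := by
  obtain ⟨n, hn, hmax⟩ := Finset.exists_max_image P.support (fun m => ‖P.coeff m‖ * r ^ m)
    (Polynomial.support_nonempty.2 hP)
  refine ⟨n, Polynomial.mem_support_iff.1 hn, fun m => ?_⟩
  by_cases hm : m ∈ P.support
  · exact hmax m hm
  · rw [Polynomial.notMem_support_iff.1 hm, norm_zero, zero_mul]
    positivity

/-- **Blow-up.** If polynomials with gaps are bounded by one on growing compact parts of `S` but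
their coefficient sums on `[0, K]` exceed the constant of the uniform bound then they blow up. -/
theorem blow_of_unif {S : Set ℂ} (hS : S ⊆ ball 0 1) {q : ℝ} {C : ℝ} (hC : 0 < C)
    (hU : UnifBound q 0 C S) {F : ℕ → ℂ[X]} (hL : ∀ i, Lac q (F i).coeff)
    (hb : ∀ r : ℝ, r < 1 → ∃ i₀ : ℕ, ∀ i, i₀ ≤ i → ∀ z ∈ S, ‖z‖ ≤ r → ‖(F i).eval z‖ ≤ 1)
    {K : ℕ} (hK : ∀ i, C + 1 < ∑ n ∈ Finset.range (K + 1), ‖(F i).coeff n‖) :
    ∃ r : ℝ, 0 < r ∧ r < 1 ∧ Blow F r := by
  classical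
  by_contra hno
  push Not at hno
  have hnb : ∀ r : ℝ, 0 < r → r < 1 → ∃ M : ℕ, ∀ i, M ≤ i → ∀ n, M ≤ n →
      (∀ m, ‖(F i).coeff m‖ * r ^ m ≤ ‖(F i).coeff n‖ * r ^ n) →
        ‖(F i).coeff n‖ * r ^ n ≤ M := by
    intro r h0 h1
    have h2 := hno r h0 h1
    unfold Blow at h2
    push Not at h2
    obtain ⟨M, hM⟩ := h2
    refine ⟨M, fun i hi n hn hmax => ?_⟩
    by_contra h3
    rw [not_le] at h3
    obtain ⟨m, hm⟩ := hM i hi n hn h3
    exact absurd (hmax m) (not_le.2 hm)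
  have hF0 : ∀ i, F i ≠ 0 := by
    intro i h0
    have h1 := hK i
    rw [h0] at h1
    simp only [Polynomial.coeff_zero, norm_zero, Finset.sum_const_zero] at h1
    linarith
  -- normalisation at radius one half
  choose ν hν0 hν using fun i => exists_max_term (hF0 i) (r := 1 / 2) (by norm_num)
  set A : ℕ → ℝ := fun i => ‖(F i).coeff (ν i)‖ * (1 / 2) ^ (ν i) with hA
  set lam : ℕ → ℝ := fun i => max 1 (A i) with hlam
  have hlam1 : ∀ i, 1 ≤ lam i := fun i => le_max_left _ _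
  have hlam0 : ∀ i, 0 < lam i := fun i => one_pos.trans_le (hlam1 i)
  have hAlam : ∀ i, A i ≤ lam i := fun i => le_max_right _ _
  have hbound : ∀ r : ℝ, 1 / 2 ≤ r → r < 1 → ∃ M : ℝ, 0 ≤ M ∧ ∀ᶠ i in atTop, ∀ m,
      ‖(F i).coeff m‖ * r ^ m ≤ M * lam i := by
    intro r hr1 hr2
    have hr0 : 0 < r := by linarith
    obtain ⟨M, hM⟩ := hnb r hr0 hr2
    refine ⟨max M (2 ^ M), le_trans (Nat.cast_nonneg M) (le_max_left _ _), ?_⟩
    filter_upwards [eventually_ge_atTop M] with i hi m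
    obtain ⟨n, hn0, hn⟩ := exists_max_term (hF0 i) hr0
    refine (hn m).trans ?_
    rcases le_or_gt M n with h | h
    · refine (hM i hi n h hn).trans ?_
      have h1 : (M : ℝ) ≤ max (M : ℝ) (2 ^ M) := le_max_left _ _
      have h2 : 0 ≤ max (M : ℝ) (2 ^ M) := le_trans (Nat.cast_nonneg M) h1
      nlinarith [hlam1 i]
    · have h1 : ‖(F i).coeff n‖ * r ^ n = (‖(F i).coeff n‖ * (1 / 2) ^ n) * (2 * r) ^ n := by
        rw [mul_pow, div_pow, one_pow]
        field_simp
      have h2 : (2 * r) ^ n ≤ (2 : ℝ) ^ M := by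
        calc (2 * r) ^ n ≤ 2 ^ n := pow_le_pow_left₀ (by positivity) (by linarith) n
          _ ≤ 2 ^ M := pow_le_pow_right₀ (by norm_num) h.le
      have h3 : ‖(F i).coeff n‖ * (1 / 2) ^ n ≤ lam i := (hν i n).trans (hAlam i)
      rw [h1]
      calc (‖(F i).coeff n‖ * (1 / 2) ^ n) * (2 * r) ^ n ≤ lam i * 2 ^ M :=
            mul_le_mul h3 h2 (by positivity) (hlam0 i).le
        _ ≤ max (M : ℝ) (2 ^ M) * lam i := by
            rw [mul_comm]
            exact mul_le_mul_of_nonneg_right (le_max_right _ _) (hlam0 i).le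
  set g : ℕ → ℕ → ℂ := fun i n => (F i).coeff n / (lam i : ℂ) with hg
  have hgn : ∀ i n, ‖g i n‖ = ‖(F i).coeff n‖ / lam i := fun i n => by
    simp only [hg]
    rw [norm_div, Complex.norm_real, Real.norm_of_nonneg (hlam0 i).le]
  have hg2 : ∀ i n, ‖g i n‖ ≤ 2 ^ n := by
    intro i n
    rw [hgn, div_le_iff₀ (hlam0 i)]
    have h1 := (hν i n).trans (hAlam i)
    have h2 : ‖(F i).coeff n‖ = 2 ^ n * (‖(F i).coeff n‖ * (1 / 2) ^ n) := by
      rw [div_pow, one_pow]
      field_simp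
    rw [h2]
    exact mul_le_mul_of_nonneg_left h1 (by positivity)
  obtain ⟨G, hG⟩ := exists_ultra_limit hg2
  have hmu : ∃ μ : ℝ, Tendsto (fun i => 1 / lam i) (hyperfilter ℕ : Filter ℕ) (𝓝 μ) := by
    obtain ⟨x, -, hx⟩ := (isCompact_Icc (a := (0 : ℝ)) (b := 1)).ultrafilter_le_nhds
      ((hyperfilter ℕ).map fun i => 1 / lam i) (by
        rw [le_principal_iff]
        refine Filter.mem_map.2 (Filter.Eventually.of_forall fun i => ?_)
        refine ⟨by have := hlam0 i; positivity, ?_⟩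
        show 1 / lam i ≤ 1
        rw [div_le_one (hlam0 i)]
        exact hlam1 i)
    exact ⟨x, hx⟩
  obtain ⟨μ, hμ⟩ := hmu
  have hμ0 : 0 ≤ μ := ge_of_tendsto hμ (Eventually.of_forall fun i => by
    have := hlam0 i
    positivity)
  -- bounds for the limit
  have hGr : ∀ r : ℝ, 1 / 2 ≤ r → r < 1 → ∃ M : ℝ, 0 ≤ M ∧
      (∀ᶠ i in (hyperfilter ℕ : Filter ℕ), ∀ m, ‖g i m‖ * r ^ m ≤ M) ∧
      ∀ m, ‖G m‖ * r ^ m ≤ M := by
    intro r hr1 hr2
    obtain ⟨M, hM0, hM⟩ := hbound r hr1 hr2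
    have h1 : ∀ᶠ i in (hyperfilter ℕ : Filter ℕ), ∀ m, ‖g i m‖ * r ^ m ≤ M := by
      refine (hM.filter_mono hyper_le_atTop).mono fun i hi m => ?_
      rw [hgn, div_mul_eq_mul_div, div_le_iff₀ (hlam0 i)]
      exact hi m
    exact ⟨M, hM0, h1, fun m => le_of_tendsto ((hG m).norm.mul_const _) (h1.mono fun i hi => hi m)⟩
  have hr : ∀ z : ℂ, ‖z‖ < 1 → ∃ r : ℝ, 1 / 2 ≤ r ∧ r < 1 ∧ ‖z‖ < r := by
    intro z hz
    obtain ⟨r, h1, h2⟩ := exists_between (max_lt hz (show (1 / 2 : ℝ) < 1 by norm_num))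
    exact ⟨r, (le_max_right _ _).trans h1.le, h2, (le_max_left _ _).trans_lt h1⟩
  have hterm : ∀ (a : ℂ) (M r : ℝ) (z : ℂ) (n : ℕ), 0 < r → ‖a‖ * r ^ n ≤ M →
      ‖a * z ^ n‖ ≤ M * (‖z‖ / r) ^ n := by
    intro a M r z n hr0 h
    rw [norm_mul, norm_pow, div_pow, mul_div_assoc', le_div_iff₀ (by positivity)]
    have : 0 ≤ ‖z‖ ^ n := by positivity
    nlinarith
  have hGc : Conv G := by
    intro z hz
    obtain ⟨r, hr1, hr2, hr3⟩ := hr z hz
    have hr0 : 0 < r := by linarith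
    obtain ⟨M, hM0, -, hM⟩ := hGr r hr1 hr2
    refine Summable.of_norm_bounded (g := fun n => M * (‖z‖ / r) ^ n)
      ((summable_geometric_of_lt_one (by positivity) ((div_lt_one hr0).2 hr3)).mul_left M) fun n => ?_
    exact hterm _ _ _ _ _ hr0 (hM n)
  have hGL : Lac q G := by
    refine ⟨?_, fun m n hmn hm hn => ?_⟩
    · refine tendsto_nhds_unique (hG 0) (tendsto_const_nhds.congr fun i => ?_)
      simp [hg, (hL i).1]
    · have h1 : ∀ k, G k ≠ 0 → ∀ᶠ i in (hyperfilter ℕ : Filter ℕ), (F i).coeff k ≠ 0 := by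
        intro k hk
        refine ((hG k).eventually_ne hk).mono fun i hi h0 => hi ?_
        simp [hg, h0]
      obtain ⟨i, hi1, hi2⟩ := ((h1 m hm).and (h1 n hn)).exists
      exact (hL i).2 m n hmn hi1 hi2
  have hGS : ∀ z ∈ S, ‖ps G z‖ ≤ μ := by
    intro z hz
    have hz1 : ‖z‖ < 1 := mem_ball_zero_iff.1 (hS hz)
    obtain ⟨r, hr1, hr2, hr3⟩ := hr z hz1
    have hr0 : 0 < r := by linarith
    obtain ⟨M, hM0, hM1, hM⟩ := hGr r hr1 hr2
    have h2 : Tendsto (fun i => ps (g i) z) (hyperfilter ℕ : Filter ℕ) (𝓝 (ps G z)) := by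
      refine tendsto_tsum_of_dominated_convergence (bound := fun n => M * (‖z‖ / r) ^ n)
        ((summable_geometric_of_lt_one (by positivity) ((div_lt_one hr0).2 hr3)).mul_left M)
        (fun n => (hG n).mul_const _) (hM1.mono fun i hi n => hterm _ _ _ _ _ hr0 (hi n))
    refine le_of_tendsto_of_tendsto h2.norm hμ ?_
    obtain ⟨i₀, hi₀⟩ := hb ‖z‖ hz1
    have h3 : ∀ᶠ i in atTop, ‖ps (g i) z‖ ≤ 1 / lam i := by
      filter_upwards [eventually_ge_atTop i₀] with i hi
      have h4 : ps (g i) z = (F i).eval z / lam i := by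
        rw [← ps_poly]
        unfold ps
        rw [← tsum_div_const]
        exact tsum_congr fun n => by simp only [hg]; ring
      rw [h4, norm_div, Complex.norm_real, Real.norm_of_nonneg (hlam0 i).le]
      exact div_le_div_of_nonneg_right (hi₀ i hi z hz le_rfl) (hlam0 i).le
    exact hyper_le_atTop h3
  have hsumG : ∀ s : Finset ℕ, ∑ n ∈ s, ‖G n‖ ≤ C * μ := by
    intro s
    refine le_of_forall_pos_le_add fun ε hε => ?_
    have h1 := hU.scaled hGL hGc (fun n hn => absurd hn (Nat.not_lt_zero n)) (M := μ + ε / C)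
      (by positivity) (fun z hz => (hGS z hz).trans (by
        have : 0 < ε / C := by positivity
        linarith)) s
    refine h1.trans (le_of_eq ?_)
    field_simp
  -- the lower bound passes to the limit
  have hlow : (C + 1) * μ ≤ ∑ n ∈ Finset.range (K + 1), ‖G n‖ := by
    have h1 : Tendsto (fun i => ∑ n ∈ Finset.range (K + 1), ‖g i n‖) (hyperfilter ℕ : Filter ℕ)
        (𝓝 (∑ n ∈ Finset.range (K + 1), ‖G n‖)) := by
      apply tendsto_finsetSum
      intro n _
      exact (hG n).norm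
    refine le_of_tendsto_of_tendsto (hμ.const_mul (C + 1)) h1 (Eventually.of_forall fun i => ?_)
    show (C + 1) * (1 / lam i) ≤ ∑ n ∈ Finset.range (K + 1), ‖g i n‖
    have h2 : ∑ n ∈ Finset.range (K + 1), ‖g i n‖ =
        (∑ n ∈ Finset.range (K + 1), ‖(F i).coeff n‖) / lam i := by
      rw [Finset.sum_div]
      exact Finset.sum_congr rfl fun n _ => hgn i n
    rw [h2, mul_one_div]
    exact div_le_div_of_nonneg_right (hK i).le (hlam0 i).le
  have hμz : μ = 0 := by
    have := hsumG (Finset.range (K + 1))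
    nlinarith
  -- contradiction
  obtain ⟨M, hM⟩ := hnb (1 / 2) (by norm_num) (by norm_num)
  have hev : ∀ᶠ i in (hyperfilter ℕ : Filter ℕ), 1 ≤ ∑ n ∈ Finset.range M, ‖g i n‖ := by
    have h1 : ∀ᶠ i in (hyperfilter ℕ : Filter ℕ), 1 / lam i < 1 / ((M : ℝ) + 2) := by
      rw [hμz] at hμ
      exact hμ.eventually (gt_mem_nhds (by positivity))
    have h2 : ∀ᶠ i in (hyperfilter ℕ : Filter ℕ), M ≤ i := hyper_le_atTop (eventually_ge_atTop M)
    filter_upwards [h1, h2] with i hi hiM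
    have h3 : (M : ℝ) + 2 < lam i := (one_div_lt_one_div (hlam0 i) (by positivity)).1 hi
    have hM0 : (0 : ℝ) ≤ M := Nat.cast_nonneg M
    have h4 : lam i = A i := by
      have h5 : lam i = 1 ∨ lam i = A i := by
        simp only [hlam]
        rcases max_choice 1 (A i) with h | h
        · exact Or.inl h
        · exact Or.inr h
      rcases h5 with h | h
      · linarith
      · exact h
    have h5 : ν i < M := by
      by_contra hcon
      rw [not_lt] at hcon
      have h6 := hM i hiM (ν i) hcon (hν i)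
      have h7 : A i ≤ M := h6
      linarith
    have h6 : 1 ≤ ‖g i (ν i)‖ := by
      rw [hgn, le_div_iff₀ (hlam0 i), one_mul, h4]
      simp only [hA]
      have h7 : ((1 : ℝ) / 2) ^ (ν i) ≤ 1 := pow_le_one₀ (by norm_num) (by norm_num)
      nlinarith [norm_nonneg ((F i).coeff (ν i))]
    exact h6.trans (Finset.single_le_sum (f := fun n => ‖g i n‖) (fun n _ => norm_nonneg _)
      (Finset.mem_range.2 h5))
  have h1 : Tendsto (fun i => ∑ n ∈ Finset.range M, ‖g i n‖) (hyperfilter ℕ : Filter ℕ)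
      (𝓝 (∑ n ∈ Finset.range M, ‖G n‖)) := by
    apply tendsto_finsetSum
    intro n _
    exact (hG n).norm
  have h2 : 1 ≤ ∑ n ∈ Finset.range M, ‖G n‖ := ge_of_tendsto h1 hev
  have h3 := hsumG (Finset.range M)
  rw [hμz, mul_zero] at h3
  linarith

end Forcing
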