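import Pool.Agent.Lib.MP_c80ac4_an.Local.Crit

/-! # The local criterion as a moment problem -/

namespace Forcing

open Complex Metric Set MeasureTheory Filter Topology

/-- Local interpolation: for every `K` there is a radius `ρ < 1` such that for every finite
`q`-lacunary set of positive exponents `s` all data of modulus at most one on `s` that vanish beyond
`K` are the moments (exactly) of a finitely supported measure of total variation at most `C` on the
points of `S` of modulus at most `ρ`. -/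
def LocalMoments (q C : ℝ) (S : Set ℂ) : Prop :=
  ∀ K : ℕ, ∃ ρ : ℝ, ρ < 1 ∧ ∀ (s : Finset ℕ) (ε : ℕ → ℂ), LacSet q 1 (s : Set ℕ) →
    (∀ n, ‖ε n‖ ≤ 1) → (∀ n, K < n → ε n = 0) →
    ∃ (T : Finset ℂ) (w : ℂ → ℂ), (∀ z ∈ T, z ∈ S ∧ ‖z‖ ≤ ρ) ∧ ∑ z ∈ T, ‖w z‖ ≤ C ∧
      ∀ n ∈ s, ∑ z ∈ T, w z * z ^ n = ε n

section rep

variable {E : Type*} [AddCommGroup E] [Module ℂ E]

/-- combinations of total mass at most `C` -/
def Rep (A : Set ℂ) (X : ℂ → E) (C : ℝ) (v : E) : Prop :=
  ∃ (T : Finset ℂ) (w : ℂ → ℂ), (∀ z ∈ T, z ∈ A) ∧ ∑ z ∈ T, ‖w z‖ ≤ C ∧ v = ∑ z ∈ T, w z • X z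

theorem Rep.add {A : Set ℂ} {X : ℂ → E} {a b : ℝ} {u v : E} (hu : Rep A X a u) (hv : Rep A X b v) :
    Rep A X (a + b) (u + v) := by
  classical
  obtain ⟨T1, w1, hT1, hw1, rfl⟩ := hu
  obtain ⟨T2, w2, hT2, hw2, rfl⟩ := hv
  refine ⟨T1 ∪ T2, fun z => (if z ∈ T1 then w1 z else 0) + (if z ∈ T2 then w2 z else 0), ?_, ?_, ?_⟩
  · intro z hz
    rcases Finset.mem_union.1 hz with h | h
    · exact hT1 z h
    · exact hT2 z h
  · have h1 : ∀ z ∈ T1 ∪ T2, ‖(if z ∈ T1 then w1 z else 0) + (if z ∈ T2 then w2 z else 0)‖ ≤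
        (if z ∈ T1 then ‖w1 z‖ else 0) + (if z ∈ T2 then ‖w2 z‖ else 0) := by
      intro z _
      refine (norm_add_le _ _).trans (le_of_eq ?_)
      congr 1
      · split_ifs <;> simp
      · split_ifs <;> simp
    refine (Finset.sum_le_sum h1).trans ?_
    rw [Finset.sum_add_distrib, Finset.sum_ite_mem,
      Finset.sum_ite_mem, Finset.union_inter_cancel_left, Finset.union_inter_cancel_right]
    exact add_le_add hw1 hw2
  · have h2 : ∀ z ∈ T1 ∪ T2, ((if z ∈ T1 then w1 z else 0) + (if z ∈ T2 then w2 z else 0)) • X z =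
        (if z ∈ T1 then w1 z • X z else 0) + (if z ∈ T2 then w2 z • X z else 0) := by
      intro z _
      rw [add_smul]
      congr 1
      · split_ifs <;> simp
      · split_ifs <;> simp
    rw [Finset.sum_congr rfl h2, Finset.sum_add_distrib,
      Finset.sum_ite_mem, Finset.sum_ite_mem, Finset.union_inter_cancel_left,
      Finset.union_inter_cancel_right]

theorem Rep.smul {A : Set ℂ} {X : ℂ → E} {a : ℝ} {u : E} (c : ℂ) (hu : Rep A X a u) :
    Rep A X (‖c‖ * a) (c • u) := by
  obtain ⟨T, w, hT, hw, rfl⟩ := hu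
  refine ⟨T, fun z => c * w z, hT, ?_, ?_⟩
  · simp only [norm_mul]
    rw [← Finset.mul_sum]
    exact mul_le_mul_of_nonneg_left hw (norm_nonneg c)
  · rw [Finset.smul_sum]
    exact Finset.sum_congr rfl fun z _ => (mul_smul _ _ _).symm

theorem Rep.mono {A : Set ℂ} {X : ℂ → E} {a b : ℝ} {u : E} (hu : Rep A X a u) (hab : a ≤ b) :
    Rep A X b u := by
  obtain ⟨T, w, hT, hw, h⟩ := hu
  exact ⟨T, w, hT, hw.trans hab, h⟩

end rep

/-- In finite dimension the elements of the span have representations of comparable mass. -/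
theorem exists_rep_bound {ι : Type*} [Fintype ι] (A : Set ℂ) (X : ℂ → (ι → ℂ)) :
    ∃ B : ℝ, 0 < B ∧ ∀ u ∈ Submodule.span ℂ (X '' A), Rep A X (B * ‖u‖) u := by
  classical
  obtain ⟨b, hbX, hbspan, hbli⟩ := exists_linearIndependent ℂ (X '' A)
  have hfin : Finite b := hbli.finite
  have : Fintype b := Fintype.ofFinite b
  choose ζ hζ1 hζ2 using fun v : b => hbX v.2
  have hζinj : Function.Injective ζ := fun v v' h => by
    apply Subtype.ext
    rw [← hζ2 v, ← hζ2 v', h]
  set L : (b → ℂ) →ₗ[ℂ] (ι → ℂ) := Fintype.linearCombination ℂ (fun v : b => (v : ι → ℂ)) with hL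
  have hLinj : LinearMap.ker L = ⊥ := by
    rw [LinearMap.ker_eq_bot]
    exact linearIndependent_iff_injective_fintypeLinearCombination.1 hbli
  obtain ⟨κ, hκ0, hκ⟩ := L.exists_antilipschitzWith hLinj
  have hκ' : ∀ a : b → ℂ, ‖a‖ ≤ κ * ‖L a‖ := fun a => by
    have := hκ.le_mul_dist a 0
    simpa using this
  refine ⟨(Fintype.card b + 1) * κ, by have : (0 : ℝ) < κ := hκ0; positivity, fun u hu => ?_⟩
  rw [← hbspan] at hu
  have hrange : LinearMap.range L = Submodule.span ℂ b := by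
    rw [hL, Fintype.range_linearCombination]
    congr 1
    exact Subtype.range_coe
  rw [← hrange] at hu
  obtain ⟨a, rfl⟩ := hu
  refine ⟨Finset.univ.image ζ, Function.extend ζ a 0, ?_, ?_, ?_⟩
  · intro z hz
    obtain ⟨v, -, rfl⟩ := Finset.mem_image.1 hz
    exact hζ1 v
  · rw [Finset.sum_image fun v _ v' _ h => hζinj h]
    have h1 : ∀ v : b, ‖Function.extend ζ a 0 (ζ v)‖ ≤ κ * ‖L a‖ := fun v => by
      rw [hζinj.extend_apply]
      exact (norm_le_pi_norm a v).trans (hκ' a)
    refine (Finset.sum_le_card_nsmul _ _ _ fun v _ => h1 v).trans ?_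
    rw [nsmul_eq_mul, Finset.card_univ]
    have h2 : 0 ≤ κ * ‖L a‖ := by positivity
    nlinarith
  · rw [Finset.sum_image fun v _ v' _ h => hζinj h, hL, Fintype.linearCombination_apply]
    refine Finset.sum_congr rfl fun v _ => ?_
    rw [hζinj.extend_apply, hζ2]

/-- the local inequality gives exact local interpolation -/
theorem moments_of_ineq {q C : ℝ} {S : Set ℂ} (h : LocalIneq q C S) :
    LocalMoments q (C + 1) S := by
  classical
  have hC0 := h.nonneg
  intro K
  obtain ⟨ρ, hρ, h1⟩ := h K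
  refine ⟨ρ, hρ, fun s ε hs hε hε0 => ?_⟩
  set A : Set ℂ := {z | z ∈ S ∧ ‖z‖ ≤ ρ} with hA
  let X : ℂ → (s → ℂ) := fun z n => z ^ (n : ℕ)
  let Y : s → ℂ := fun n => ε n
  set Cc : Set (s → ℂ) := {v | Rep A X C v} with hCc
  have hconv : Convex ℝ Cc := by
    intro u hu v hv a b ha hb hab
    have h2 := (Rep.smul (a : ℂ) hu).add (Rep.smul (b : ℂ) hv)
    rw [Complex.norm_real, Complex.norm_real, Real.norm_of_nonneg ha, Real.norm_of_nonneg hb,
      ← add_mul, hab, one_mul] at h2
    exact h2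
  have hmem : Y ∈ closure Cc := by
    by_contra hY
    obtain ⟨f, u, hf1, hf2⟩ := RCLike.geometric_hahn_banach_closed_point (𝕜 := ℂ)
      hconv.closure isClosed_closure hY
    have hf3 : ∀ v ∈ Cc, (f v).re < u := fun v hv => hf1 v (subset_closure hv)
    have hu : 0 < u := by
      have h0 : (0 : s → ℂ) ∈ Cc := ⟨∅, 0, by simp, by simp [hC0], by simp⟩
      have := hf3 0 h0
      rw [map_zero] at this
      exact this
    -- the coefficients of the functional
    let a : ℕ → ℂ := fun n => if hn : n ∈ s then f (Pi.single ⟨n, hn⟩ 1) else 0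
    have hfv : ∀ v : s → ℂ, f v = ∑ n : s, v n * a n := by
      intro v
      have h2 : v = ∑ n : s, v n • (Pi.single n (1 : ℂ) : s → ℂ) := by
        funext m
        rw [Finset.sum_apply]
        simp [Pi.single_apply]
      conv_lhs => rw [h2]
      rw [map_sum]
      refine Finset.sum_congr rfl fun n _ => ?_
      rw [map_smul, smul_eq_mul]
      congr 1
      show _ = dite _ _ _
      rw [dif_pos n.2]
    have hfX : ∀ z, f (X z) = ∑ n ∈ s, a n * z ^ n := by
      intro z
      rw [hfv, ← Finset.sum_coe_sort s]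
      exact Finset.sum_congr rfl fun n _ => mul_comm _ _
    have hXA : ∀ z ∈ A, C * ‖f (X z)‖ ≤ u := by
      intro z hz
      obtain ⟨t, ht1, ht2⟩ := dual_phase (f (X z))
      have h2 : ((C : ℂ) * t) • X z ∈ Cc := by
        refine ⟨{z}, fun _ => (C : ℂ) * t, by simpa using hz, ?_, by simp⟩
        rw [Finset.sum_singleton, norm_mul, Complex.norm_real, Real.norm_of_nonneg hC0]
        nlinarith
      have h3 := hf3 _ h2
      rw [map_smul, smul_eq_mul, mul_assoc, ht2] at h3
      rw [← Complex.ofReal_mul, Complex.ofReal_re] at h3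
      exact h3.le
    -- for every m > 0 bounding the functional on A
    have hscale : ∀ m : ℝ, 0 < m → (∀ z ∈ A, ‖f (X z)‖ ≤ m) →
        ∑ n ∈ s with n ≤ K, ‖a n‖ ≤ C * m := by
      intro m hm hb
      have h2 := h1 s (fun n => a n / (m : ℂ)) hs fun z hz hzρ => ?_
      · have h3 : ∑ n ∈ s with n ≤ K, ‖a n / (m : ℂ)‖ = (∑ n ∈ s with n ≤ K, ‖a n‖) / m := by
          rw [Finset.sum_div]
          refine Finset.sum_congr rfl fun n _ => ?_
          rw [norm_div, Complex.norm_real, Real.norm_of_nonneg hm.le]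
        rw [h3, div_le_iff₀ hm] at h2
        exact h2
      · have h3 : ∑ n ∈ s, a n / (m : ℂ) * z ^ n = f (X z) / m := by
          rw [hfX, Finset.sum_div]
          exact Finset.sum_congr rfl fun n _ => by ring
        rw [h3, norm_div, Complex.norm_real, Real.norm_of_nonneg hm.le, div_le_one hm]
        exact hb z ⟨hz, hzρ⟩
    have hsumle : ∑ n ∈ s with n ≤ K, ‖a n‖ ≤ u := by
      rcases hC0.eq_or_lt with h0 | h0
      · -- C = 0: use the inequality with a large constant
        obtain ⟨m, hm0, hm⟩ : ∃ m : ℝ, 0 < m ∧ ∀ z ∈ A, ‖f (X z)‖ ≤ m := by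
          refine ⟨(∑ n ∈ s, ‖a n‖) + 1, by positivity, fun z hz => ?_⟩
          rw [hfX]
          refine (norm_sum_le _ _).trans ?_
          have h2 : ∑ n ∈ s, ‖a n * z ^ n‖ ≤ ∑ n ∈ s, ‖a n‖ := by
            refine Finset.sum_le_sum fun n _ => ?_
            rw [norm_mul, norm_pow]
            have h3 : ‖z‖ ^ n ≤ 1 := pow_le_one₀ (norm_nonneg _) (hz.2.trans hρ.le)
            nlinarith [norm_nonneg (a n)]
          linarith
        have := hscale m hm0 hm
        rw [← h0, zero_mul] at this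
        linarith
      · have h2 := hscale (u / C) (by positivity) fun z hz => by
          rw [le_div_iff₀ h0, mul_comm]
          exact hXA z hz
        rwa [mul_div_cancel₀ _ h0.ne'] at h2
    have hfY : (f Y).re ≤ u := by
      refine (Complex.re_le_norm _).trans ?_
      rw [hfv]
      refine (norm_sum_le _ _).trans (le_trans ?_ hsumle)
      have h2 : ∑ n : s, ‖Y n * a n‖ = ∑ n ∈ s, ‖ε n * a n‖ :=
        Finset.sum_coe_sort s fun n => ‖ε n * a n‖
      rw [h2, Finset.sum_filter]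
      refine Finset.sum_le_sum fun n _ => ?_
      split_ifs with hn
      · rw [norm_mul]
        nlinarith [hε n, norm_nonneg (a n)]
      · rw [hε0 n (not_le.1 hn), zero_mul, norm_zero]
    exact absurd hf2 (not_lt.2 hfY)
  -- exactness
  obtain ⟨B, hB0, hB⟩ := exists_rep_bound A X
  set W := Submodule.span ℂ (X '' A) with hW
  have hCW : Cc ⊆ W := by
    rintro v ⟨T, w, hT, -, rfl⟩
    exact Submodule.sum_mem _ fun z hz =>
      Submodule.smul_mem _ _ (Submodule.subset_span ⟨z, hT z hz, rfl⟩)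
  have hYW : Y ∈ W := by
    have h2 : closure Cc ⊆ (W : Set (s → ℂ)) :=
      closure_minimal hCW (Submodule.closed_of_finiteDimensional W)
    exact h2 hmem
  obtain ⟨v, hv, hdist⟩ := Metric.mem_closure_iff.1 hmem (1 / B) (by positivity)
  have h2 := hB (Y - v) (Submodule.sub_mem _ hYW (hCW hv))
  have h3 : B * ‖Y - v‖ ≤ 1 := by
    rw [dist_eq_norm, lt_div_iff₀ hB0] at hdist
    linarith
  have h4 := hv.add (h2.mono h3)
  rw [add_sub_cancel] at h4
  obtain ⟨T, w, hT, hw, hY⟩ := h4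
  refine ⟨T, w, hT, hw, fun n hn => ?_⟩
  have h5 := congrFun hY ⟨n, hn⟩
  rw [Finset.sum_apply] at h5
  exact h5.symm

/-- local interpolation gives the local inequality -/
theorem ineq_of_moments {q C : ℝ} {S : Set ℂ} (h : LocalMoments q C S) : LocalIneq q C S := by
  classical
  intro K
  obtain ⟨ρ, hρ, h1⟩ := h K
  refine ⟨ρ, hρ, fun s c hs hb => ?_⟩
  choose t ht1 ht2 using fun n => dual_phase (c n)
  obtain ⟨T, w, hT, hw, hm⟩ := h1 s (fun n => if n ≤ K then t n else 0) hs
    (fun n => by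
      show ‖(if n ≤ K then t n else 0 : ℂ)‖ ≤ 1
      split_ifs
      · exact ht1 n
      · simp) (fun n hn => if_neg (not_le.2 hn))
  have h2 : ((∑ n ∈ s with n ≤ K, ‖c n‖ : ℝ) : ℂ) = ∑ z ∈ T, w z * ∑ n ∈ s, c n * z ^ n := by
    have h3 : ∑ z ∈ T, w z * ∑ n ∈ s, c n * z ^ n = ∑ n ∈ s, c n * ∑ z ∈ T, w z * z ^ n := by
      simp only [Finset.mul_sum]
      rw [Finset.sum_comm]
      refine Finset.sum_congr rfl fun n _ => Finset.sum_congr rfl fun z _ => ?_
      ring
    rw [h3, Finset.sum_filter]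
    push_cast
    refine Finset.sum_congr rfl fun n hn => ?_
    rw [hm n hn]
    split_ifs
    · rw [mul_comm, ht2]
    · simp
  have h3 : ∑ n ∈ s with n ≤ K, ‖c n‖ = ‖((∑ n ∈ s with n ≤ K, ‖c n‖ : ℝ) : ℂ)‖ := by
    rw [Complex.norm_real, Real.norm_of_nonneg (Finset.sum_nonneg fun n _ => norm_nonneg _)]
  rw [h3, h2]
  refine (norm_sum_le _ _).trans (le_trans (Finset.sum_le_sum fun z hz => ?_) hw)
  rw [norm_mul]
  have h4 := hb z (hT z hz).1 (hT z hz).2
  nlinarith [norm_nonneg (w z)]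

/-- **The local criterion, moment form.** -/
theorem isForcing_iff_moments {S : Set ℂ} (hS : S ⊆ ball 0 1) :
    IsForcing S ↔ ∀ q : ℝ, 1 < q → ∃ C : ℝ, LocalMoments q C S := by
  rw [isForcing_iff_local hS]
  constructor
  · intro h q hq
    obtain ⟨C, hC⟩ := h q hq
    exact ⟨C + 1, moments_of_ineq hC⟩
  · intro h q hq
    obtain ⟨C, hC⟩ := h q hq
    exact ⟨C, ineq_of_moments hC⟩

end Forcing
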