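import Pool.Agent.Lib.MP_c80ac4_an.Local.ThinEx

/-! # No single ratio decides whether a set is forcing -/

namespace Forcing

namespace Ratio

open Complex Metric Set Filter Topology

/-- the character of the circle -/
noncomputable def e (x : ℝ) : ℂ := Complex.exp (((2 * Real.pi * x : ℝ) : ℂ) * Complex.I)

theorem norm_e (x : ℝ) : ‖e x‖ = 1 := Complex.norm_exp_ofReal_mul_I _

theorem e_add (x y : ℝ) : e (x + y) = e x * e y := by
  unfold e
  rw [← Complex.exp_add]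
  congr 1
  push_cast
  ring

theorem e_pow (n : ℕ) (x : ℝ) : e x ^ n = e (n * x) := by
  unfold e
  rw [← Complex.exp_nat_mul]
  congr 1
  push_cast
  ring

theorem e_nat (n : ℕ) : e n = 1 := by
  unfold e
  rw [Complex.exp_eq_one_iff]
  exact ⟨n, by push_cast; ring⟩

theorem e_int (n : ℤ) : e n = 1 := by
  unfold e
  rw [Complex.exp_eq_one_iff]
  exact ⟨n, by push_cast; ring⟩

theorem e_sub_le (x y : ℝ) : ‖e x - e y‖ ≤ 2 * Real.pi * |x - y| := by
  have h1 : e x = e y * e (x - y) := by rw [← e_add]; congr 1; ring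
  have h2 : e x - e y = e y * (e (x - y) - 1) := by rw [h1]; ring
  rw [h2, norm_mul, norm_e, one_mul]
  unfold e
  have h3 := Real.norm_exp_I_mul_ofReal_sub_one_le (x := 2 * Real.pi * (x - y))
  rw [mul_comm (Complex.I)] at h3
  refine h3.trans (le_of_eq ?_)
  rw [Real.norm_eq_abs, abs_mul, abs_of_pos Real.two_pi_pos]

/-- the partial sums of the function that is bounded on the set -/
noncomputable def S (b k : ℕ) (z : ℂ) : ℂ := ∑ i ∈ Finset.range k, z ^ (b ^ i)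

theorem S_succ (b k : ℕ) (z : ℂ) : S b (k + 1) z = S b k z + z ^ (b ^ k) :=
  Finset.sum_range_succ _ _

theorem geom_le {b : ℕ} (hb : 64 ≤ b) (k : ℕ) :
    ∑ i ∈ Finset.range k, (b : ℝ) ^ i ≤ (b : ℝ) ^ k / 63 := by
  have hb' : (64 : ℝ) ≤ b := by exact_mod_cast hb
  induction k with
  | zero => simp
  | succ k ih =>
    rw [Finset.sum_range_succ, pow_succ]
    have : 0 < (b : ℝ) ^ k := by positivity
    nlinarith

theorem S_close {b : ℕ} (hb : 64 ≤ b) {k t : ℕ} (hkt : k ≤ t) {x y : ℝ}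
    (hxy : |x - y| ≤ 1 / (b : ℝ) ^ t) : ‖S b k (e x) - S b k (e y)‖ ≤ 1 / 10 := by
  have hb' : (64 : ℝ) ≤ b := by exact_mod_cast hb
  have h1 : ‖S b k (e x) - S b k (e y)‖ ≤
      ∑ i ∈ Finset.range k, 2 * Real.pi * ((b : ℝ) ^ i * |x - y|) := by
    unfold S
    rw [← Finset.sum_sub_distrib]
    refine (norm_sum_le _ _).trans (Finset.sum_le_sum fun i _ => ?_)
    rw [e_pow, e_pow]
    refine (e_sub_le _ _).trans (le_of_eq ?_)
    rw [← mul_sub, abs_mul]
    push_cast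
    rw [abs_of_nonneg (by positivity : (0 : ℝ) ≤ (b : ℝ) ^ i)]
  refine h1.trans ?_
  rw [← Finset.mul_sum, ← Finset.sum_mul]
  have h2 := geom_le hb k
  have h3 : (b : ℝ) ^ k ≤ (b : ℝ) ^ t := pow_le_pow_right₀ (by linarith) hkt
  have h4 : 0 < (b : ℝ) ^ t := by positivity
  have h5 : (∑ i ∈ Finset.range k, (b : ℝ) ^ i) * |x - y| ≤ 1 / 63 := by
    calc (∑ i ∈ Finset.range k, (b : ℝ) ^ i) * |x - y| ≤ ((b : ℝ) ^ t / 63) * (1 / (b : ℝ) ^ t) :=
          mul_le_mul (h2.trans (by linarith)) hxy (abs_nonneg _) (by positivity)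
      _ = 1 / 63 := by field_simp
  have h6 := Real.pi_lt_d2
  have h7 := Real.pi_pos
  calc 2 * Real.pi * ((∑ i ∈ Finset.range k, (b : ℝ) ^ i) * |x - y|) ≤ 2 * Real.pi * (1 / 63) := by
        gcongr
    _ ≤ 1 / 10 := by linarith

/-- The cylinder `m` of level `t` is good: on it the partial sums of order at most `t` are at most
eight and the powers in `s` are where we want them; the current partial sum is at most `R`. -/
structure Good (b : ℕ) (α : ℕ → ℂ) (s : Finset ℕ) (t m : ℕ) (R : ℝ) : Prop where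
  sums : ∀ x : ℝ, (m : ℝ) / (b : ℝ) ^ t ≤ x → x ≤ ((m : ℝ) + 1) / (b : ℝ) ^ t → ∀ k ≤ t,
    ‖S b k (e x)‖ ≤ 8
  ctrl : ∀ x : ℝ, (m : ℝ) / (b : ℝ) ^ t ≤ x → x ≤ ((m : ℝ) + 1) / (b : ℝ) ^ t → ∀ n ∈ s,
    ‖e x ^ n - α n‖ ≤ 1 / 4
  cur : ‖S b t (e ((m : ℝ) / (b : ℝ) ^ t))‖ ≤ R

theorem sub_cyl {b t m d : ℕ} (hb : 64 ≤ b) (hd : d < b) :
    (m : ℝ) / (b : ℝ) ^ t ≤ ((b * m + d : ℕ) : ℝ) / (b : ℝ) ^ (t + 1) ∧
    (((b * m + d : ℕ) : ℝ) + 1) / (b : ℝ) ^ (t + 1) ≤ ((m : ℝ) + 1) / (b : ℝ) ^ t := by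
  have hb' : (64 : ℝ) ≤ b := by exact_mod_cast hb
  have hd' : (d : ℝ) + 1 ≤ b := by exact_mod_cast hd
  have h0 : 0 < (b : ℝ) ^ t := by positivity
  have hd0 : (0 : ℝ) ≤ d := Nat.cast_nonneg _
  constructor
  · rw [div_le_div_iff₀ h0 (by positivity), pow_succ]
    push_cast
    nlinarith [mul_nonneg hd0 h0.le]
  · rw [div_le_div_iff₀ (by positivity) h0, pow_succ]
    push_cast
    nlinarith [mul_le_mul_of_nonneg_right hd' h0.le]

theorem Good.step {b : ℕ} (hb : 64 ≤ b) {α : ℕ → ℂ} {s : Finset ℕ} {t m : ℕ} {R : ℝ}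
    (h : Good b α s t m R) {d : ℕ} (hd : d < b) {R' : ℝ}
    (hR : ‖S b t (e ((m : ℝ) / (b : ℝ) ^ t)) + e ((d : ℝ) / b)‖ ≤ R') (hR' : R' + 1 / 5 ≤ 8) :
    Good b α s (t + 1) (b * m + d) (R' + 1 / 10) := by
  have hb' : (64 : ℝ) ≤ b := by exact_mod_cast hb
  have hb0 : (b : ℝ) ≠ 0 := by positivity
  obtain ⟨h1, h2⟩ := sub_cyl (t := t) (m := m) hb hd
  set y' : ℝ := ((b * m + d : ℕ) : ℝ) / (b : ℝ) ^ (t + 1) with hy'
  set y : ℝ := (m : ℝ) / (b : ℝ) ^ t with hy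
  have h0 : 0 < (b : ℝ) ^ t := by positivity
  have hlen : ((m : ℝ) + 1) / (b : ℝ) ^ t = y + 1 / (b : ℝ) ^ t := by rw [hy]; ring
  have hlen' : (((b * m + d : ℕ) : ℝ) + 1) / (b : ℝ) ^ (t + 1) = y' + 1 / (b : ℝ) ^ (t + 1) := by
    rw [hy']; ring
  have hpos' : 0 < 1 / (b : ℝ) ^ (t + 1) := by positivity
  have hyy : |y' - y| ≤ 1 / (b : ℝ) ^ t := by
    rw [abs_of_nonneg (by linarith)]
    rw [hlen, hlen'] at h2
    linarith
  have hlast : e y' ^ (b ^ t) = e ((d : ℝ) / b) := by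
    rw [e_pow]
    have : ((b ^ t : ℕ) : ℝ) * y' = (m : ℝ) + (d : ℝ) / b := by
      rw [hy', pow_succ]
      push_cast
      field_simp
    rw [this, e_add, e_nat, one_mul]
  have hcur : ‖S b (t + 1) (e y')‖ ≤ R' + 1 / 10 := by
    rw [S_succ, hlast]
    have h3 := S_close hb le_rfl hyy
    have h4 : S b t (e y') + e ((d : ℝ) / b) =
        (S b t (e y) + e ((d : ℝ) / b)) + (S b t (e y') - S b t (e y)) := by ring
    rw [h4]
    exact (norm_add_le _ _).trans (add_le_add hR h3)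
  refine ⟨fun x hx1 hx2 k hk => ?_, fun x hx1 hx2 n hn => ?_, hcur⟩
  · rcases Nat.lt_or_ge k (t + 1) with hk1 | hk1
    · exact h.sums x (h1.trans hx1) (hx2.trans h2) k (by omega)
    · have hk2 : k = t + 1 := by omega
      subst hk2
      have h5 : |x - y'| ≤ 1 / (b : ℝ) ^ (t + 1) := by
        rw [abs_of_nonneg (by linarith)]
        rw [hlen'] at hx2
        linarith
      have h6 := S_close hb (le_refl (t + 1)) h5
      have h7 : S b (t + 1) (e x) = S b (t + 1) (e y') + (S b (t + 1) (e x) - S b (t + 1) (e y')) := by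
        ring
      rw [h7]
      refine (norm_add_le _ _).trans ?_
      linarith
  · exact h.ctrl x (h1.trans hx1) (hx2.trans h2) n hn

theorem Good.mono {b : ℕ} {α : ℕ → ℂ} {s : Finset ℕ} {t m : ℕ} {R R' : ℝ}
    (h : Good b α s t m R) (hR : R ≤ R') : Good b α s t m R' :=
  ⟨h.sums, h.ctrl, h.cur.trans hR⟩

/-- An arbitrary digit. -/
theorem Good.any {b : ℕ} (hb : 64 ≤ b) {α : ℕ → ℂ} {s : Finset ℕ} {t m : ℕ} {R : ℝ}
    (h : Good b α s t m R) {d : ℕ} (hd : d < b) (hR : R ≤ 6) :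
    Good b α s (t + 1) (b * m + d) (R + 11 / 10) := by
  have h1 : ‖S b t (e ((m : ℝ) / (b : ℝ) ^ t)) + e ((d : ℝ) / b)‖ ≤ R + 1 := by
    refine (norm_add_le _ _).trans ?_
    rw [norm_e]
    linarith [h.cur]
  exact (h.step hb hd h1 (by linarith)).mono (by linarith)

theorem four_dir (w : ℂ) : ∃ a : ℕ, a < 4 ∧ ‖w + e ((a : ℝ) / 4)‖ ≤ max (3 / 2) (‖w‖ - 2 / 5) := by
  have e0 : e ((0 : ℕ) / 4 : ℝ) = 1 := by unfold e; simp
  have e1 : e ((1 : ℕ) / 4 : ℝ) = Complex.I := by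
    unfold e
    have : ((2 * Real.pi * ((1 : ℕ) / 4 : ℝ) : ℝ) : ℂ) * Complex.I = Real.pi / 2 * Complex.I := by
      push_cast; ring
    rw [this, Complex.exp_pi_div_two_mul_I]
  have e2 : e ((2 : ℕ) / 4 : ℝ) = -1 := by
    unfold e
    have : ((2 * Real.pi * ((2 : ℕ) / 4 : ℝ) : ℝ) : ℂ) * Complex.I = Real.pi * Complex.I := by
      push_cast; ring
    rw [this, Complex.exp_pi_mul_I]
  have e3 : e ((3 : ℕ) / 4 : ℝ) = -Complex.I := by
    have : ((3 : ℕ) / 4 : ℝ) = ((2 : ℕ) / 4 : ℝ) + ((1 : ℕ) / 4 : ℝ) := by norm_num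
    rw [this, e_add, e2, e1]
    ring
  have hw2 : ‖w‖ ^ 2 = w.re ^ 2 + w.im ^ 2 := by
    rw [Complex.sq_norm, Complex.normSq_apply]; ring
  have hw0 : 0 ≤ ‖w‖ := norm_nonneg _
  -- the final estimate
  have fin : ∀ v : ℂ, ‖v‖ ^ 2 ≤ ‖w‖ ^ 2 - 7 / 5 * ‖w‖ + 1 → ‖v‖ ≤ max (3 / 2) (‖w‖ - 2 / 5) := by
    intro v hv
    rcases le_total ‖w‖ 2 with h | h
    · refine le_max_of_le_left (abs_le_of_sq_le_sq' ?_ (by norm_num)).2
      nlinarith
    · refine le_max_of_le_right (abs_le_of_sq_le_sq' ?_ (by linarith)).2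
      nlinarith
  have hv : ∀ v : ℂ, ‖v‖ ^ 2 = v.re ^ 2 + v.im ^ 2 := fun v => by
    rw [Complex.sq_norm, Complex.normSq_apply]; ring
  rcases le_total |w.im| |w.re| with h | h
  · have hr : 7 / 10 * ‖w‖ ≤ |w.re| := by
      refine (abs_le_of_sq_le_sq' ?_ (abs_nonneg _)).2
      have : w.im ^ 2 ≤ w.re ^ 2 := sq_le_sq.2 h
      rw [mul_pow, hw2, sq_abs]
      nlinarith [sq_nonneg w.re]
    rcases le_total 0 w.re with h0 | h0
    · rw [abs_of_nonneg h0] at hr
      refine ⟨2, by norm_num, ?_⟩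
      rw [e2]
      refine fin _ ?_
      rw [hv, hw2]
      simp only [Complex.add_re, Complex.add_im, Complex.neg_re, Complex.neg_im, Complex.one_re,
        Complex.one_im]
      nlinarith
    · rw [abs_of_nonpos h0] at hr
      refine ⟨0, by norm_num, ?_⟩
      rw [e0]
      refine fin _ ?_
      rw [hv, hw2]
      simp only [Complex.add_re, Complex.add_im, Complex.one_re, Complex.one_im]
      nlinarith
  · have hr : 7 / 10 * ‖w‖ ≤ |w.im| := by
      refine (abs_le_of_sq_le_sq' ?_ (abs_nonneg _)).2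
      have : w.re ^ 2 ≤ w.im ^ 2 := sq_le_sq.2 h
      rw [mul_pow, hw2, sq_abs]
      nlinarith [sq_nonneg w.im]
    rcases le_total 0 w.im with h0 | h0
    · rw [abs_of_nonneg h0] at hr
      refine ⟨3, by norm_num, ?_⟩
      rw [e3]
      refine fin _ ?_
      rw [hv, hw2]
      simp only [Complex.add_re, Complex.add_im, Complex.neg_re, Complex.neg_im, Complex.I_re,
        Complex.I_im]
      nlinarith
    · rw [abs_of_nonpos h0] at hr
      refine ⟨1, by norm_num, ?_⟩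
      rw [e1]
      refine fin _ ?_
      rw [hv, hw2]
      simp only [Complex.add_re, Complex.add_im, Complex.I_re, Complex.I_im]
      nlinarith

/-- A well chosen digit. -/
theorem Good.free {b j : ℕ} (hbj : b = 4 * j) (hb : 64 ≤ b) {α : ℕ → ℂ} {s : Finset ℕ} {t m : ℕ}
    {R : ℝ} (h : Good b α s t m R) (hR : R ≤ 8) :
    ∃ m' : ℕ, Good b α s (t + 1) m' (max (8 / 5) (R - 3 / 10)) := by
  obtain ⟨a, ha, h1⟩ := four_dir (S b t (e ((m : ℝ) / (b : ℝ) ^ t)))
  have hj : (j : ℝ) ≠ 0 := by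
    have : j ≠ 0 := by omega
    exact_mod_cast this
  have h2 : (((a * j : ℕ) : ℝ) / b) = (a : ℝ) / 4 := by
    rw [hbj]
    push_cast
    field_simp
  have hd : a * j < b := by rw [hbj]; nlinarith [show 0 < j by omega]
  refine ⟨_, (h.step hb hd (R' := max (3 / 2) (R - 2 / 5)) ?_ ?_).mono ?_⟩
  · rw [h2]
    exact h1.trans (max_le_max le_rfl (by linarith [h.cur]))
  · have : max (3 / 2) (R - 2 / 5) ≤ 39 / 5 := max_le (by norm_num) (by linarith)
    linarith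
  · rcases le_total (3 / 2) (R - 2 / 5) with h3 | h3
    · rw [max_eq_right h3]
      exact le_max_of_le_right (by linarith)
    · rw [max_eq_left h3]
      exact le_max_of_le_left (by norm_num)

theorem Good.freeN {b j : ℕ} (hbj : b = 4 * j) (hb : 64 ≤ b) {α : ℕ → ℂ} {s : Finset ℕ} {t m : ℕ}
    {R : ℝ} (h : Good b α s t m R) (hR : R ≤ 8) (i : ℕ) :
    ∃ m' : ℕ, Good b α s (t + i) m' (max (8 / 5) (R - 3 / 10 * i)) := by
  induction i with
  | zero => exact ⟨m, h.mono (le_max_of_le_right (by simp))⟩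
  | succ i ih =>
    obtain ⟨m', h1⟩ := ih
    have hi : (0 : ℝ) ≤ i := Nat.cast_nonneg _
    obtain ⟨m'', h2⟩ := h1.free hbj hb (max_le (by norm_num) (by linarith))
    refine ⟨m'', h2.mono ?_⟩
    refine max_le (le_max_left _ _) ?_
    rcases le_total (8 / 5) (R - 3 / 10 * i) with h3 | h3
    · rw [max_eq_right h3]
      refine le_max_of_le_right ?_
      push_cast
      linarith
    · rw [max_eq_left h3]
      exact le_max_of_le_left (by norm_num)

/-- a point of a long cylinder where the power `n` is where we want it -/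
theorem exists_pt {b n t m : ℕ} (hb : 64 ≤ b) (hn : b ^ t ≤ n) {α : ℂ} (hα : ‖α‖ = 1) :
    ∃ x : ℝ, (m : ℝ) / (b : ℝ) ^ t ≤ x ∧ x < ((m : ℝ) + 1) / (b : ℝ) ^ t ∧ e x ^ n = α := by
  have hb' : (64 : ℝ) ≤ b := by exact_mod_cast hb
  have h0 : 0 < (b : ℝ) ^ t := by positivity
  have hn' : (b : ℝ) ^ t ≤ n := by exact_mod_cast hn
  have hn0 : (0 : ℝ) < n := h0.trans_le hn'
  set θ : ℝ := Complex.arg α / (2 * Real.pi) with hθ
  have hθ1 : e θ = α := by
    unfold e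
    have h1 : 2 * Real.pi * θ = Complex.arg α := by
      rw [hθ]
      field_simp
    rw [h1]
    have h2 := Complex.norm_mul_exp_arg_mul_I α
    rwa [hα, Complex.ofReal_one, one_mul] at h2
  set y : ℝ := (m : ℝ) / (b : ℝ) ^ t with hy
  set l : ℤ := ⌈(n : ℝ) * y - θ⌉ with hl
  have hl1 : (n : ℝ) * y - θ ≤ l := Int.le_ceil _
  have hl2 : (l : ℝ) < (n : ℝ) * y - θ + 1 := Int.ceil_lt_add_one _
  refine ⟨(θ + l) / n, ?_, ?_, ?_⟩
  · rw [le_div_iff₀ hn0]
    linarith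
  · have h3 : ((m : ℝ) + 1) / (b : ℝ) ^ t = y + 1 / (b : ℝ) ^ t := by rw [hy]; ring
    have h4 : 1 / (n : ℝ) ≤ 1 / (b : ℝ) ^ t := one_div_le_one_div_of_le h0 hn'
    have h5 : (θ + l) / n < y + 1 / n := by
      rw [div_lt_iff₀ hn0, add_mul, one_div_mul_cancel hn0.ne']
      linarith
    linarith
  · rw [e_pow, mul_div_cancel₀ _ hn0.ne', e_add, e_int, mul_one, hθ1]

/-- **Steering.** -/
theorem steer {b j : ℕ} (hbj : b = 4 * j) (hb : 64 ≤ b) {α : ℕ → ℂ} (hα : ∀ n, ‖α n‖ = 1)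
    (s : Finset ℕ) :
    LacSet ((b : ℝ) ^ 10) 1 (s : Set ℕ) → ∀ t : ℕ, (∀ n ∈ s, Nat.log b n + 10 ≤ t) →
      ∃ m : ℕ, Good b α s t m 2 := by
  have hb' : (64 : ℝ) ≤ b := by exact_mod_cast hb
  induction s using Finset.induction_on_max with
  | empty =>
    intro _ t _
    have h0 : Good b α ∅ 0 0 0 := by
      refine ⟨fun x _ _ k hk => ?_, fun x _ _ n hn => by simp at hn, by simp [S]⟩
      have : k = 0 := by omega
      subst this
      simp [S]
    obtain ⟨m, hm⟩ := h0.freeN hbj hb (by norm_num) t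
    refine ⟨m, ?_⟩
    rw [zero_add] at hm
    refine hm.mono (max_le (by norm_num) ?_)
    have : (0 : ℝ) ≤ t := Nat.cast_nonneg _
    linarith
  | insert a s hs ih =>
    intro hL t ht
    have ha1 : 1 ≤ a := (hL.1 a (by simp)).1
    set κ : ℕ := Nat.log b a with hκ
    have hκ1 : b ^ κ ≤ a := Nat.pow_log_le_self b (by omega)
    have hκ2 : a < b ^ (κ + 1) := Nat.lt_pow_succ_log_self (by omega) a
    obtain ⟨m, hm⟩ := ih (hL.mono le_rfl (by
      intro n hn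
      simp only [Finset.coe_insert, Set.mem_insert_iff]
      exact Or.inr hn)) κ (fun n hn => by
        have h1 : (b : ℝ) ^ 10 * n ≤ a := hL.2 n (by simp [hn]) a (by simp) (hs n hn)
        have h2 : b ^ 10 * n ≤ a := by exact_mod_cast h1
        have hn1 : 1 ≤ n := (hL.1 n (by simp [hn])).1
        have h3 : b ^ (Nat.log b n + 10) ≤ a := by
          refine le_trans ?_ h2
          rw [pow_add, mul_comm]
          exact Nat.mul_le_mul_left _ (Nat.pow_log_le_self b (by omega))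
        exact (Nat.le_log_iff_pow_le (by omega) (by omega)).2 h3)
    obtain ⟨x0, hx1, hx2, hx3⟩ := exists_pt (m := m) hb hκ1 (hα a)
    have h0 : 0 < (b : ℝ) ^ κ := by positivity
    have h00 : 0 < (b : ℝ) ^ (κ + 2) := by positivity
    have hx0 : 0 ≤ x0 := le_trans (by positivity) hx1
    set m2 : ℕ := ⌊(b : ℝ) ^ (κ + 2) * x0⌋₊ with hm2
    have hf1 : (m2 : ℝ) ≤ (b : ℝ) ^ (κ + 2) * x0 := Nat.floor_le (by positivity)
    have hf2 : (b : ℝ) ^ (κ + 2) * x0 < m2 + 1 := Nat.lt_floor_add_one _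
    have hlow : b ^ 2 * m ≤ m2 := by
      rw [hm2, Nat.le_floor_iff (by positivity)]
      rw [div_le_iff₀ h0] at hx1
      push_cast
      rw [pow_add]
      nlinarith [mul_le_mul_of_nonneg_left hx1 (by positivity : (0 : ℝ) ≤ (b : ℝ) ^ 2)]
    have hupp : m2 < b ^ 2 * (m + 1) := by
      rw [hm2, Nat.floor_lt (by positivity)]
      rw [lt_div_iff₀ h0] at hx2
      push_cast
      rw [pow_add]
      nlinarith [mul_lt_mul_of_pos_left hx2 (by positivity : (0 : ℝ) < (b : ℝ) ^ 2)]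
    obtain ⟨r, hr⟩ := Nat.exists_eq_add_of_le hlow
    have hrb : r < b * b := by
      have : b ^ 2 * m + r < b ^ 2 * (m + 1) := by omega
      rw [mul_add, mul_one] at this
      have h5 : r < b ^ 2 := by omega
      rwa [pow_two] at h5
    have hd1 : r / b < b := Nat.div_lt_of_lt_mul hrb
    have hd2 : r % b < b := Nat.mod_lt _ (by omega)
    have hm2eq : b * (b * m + r / b) + r % b = m2 := by
      rw [hr, mul_add, pow_two]
      have := Nat.div_add_mod r b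
      rw [mul_assoc]
      omega
    have hg1 := hm.any hb hd1 (by norm_num)
    have hg2 := hg1.any hb hd2 (by norm_num)
    rw [hm2eq] at hg2
    -- the new power is controlled on the cylinder of level `κ + 2`
    have hg3 : Good b α (insert a s) (κ + 2) m2 (21 / 5) := by
      refine ⟨hg2.sums, fun x hx hx' n hn => ?_, hg2.cur.trans (by norm_num)⟩
      rcases Finset.mem_insert.1 hn with rfl | hn
      · rw [← hx3, e_pow, e_pow]
        refine (e_sub_le _ _).trans ?_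
        rw [← mul_sub, abs_mul, abs_of_nonneg (Nat.cast_nonneg n : (0 : ℝ) ≤ n)]
        have hlen : ((m2 : ℝ) + 1) / (b : ℝ) ^ (κ + 2) =
            (m2 : ℝ) / (b : ℝ) ^ (κ + 2) + 1 / (b : ℝ) ^ (κ + 2) := by ring
        rw [hlen] at hx'
        have h6 : |x - x0| ≤ 1 / (b : ℝ) ^ (κ + 2) := by
          have h7 : (m2 : ℝ) / (b : ℝ) ^ (κ + 2) ≤ x0 := by
            rw [div_le_iff₀ h00]; linarith
          have h8 : x0 ≤ (m2 : ℝ) / (b : ℝ) ^ (κ + 2) + 1 / (b : ℝ) ^ (κ + 2) := by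
            rw [← add_div, le_div_iff₀ h00]; linarith
          rw [abs_le]
          constructor <;> linarith
        have h9 : (n : ℝ) ≤ (b : ℝ) ^ (κ + 1) := by exact_mod_cast hκ2.le
        have h10 : (n : ℝ) * |x - x0| ≤ 1 / b := by
          calc (n : ℝ) * |x - x0| ≤ (b : ℝ) ^ (κ + 1) * (1 / (b : ℝ) ^ (κ + 2)) :=
                mul_le_mul h9 h6 (abs_nonneg _) (by positivity)
            _ = 1 / b := by
                rw [pow_succ (b : ℝ) (κ + 1)]
                field_simp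
        have h11 : 1 / (b : ℝ) ≤ 1 / 64 := one_div_le_one_div_of_le (by norm_num) hb'
        have h12 := Real.pi_lt_d2
        have h13 := Real.pi_pos
        calc 2 * Real.pi * ((n : ℝ) * |x - x0|) ≤ 2 * Real.pi * (1 / 64) := by
              gcongr
              exact h10.trans h11
          _ ≤ 1 / 4 := by linarith
      · exact hg2.ctrl x hx hx' n hn
    have ht' : κ + 10 ≤ t := ht a (by simp)
    obtain ⟨i, hi⟩ := Nat.exists_eq_add_of_le (show κ + 2 ≤ t by omega)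
    obtain ⟨m', hm'⟩ := hg3.freeN hbj hb (by norm_num) i
    rw [← hi] at hm'
    refine ⟨m', hm'.mono (max_le (by norm_num) ?_)⟩
    have : (8 : ℝ) ≤ i := by
      have : 8 ≤ i := by omega
      exact_mod_cast this
    linarith

/-- The set where the partial sums are at most eight. -/
def E (b : ℕ) : Set ℂ := {z | ‖z‖ = 1 ∧ ∀ k, ‖S b k z‖ ≤ 8}

theorem exists_mem_E {b j : ℕ} (hbj : b = 4 * j) (hb : 64 ≤ b) {α : ℕ → ℂ} (hα : ∀ n, ‖α n‖ = 1)
    (s : Finset ℕ) (hs : LacSet ((b : ℝ) ^ 10) 1 (s : Set ℕ)) :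
    ∃ z ∈ E b, ∀ n ∈ s, ‖z ^ n - α n‖ ≤ 1 / 4 := by
  set t0 : ℕ := s.sup (fun n => Nat.log b n) + 10 with ht0
  set F : ℕ → Set ℂ := fun T => {z | ‖z‖ = 1 ∧ (∀ k ≤ T, ‖S b k z‖ ≤ 8) ∧
    ∀ n ∈ s, ‖z ^ n - α n‖ ≤ 1 / 4} with hF
  have hcont : ∀ k, Continuous fun z : ℂ => ‖S b k z‖ := fun k => by
    unfold S
    fun_prop
  have hclosed : ∀ T, IsClosed (F T) := by
    intro T
    have : F T = {z | ‖z‖ = 1} ∩ ((⋂ k, ⋂ _ : k ≤ T, {z | ‖S b k z‖ ≤ 8}) ∩
        ⋂ n ∈ s, {z | ‖z ^ n - α n‖ ≤ 1 / 4}) := by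
      ext z
      simp [hF]
    rw [this]
    refine (isClosed_eq continuous_norm continuous_const).inter
      ((isClosed_iInter fun k => isClosed_iInter fun _ => isClosed_le (hcont k) continuous_const).inter
        (isClosed_biInter fun n _ => isClosed_le (by fun_prop) continuous_const))
  have hne : ∀ T, (F T).Nonempty := by
    intro T
    obtain ⟨m, hm⟩ := steer hbj hb hα s hs (T + t0) fun n hn => by
      have : Nat.log b n ≤ s.sup (fun n => Nat.log b n) := Finset.le_sup (f := fun n => Nat.log b n) hn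
      omega
    have h1 : (m : ℝ) / (b : ℝ) ^ (T + t0) ≤ ((m : ℝ) + 1) / (b : ℝ) ^ (T + t0) := by
      have hb' : (64 : ℝ) ≤ b := by exact_mod_cast hb
      gcongr
      linarith
    exact ⟨e ((m : ℝ) / (b : ℝ) ^ (T + t0)), norm_e _, fun k hk => hm.sums _ le_rfl h1 k (by omega),
      hm.ctrl _ le_rfl h1⟩
  have hanti : ∀ T, F (T + 1) ⊆ F T := fun T z hz => ⟨hz.1, fun k hk => hz.2.1 k (by omega), hz.2.2⟩
  have hcomp : IsCompact (F 0) := by
    refine (isCompact_closedBall (0 : ℂ) 1).of_isClosed_subset (hclosed 0) fun z hz => ?_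
    rw [mem_closedBall_zero_iff, hz.1]
  obtain ⟨z, hz⟩ := IsCompact.nonempty_iInter_of_sequence_nonempty_isCompact_isClosed F hanti hne
    hcomp hclosed
  rw [mem_iInter] at hz
  exact ⟨z, ⟨(hz 0).1, fun k => (hz k).2.1 k le_rfl⟩, (hz 0).2.2⟩

theorem sidon_E {b j : ℕ} (hbj : b = 4 * j) (hb : 64 ≤ b) :
    SidonIneq ((b : ℝ) ^ 10) 1 (4 / 3) (E b) := by
  intro s c M hs hM hbd
  -- directions
  have hα : ∀ w : ℂ, ∃ a : ℂ, ‖a‖ = 1 ∧ w * a = ‖w‖ := by
    intro w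
    by_cases hw : w = 0
    · exact ⟨1, by simp, by simp [hw]⟩
    · have hw' : (‖w‖ : ℂ) ≠ 0 := by exact_mod_cast (norm_pos_iff.2 hw).ne'
      refine ⟨(starRingEnd ℂ) w / ‖w‖, ?_, ?_⟩
      · rw [norm_div, RCLike.norm_conj, Complex.norm_real, norm_norm,
          div_self (norm_pos_iff.2 hw).ne']
      · rw [mul_div_assoc', Complex.mul_conj, Complex.normSq_eq_norm_sq]
        push_cast
        field_simp
  choose a ha1 ha2 using fun n => hα (c n)
  obtain ⟨z, hz, hza⟩ := exists_mem_E hbj hb ha1 s hs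
  have h1 : (∑ n ∈ s, ‖c n‖ : ℝ) ≤ ‖∑ n ∈ s, c n * z ^ n‖ + 1 / 4 * ∑ n ∈ s, ‖c n‖ := by
    have h2 : ((∑ n ∈ s, ‖c n‖ : ℝ) : ℂ) = ∑ n ∈ s, c n * z ^ n - ∑ n ∈ s, c n * (z ^ n - a n) := by
      rw [← Finset.sum_sub_distrib]
      push_cast
      refine Finset.sum_congr rfl fun n _ => ?_
      rw [← ha2 n]
      ring
    have h3 : (∑ n ∈ s, ‖c n‖ : ℝ) = ‖((∑ n ∈ s, ‖c n‖ : ℝ) : ℂ)‖ := by
      rw [Complex.norm_real, Real.norm_of_nonneg (Finset.sum_nonneg fun _ _ => norm_nonneg _)]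
    rw [h3, h2]
    refine (norm_sub_le _ _).trans (add_le_add le_rfl ?_)
    refine (norm_sum_le _ _).trans ?_
    rw [← h2, ← h3, Finset.mul_sum]
    refine Finset.sum_le_sum fun n hn => ?_
    rw [norm_mul, mul_comm]
    exact mul_le_mul_of_nonneg_right (hza n hn) (norm_nonneg _)
  have h4 := hbd z hz
  linarith

/-- the coefficients of the sum of all `z ^ (b ^ k)` -/
noncomputable def cf (b : ℕ) (n : ℕ) : ℂ := by
  classical exact if ∃ k : ℕ, b ^ k = n then 1 else 0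

theorem cf_pow (b k : ℕ) : cf b (b ^ k) = 1 := by
  unfold cf
  exact if_pos ⟨k, rfl⟩

theorem cf_ne {b n : ℕ} (h : cf b n ≠ 0) : ∃ k : ℕ, b ^ k = n := by
  unfold cf at h
  by_contra hno
  rw [if_neg hno] at h
  exact h rfl

theorem cf_norm_le (b n : ℕ) : ‖cf b n‖ ≤ 1 := by
  unfold cf
  split_ifs <;> simp

theorem cf_lac {b : ℕ} (hb : 64 ≤ b) {q : ℝ} (hq : q ≤ b) : Lac q (cf b) := by
  constructor
  · by_contra h
    obtain ⟨k, hk⟩ := cf_ne h
    have : 0 < b ^ k := by positivity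
    omega
  · intro m n hmn hm hn
    obtain ⟨i, rfl⟩ := cf_ne hm
    obtain ⟨j, rfl⟩ := cf_ne hn
    have hij : i < j := (Nat.pow_lt_pow_iff_right (by omega)).1 hmn
    have h1 : b ^ (i + 1) ≤ b ^ j := Nat.pow_le_pow_right (by omega) hij
    have h2 : ((b ^ (i + 1) : ℕ) : ℝ) ≤ ((b ^ j : ℕ) : ℝ) := by exact_mod_cast h1
    refine le_trans ?_ h2
    rw [pow_succ]
    push_cast
    rw [mul_comm]
    gcongr

theorem cf_conv (b : ℕ) : Conv (cf b) := conv_of_bdd' (A := 1) (cf_norm_le b)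

theorem tendsto_S {b : ℕ} (hb : 64 ≤ b) {z : ℂ} (hz : ‖z‖ < 1) :
    Tendsto (fun K => S b K z) atTop (𝓝 (ps (cf b) z)) := by
  have hinj : Function.Injective fun k : ℕ => b ^ k := Nat.pow_right_injective (by omega)
  have hsupp : Function.support (fun n => cf b n * z ^ n) ⊆ Set.range fun k : ℕ => b ^ k := by
    intro n hn
    exact cf_ne (left_ne_zero_of_mul hn)
  have hsum := cf_conv b z hz
  have h1 : HasSum (fun k : ℕ => cf b (b ^ k) * z ^ (b ^ k)) (ps (cf b) z) :=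
    (Function.Injective.hasSum_iff hinj (fun n hn => by
      by_contra h
      exact hn (hsupp h))).2 hsum.hasSum
  have h2 := h1.tendsto_sum_nat
  simp only [cf_pow, one_mul] at h2
  exact h2

theorem S_radial {b : ℕ} (hb : 64 ≤ b) {ζ : ℂ} (hζ : ∀ k, ‖S b k ζ‖ ≤ 8) {t : ℝ} (ht : 0 ≤ t)
    (ht1 : t < 1) (K : ℕ) : ‖S b K (t * ζ)‖ ≤ 8 := by
  have hanti : ∀ k, t ^ (b ^ (k + 1)) ≤ t ^ (b ^ k) := fun k =>
    pow_le_pow_of_le_one ht ht1.le (Nat.pow_le_pow_right (by omega) (by omega))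
  have key : ∀ K, ‖S b K (t * ζ) - (t : ℂ) ^ (b ^ K) * S b K ζ‖ ≤ 8 * (t - t ^ (b ^ K)) := by
    intro K
    induction K with
    | zero => simp [S]
    | succ K ih =>
      have h1 : S b (K + 1) (t * ζ) - (t : ℂ) ^ (b ^ (K + 1)) * S b (K + 1) ζ =
          (S b K (t * ζ) - (t : ℂ) ^ (b ^ K) * S b K ζ) +
            ((t : ℂ) ^ (b ^ K) - (t : ℂ) ^ (b ^ (K + 1))) * S b (K + 1) ζ := by
        rw [S_succ, S_succ, mul_pow]
        ring
      rw [h1]
      refine (norm_add_le _ _).trans ?_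
      have h2 : ‖((t : ℂ) ^ (b ^ K) - (t : ℂ) ^ (b ^ (K + 1))) * S b (K + 1) ζ‖ ≤
          (t ^ (b ^ K) - t ^ (b ^ (K + 1))) * 8 := by
        rw [norm_mul]
        refine mul_le_mul (le_of_eq ?_) (hζ _) (norm_nonneg _) (by linarith [hanti K])
        rw [← Complex.ofReal_pow, ← Complex.ofReal_pow, ← Complex.ofReal_sub, Complex.norm_real,
          Real.norm_of_nonneg (by linarith [hanti K])]
      linarith
  have h1 := key K
  have h2 : ‖(t : ℂ) ^ (b ^ K) * S b K ζ‖ ≤ t ^ (b ^ K) * 8 := by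
    rw [norm_mul, ← Complex.ofReal_pow, Complex.norm_real, Real.norm_of_nonneg (by positivity)]
    exact mul_le_mul_of_nonneg_left (hζ K) (by positivity)
  have h3 : S b K (t * ζ) = (S b K (t * ζ) - (t : ℂ) ^ (b ^ K) * S b K ζ) +
      (t : ℂ) ^ (b ^ K) * S b K ζ := by ring
  rw [h3]
  refine (norm_add_le _ _).trans ?_
  linarith

theorem E_subset (b : ℕ) : E b ⊆ sphere 0 1 := fun z hz => by simpa using hz.1

theorem bdd_radii {b : ℕ} (hb : 64 ≤ b) : BddOnSet (cf b) (radii (E b)) := by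
  refine ⟨8, ?_⟩
  rintro z ⟨t, ht, ζ, hζ, rfl⟩
  have hz : ‖(t : ℂ) * ζ‖ < 1 := by
    rw [norm_mul, hζ.1, mul_one, Complex.norm_real, Real.norm_of_nonneg ht.1]
    exact ht.2
  exact le_of_tendsto (tendsto_S hb hz).norm (Eventually.of_forall fun K =>
    S_radial hb hζ.2 ht.1 ht.2 K)

theorem unbdd {b : ℕ} (hb : 64 ≤ b) : ¬ BddOnSet (cf b) (ball 0 1) := by
  intro h
  obtain ⟨T, hT⟩ := sum_bdd_of_bdd (q := 64) (by norm_num)
    (cf_lac hb (by exact_mod_cast hb)) (cf_conv b) h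
  obtain ⟨K, hK⟩ := exists_nat_gt T
  have hinj : Function.Injective fun k : ℕ => b ^ k := Nat.pow_right_injective (by omega)
  have h1 := hT ((Finset.range K).map ⟨fun k : ℕ => b ^ k, hinj⟩)
  rw [Finset.sum_map] at h1
  simp only [Function.Embedding.coeFn_mk, cf_pow, norm_one, Finset.sum_const, Finset.card_range,
    nsmul_eq_mul, mul_one] at h1
  linarith

theorem forces {b j : ℕ} (hbj : b = 4 * j) (hb : 64 ≤ b) {c : ℕ → ℂ} (hL : Lac ((b : ℝ) ^ 10) c)
    (hc : Conv c) (hbd : BddOnSet c (radii (E b))) : BddOnSet c (ball 0 1) := by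
  obtain ⟨M, hM⟩ := hbd
  refine bdd_of_sum_bdd hc (sum_le_of_dilates (N := 1) (C := 4 / 3) (M := max M 0) hL hc
    (le_max_right _ _) fun ρ hρ => ?_)
  refine ⟨(max ρ 0 + 1) / 2, by linarith [le_max_left ρ 0, max_lt hρ one_pos],
    by linarith [max_lt hρ one_pos], E b, fun z hz => hz.1.le, sidon_E hbj hb, fun z hz => ?_⟩
  exact (hM _ ⟨(max ρ 0 + 1) / 2, ⟨by linarith [le_max_right ρ 0],
    by linarith [max_lt hρ one_pos]⟩, z, hz, rfl⟩).trans (le_max_left _ _)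

end Ratio

open Metric Set Filter Topology

/-- **No single ratio decides.** For every `q` there are a larger ratio `Q` and a set on which every
`Q`-lacunary function bounded on the set is bounded in the disc, while some `q`-lacunary function is
bounded on the set and unbounded in the disc. -/
theorem no_single_ratio (q : ℝ) : ∃ Q : ℝ, q < Q ∧ ∃ S : Set ℂ, S ⊆ ball 0 1 ∧
    (∀ c : ℕ → ℂ, Lac Q c → Conv c → BddOnSet c S → BddOnSet c (ball 0 1)) ∧
    ∃ c : ℕ → ℂ, Lac q c ∧ Conv c ∧ BddOnSet c S ∧ ¬ BddOnSet c (ball 0 1) := by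
  obtain ⟨j0, hj0⟩ := exists_nat_gt q
  set j : ℕ := max j0 16 with hj
  have hb : 64 ≤ 4 * j := by omega
  have hqb : q ≤ ((4 * j : ℕ) : ℝ) := by
    have h1 : (j0 : ℝ) ≤ ((4 * j : ℕ) : ℝ) := by exact_mod_cast (show j0 ≤ 4 * j by omega)
    linarith
  have hb' : (64 : ℝ) ≤ ((4 * j : ℕ) : ℝ) := by exact_mod_cast hb
  refine ⟨((4 * j : ℕ) : ℝ) ^ 10, ?_, radii (Ratio.E (4 * j)), radii_subset (Ratio.E_subset _),
    fun c hL hc hbd => Ratio.forces rfl hb hL hc hbd, Ratio.cf (4 * j), Ratio.cf_lac hb hqb,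
    Ratio.cf_conv _, Ratio.bdd_radii hb, Ratio.unbdd hb⟩
  have h2 : ((4 * j : ℕ) : ℝ) < ((4 * j : ℕ) : ℝ) ^ 10 := by
    have h3 : ((4 * j : ℕ) : ℝ) ^ 1 < ((4 * j : ℕ) : ℝ) ^ 10 :=
      pow_lt_pow_right₀ (by linarith) (by norm_num)
    rwa [pow_one] at h3
  linarith

end Forcing
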