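import Pool.Agent.Lib.MP_c80ac4_an.Local.Diff
import Pool.Agent.Lib.MP_c80ac4_an.Grow

/-! # Thin forcing sets -/

namespace Forcing

open Complex Metric Set MeasureTheory Filter Topology

/-- A sequence of points of the radius `(0, 1)` converging to `exp (-1/m^3)`. -/
def thinPts (m : ℕ) : Set ℂ :=
  {z | ∃ a b : ℕ, 1 ≤ a ∧ a ≤ b ∧ m ≤ b ^ 2 ∧
    z = ((Real.exp (-(1 / (m : ℝ) ^ 3 + a / (b : ℝ) ^ 2)) : ℝ) : ℂ)}

/-- Unbounded sequences have records with a margin. -/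
theorem exists_record {v : ℕ → ℝ} (hv : ∀ n, 0 ≤ v n) (hunb : ¬ ∃ A : ℝ, ∀ n, v n ≤ A)
    (N : ℕ) (T : ℝ) :
    ∃ n : ℕ, N ≤ n ∧ T ≤ v n ∧ ∀ m < n, Real.exp (1 / (n : ℝ) ^ 2) * v m ≤ v n := by
  by_contra hno
  push Not at hno
  have hT : ∃ m, T < v m := by
    by_contra hcon
    push Not at hcon
    exact hunb ⟨T, hcon⟩
  obtain ⟨m₁, hm₁⟩ := hT
  set N₁ := max N (m₁ + 1) with hN₁
  have hstep : ∀ n, N₁ ≤ n → ∃ m < n, v n < Real.exp (1 / (n : ℝ) ^ 2) * v m := by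
    intro n hn
    by_cases hTn : T ≤ v n
    · exact hno n ((le_max_left _ _).trans hn) hTn
    · refine ⟨m₁, by have := le_max_right N (m₁ + 1); omega, ?_⟩
      have h1 : 1 ≤ Real.exp (1 / (n : ℝ) ^ 2) := Real.one_le_exp (by positivity)
      nlinarith [hv m₁]
  have hsummable : Summable fun n : ℕ => 1 / (n : ℝ) ^ 2 :=
    Real.summable_one_div_nat_pow.2 (by norm_num)
  set Z := ∑' n : ℕ, 1 / (n : ℝ) ^ 2 with hZ
  set R := ∑ k ∈ Finset.range N₁, v k with hR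
  have hR0 : 0 ≤ R := Finset.sum_nonneg fun k _ => hv k
  have hbd : ∀ n, v n ≤ R * Real.exp (∑ k ∈ Finset.range (n + 1), 1 / (k : ℝ) ^ 2) := by
    intro n
    induction n using Nat.strong_induction_on with
    | _ n ih =>
      have hs0 : 0 ≤ ∑ k ∈ Finset.range (n + 1), 1 / (k : ℝ) ^ 2 :=
        Finset.sum_nonneg fun k _ => by positivity
      rcases lt_or_ge n N₁ with h | h
      · have h1 : v n ≤ R := Finset.single_le_sum (f := v) (fun k _ => hv k) (Finset.mem_range.2 h)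
        have h2 := Real.one_le_exp hs0
        nlinarith
      · obtain ⟨m, hm, hlt⟩ := hstep n h
        refine hlt.le.trans ?_
        have h1 := ih m hm
        have h2 : ∑ k ∈ Finset.range (m + 1), 1 / (k : ℝ) ^ 2 ≤
            ∑ k ∈ Finset.range n, 1 / (k : ℝ) ^ 2 :=
          Finset.sum_le_sum_of_subset_of_nonneg (Finset.range_mono hm) fun k _ _ => by positivity
        rw [Finset.sum_range_succ, Real.exp_add]
        calc Real.exp (1 / (n : ℝ) ^ 2) * v m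
            ≤ Real.exp (1 / (n : ℝ) ^ 2) *
              (R * Real.exp (∑ k ∈ Finset.range (m + 1), 1 / (k : ℝ) ^ 2)) := by gcongr
          _ ≤ Real.exp (1 / (n : ℝ) ^ 2) *
              (R * Real.exp (∑ k ∈ Finset.range n, 1 / (k : ℝ) ^ 2)) := by gcongr
          _ = _ := by ring
  apply hunb
  refine ⟨R * Real.exp Z, fun n => (hbd n).trans ?_⟩
  refine mul_le_mul_of_nonneg_left (Real.exp_le_exp.2 ?_) hR0
  exact hsummable.sum_le_tsum _ fun k _ => by positivity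

/-- **Bounded coefficients from thin sets.** -/
theorem coeffForcing_of_thinPts {S : Set ℂ} (h : ∀ m : ℕ, 1 ≤ m → thinPts m ⊆ S) :
    CoeffForcing S := by
  rintro c ⟨q, hq, hL⟩ hc ⟨M, hM⟩
  by_contra hunb
  obtain ⟨p, η, C, hp1, hη, hC, hdiff⟩ := diff_bound hq
  have hlog2 : 0 < Real.log 2 := Real.log_pos (by norm_num)
  have hlog2' : Real.log 2 < 1 := by
    have := Real.log_two_lt_d9
    linarith
  have hlog2'' : 1 / 2 < Real.log 2 := by
    have := Real.log_two_gt_d9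
    linarith
  set M' := max M 0 with hM'
  have hM'0 : 0 ≤ M' := le_max_right _ _
  obtain ⟨n₀, hn₀N, hn₀T, hrec⟩ := exists_record (v := fun n => ‖c n‖) (fun n => norm_nonneg _) hunb
    (max (64 * p ^ 2) (⌈64 * (p : ℝ) ^ 2 / η⌉₊)) (3 * (C * M' + 1))
  have hn₀1 : 64 * p ^ 2 ≤ n₀ := (le_max_left _ _).trans hn₀N
  have hn₀2 : 64 * (p : ℝ) ^ 2 ≤ η * n₀ := by
    have h1 : 64 * (p : ℝ) ^ 2 / η ≤ n₀ :=
      (Nat.le_ceil _).trans (by exact_mod_cast (le_max_right _ _).trans hn₀N)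
    rw [div_le_iff₀ hη] at h1
    linarith
  have hp2 : 1 ≤ p ^ 2 := Nat.one_le_pow _ _ hp1
  have hn₀pos : 64 ≤ n₀ := by nlinarith
  have hn₀R : (64 : ℝ) ≤ n₀ := by exact_mod_cast hn₀pos
  -- the radius
  set t : ℝ := 1 / (n₀ : ℝ) ^ 3 with ht
  have ht0 : 0 < t := by positivity
  set r : ℝ := Real.exp (-t) with hr
  have hr0 : 0 < r := Real.exp_pos _
  have hr1 : r < 1 := by
    have := Real.exp_lt_exp.2 (show -t < 0 by linarith)
    rwa [Real.exp_zero] at this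
  have hsum := hc.summable_norm hr0.le hr1
  set V : ℕ → ℝ := fun n => ‖c n‖ * r ^ n with hV
  have hrn₀ : r ^ n₀ = Real.exp (-(1 / (n₀ : ℝ) ^ 2)) := by
    rw [hr, ← Real.exp_nat_mul, ht]
    congr 1
    field_simp
  have hVn₀ : ∀ m < n₀, V m ≤ V n₀ := by
    intro m hm
    have h1 := hrec m hm
    have h2 : V m ≤ ‖c m‖ := by
      have : r ^ m ≤ 1 := pow_le_one₀ hr0.le hr1.le
      simp only [hV]
      nlinarith [norm_nonneg (c m)]
    refine h2.trans ?_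
    simp only [hV]
    rw [hrn₀]
    have h3 : Real.exp (1 / (n₀ : ℝ) ^ 2) * Real.exp (-(1 / (n₀ : ℝ) ^ 2)) = 1 := by
      rw [← Real.exp_add, add_neg_cancel, Real.exp_zero]
    calc ‖c m‖ = (Real.exp (1 / (n₀ : ℝ) ^ 2) * ‖c m‖) * Real.exp (-(1 / (n₀ : ℝ) ^ 2)) := by
          rw [mul_comm (Real.exp (1 / (n₀ : ℝ) ^ 2)) ‖c m‖, mul_assoc, h3, mul_one]
      _ ≤ ‖c n₀‖ * Real.exp (-(1 / (n₀ : ℝ) ^ 2)) := by
          exact mul_le_mul_of_nonneg_right h1 (Real.exp_pos _).le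
  have hT0 : 0 < ‖c n₀‖ := by
    have : 0 ≤ C * M' := by positivity
    linarith
  have hVn₀' : C * M' < V n₀ := by
    simp only [hV]
    rw [hrn₀]
    have h1 : 1 - 1 / (n₀ : ℝ) ^ 2 ≤ Real.exp (-(1 / (n₀ : ℝ) ^ 2)) := by
      have := Real.add_one_le_exp (-(1 / (n₀ : ℝ) ^ 2))
      linarith
    have h2 : 1 / (n₀ : ℝ) ^ 2 ≤ 1 / 2 := by
      rw [div_le_div_iff₀ (by positivity) (by norm_num)]
      nlinarith
    have h3 : 1 / 2 ≤ Real.exp (-(1 / (n₀ : ℝ) ^ 2)) := by linarith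
    have h4 : 0 ≤ C * M' := by positivity
    nlinarith
  -- the maximal term
  obtain ⟨n₁, hn₁n₀, hmax⟩ : ∃ n₁, n₀ ≤ n₁ ∧ ∀ m, V m ≤ V n₁ := by
    obtain ⟨n, hn⟩ := grow_max (V := V) hsum.tendsto_atTop_zero (m₀ := n₀) (by
      simp only [hV]
      positivity)
    rcases le_or_gt n₀ n with h1 | h1
    · exact ⟨n, h1, hn⟩
    · exact ⟨n₀, le_rfl, fun m => (hn m).trans (hVn₀ n h1)⟩
  -- the grid
  have hp0 : 0 < 4 * p := by omega
  set b : ℕ := n₁ / (4 * p) with hb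
  have hb1 : 4 * p * b ≤ n₁ := Nat.mul_div_le n₁ (4 * p)
  have hb2 : n₁ < 4 * p * (b + 1) := Nat.lt_mul_div_succ n₁ hp0
  have hb3 : 16 * p ≤ b := by
    rw [hb, Nat.le_div_iff_mul_le hp0]
    nlinarith
  have hbpos : 0 < b := by omega
  have hb4 : n₁ < 8 * p * b := by nlinarith
  have hb5 : n₀ ≤ b ^ 2 := by nlinarith
  have hbR : (0 : ℝ) < b := by exact_mod_cast hbpos
  have hn₁R : (0 : ℝ) < n₁ := by
    have : (n₀ : ℝ) ≤ n₁ := by exact_mod_cast hn₁n₀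
    linarith
  have hpR : (1 : ℝ) ≤ p := by exact_mod_cast hp1
  have hb1R : 4 * (p : ℝ) * b ≤ n₁ := by exact_mod_cast hb1
  have hb3R : 16 * (p : ℝ) ≤ b := by exact_mod_cast hb3
  have hb4R : (n₁ : ℝ) < 8 * p * b := by exact_mod_cast hb4
  set a₀ : ℕ := ⌊(b : ℝ) ^ 2 * Real.log 2 / n₁⌋₊ with ha₀
  have ha₀1 : (a₀ : ℝ) ≤ (b : ℝ) ^ 2 * Real.log 2 / n₁ := Nat.floor_le (by positivity)
  have ha₀2 : (b : ℝ) ^ 2 * Real.log 2 / n₁ < a₀ + 1 := Nat.lt_floor_add_one _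
  have ha₀1' : (a₀ : ℝ) * n₁ ≤ (b : ℝ) ^ 2 * Real.log 2 := by rwa [le_div_iff₀ hn₁R] at ha₀1
  have ha₀2' : (b : ℝ) ^ 2 * Real.log 2 < (a₀ + 1) * n₁ := by rwa [div_lt_iff₀ hn₁R] at ha₀2
  have hbn : 2 * (n₁ : ℝ) ≤ (b : ℝ) ^ 2 := by nlinarith
  have ha₀pos : 1 ≤ a₀ := by
    rw [ha₀, Nat.one_le_floor_iff, le_div_iff₀ hn₁R]
    nlinarith
  set h' : ℝ := (a₀ : ℝ) / (b : ℝ) ^ 2 with hh'
  have hh'0 : 0 < h' := by
    have : (1 : ℝ) ≤ a₀ := by exact_mod_cast ha₀pos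
    positivity
  have hb2R : (0 : ℝ) < (b : ℝ) ^ 2 := by positivity
  have hnear : |(n₁ : ℝ) * h' - Real.log 2| ≤ η := by
    have h1 : (n₁ : ℝ) * h' ≤ Real.log 2 := by
      rw [hh', mul_div_assoc', div_le_iff₀ hb2R]
      linarith
    have h2 : Real.log 2 - η ≤ (n₁ : ℝ) * h' := by
      rw [hh', mul_div_assoc', le_div_iff₀ hb2R]
      have h3 : (n₁ : ℝ) ≤ η * (b : ℝ) ^ 2 := by
        have h4 : (n₁ : ℝ) * n₁ ≤ 64 * (p : ℝ) ^ 2 * (b : ℝ) ^ 2 := by nlinarith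
        have h5 : 64 * (p : ℝ) ^ 2 ≤ η * n₁ := by
          have : (n₀ : ℝ) ≤ n₁ := by exact_mod_cast hn₁n₀
          nlinarith
        have h6 : (n₁ : ℝ) * n₁ ≤ (η * (b : ℝ) ^ 2) * n₁ := by nlinarith
        exact le_of_mul_le_mul_right h6 hn₁R
      nlinarith
    rw [abs_le]
    constructor <;> linarith
  -- apply the difference bound
  have hcn₁ : c n₁ ≠ 0 := by
    intro h0
    have h1 := hmax n₀
    simp only [hV] at h1 hVn₀'
    rw [h0, norm_zero, zero_mul] at h1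
    have h4 : 0 ≤ C * M' := by positivity
    linarith
  have hbnorm : ∀ n, ‖c n * (r : ℂ) ^ n‖ = V n := fun n => by
    rw [norm_mul, norm_pow, Complex.norm_real, Real.norm_of_nonneg hr0.le]
  have hrC : (r : ℂ) ≠ 0 := by exact_mod_cast hr0.ne'
  have key := hdiff (fun n => c n * (r : ℂ) ^ n) n₁ h' M'
    ⟨by simp [hL.1], fun m n hmn hm hn => hL.2 m n hmn (left_ne_zero_of_mul hm)
      (left_ne_zero_of_mul hn)⟩
    (by simpa only [hbnorm] using hsum) (fun n => by rw [hbnorm, hbnorm]; exact hmax n)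
    (mul_ne_zero hcn₁ (pow_ne_zero _ hrC)) hh'0 hnear fun j hj => ?_
  · rw [hbnorm] at key
    linarith [hmax n₀]
  · -- the value at a point of the grid
    have hz : ((Real.exp (-(1 / (n₀ : ℝ) ^ 3 + (((p + j) * a₀ : ℕ) : ℝ) / (b : ℝ) ^ 2)) : ℝ) : ℂ)
        ∈ S := by
      refine h n₀ (by omega) ⟨(p + j) * a₀, b, ?_, ?_, hb5, rfl⟩
      · have : 1 ≤ (p + j) * a₀ := Nat.one_le_iff_ne_zero.2 (Nat.mul_ne_zero (by omega) (by omega))
        exact this
      · have h1 : (((p + j) * a₀ : ℕ) : ℝ) ≤ b := by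
          push_cast
          have h2 : ((p : ℝ) + j) ≤ 2 * p := by
            have : (j : ℝ) ≤ p := by exact_mod_cast hj
            linarith
          have h3 : (2 * (p : ℝ)) * a₀ * n₁ ≤ b * n₁ := by
            calc (2 * (p : ℝ)) * a₀ * n₁ = 2 * p * (a₀ * n₁) := by ring
              _ ≤ 2 * p * ((b : ℝ) ^ 2 * Real.log 2) := by gcongr
              _ ≤ 2 * p * ((b : ℝ) ^ 2 * 1) := by gcongr
              _ = b * (2 * p * b) := by ring
              _ ≤ b * n₁ := by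
                  apply mul_le_mul_of_nonneg_left _ hbR.le
                  nlinarith
          have h4 := le_of_mul_le_mul_right h3 hn₁R
          have h5 : (0 : ℝ) ≤ a₀ := Nat.cast_nonneg _
          nlinarith
        exact_mod_cast h1
    have h1 := hM _ hz
    refine le_trans (le_of_eq ?_) (h1.trans (le_max_left _ _))
    congr 1
    unfold ps
    refine tsum_congr fun n => ?_
    rw [mul_assoc]
    congr 1
    rw [hr, ← Complex.ofReal_pow, ← Complex.ofReal_pow, ← Complex.ofReal_pow, ← Complex.ofReal_mul]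
    congr 1
    rw [← Real.exp_nat_mul, ← Real.exp_nat_mul, ← Real.exp_nat_mul, ← Real.exp_add]
    congr 1
    rw [hh', ht]
    push_cast
    ring

end Forcing
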