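import Pool.Agent.Lib.MP_c80ac4_an.Criterion
import Pool.Agent.Lib.MP_c80ac4_an.Levels

/-! # Uniqueness on forcing sets; the uniform bound without a lower bound for the frequencies -/

namespace Forcing

open Complex Metric Set MeasureTheory Filter Topology

/-- A power series with bounded coefficients and sum zero has coefficients zero. -/
theorem coeff_zero_of_ps_zero {g : ℕ → ℂ} (hg : Conv g) (h0 : ∀ z : ℂ, ‖z‖ < 1 → ps g z = 0)
    (n : ℕ) : g n = 0 := by
  have hsum : ∀ r : ℝ, 0 ≤ r → r < 1 → Summable fun n => ‖g n‖ * r ^ n := fun r h1 h2 =>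
    hg.summable_norm h1 h2
  have hfps : HasFPowerSeriesOnBall (ps g) (FormalMultilinearSeries.ofScalars ℂ g) 0 (1 / 2 : NNReal) := by
    refine ⟨?_, by simp, ?_⟩
    · apply FormalMultilinearSeries.le_radius_of_summable_norm
      refine (hsum (1 / 2) (by norm_num) (by norm_num)).congr fun n => ?_
      rw [FormalMultilinearSeries.ofScalars_norm]
      norm_num
    · intro y hy
      rw [Metric.mem_eball, edist_zero_right, ← ofReal_norm] at hy
      have hy1 : ‖y‖ < 1 := by
        have h2 : ENNReal.ofReal ‖y‖ < ENNReal.ofReal (1 / 2) := by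
          refine lt_of_lt_of_eq hy ?_
          rw [ENNReal.ofReal]
          congr 1
          ext
          simp
        rw [ENNReal.ofReal_lt_ofReal_iff (by norm_num)] at h2
        linarith
      rw [zero_add]
      have h3 := (hg y hy1).hasSum
      have e : (fun n => (FormalMultilinearSeries.ofScalars ℂ g n) fun _ => y) =
          fun n => g n * y ^ n := by
        funext n
        rw [FormalMultilinearSeries.ofScalars_apply_eq, smul_eq_mul]
      rw [e]
      exact h3
  have h1 : FormalMultilinearSeries.ofScalars ℂ g = 0 := by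
    refine hfps.hasFPowerSeriesAt.eq_zero_of_eventually ?_
    filter_upwards [ball_mem_nhds (0 : ℂ) one_pos] with z hz
    exact h0 z (mem_ball_zero_iff.1 hz)
  have h2 := (FormalMultilinearSeries.ofScalars_series_eq_zero (E := ℂ) (c := g)).1 h1
  rw [h2]
  rfl

/-- A convergent power series vanishing on a forcing set is zero. -/
theorem ps_zero_of_forcing {S : Set ℂ} (hS : S ⊆ ball 0 1) (hF : IsForcing S) {g : ℕ → ℂ}
    (hg : Conv g) (h0 : ∀ z ∈ S, ps g z = 0) (n : ℕ) : g n = 0 := by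
  refine coeff_zero_of_ps_zero hg ?_ n
  have h1 : ∃ r : ℝ, r < 1 ∧ (S ∩ closedBall 0 r).Infinite := by
    by_contra hcon
    push Not at hcon
    exact not_forcing_of_discrete hS (fun ρ hρ => hcon ρ hρ) hF
  obtain ⟨r, hr, hinf⟩ := h1
  obtain ⟨z₀, hz₀, hacc⟩ := hinf.exists_accPt_of_subset_isCompact (isCompact_closedBall (0 : ℂ) r)
    inter_subset_right
  have hz₀1 : z₀ ∈ ball (0 : ℂ) 1 := by
    rw [mem_closedBall_zero_iff] at hz₀
    exact mem_ball_zero_iff.2 (hz₀.trans_lt hr)
  have han : AnalyticOnNhd ℂ (ps g) (ball 0 1) := (ps_differentiableOn hg).analyticOnNhd isOpen_ball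
  have hfreq : ∃ᶠ z in 𝓝[≠] z₀, ps g z = 0 := by
    rw [accPt_iff_frequently_nhdsNE] at hacc
    exact hacc.mono fun z hz => h0 z hz.1
  have heq := han.eqOn_zero_of_preconnected_of_frequently_eq_zero
    (convex_ball (0 : ℂ) 1).isPreconnected hz₀1 hfreq
  exact fun z hz => heq (mem_ball_zero_iff.2 hz)

/-- Limits along a hyperfilter of uniformly bounded coefficients. -/
theorem exists_ultra_limit {g : ℕ → ℕ → ℂ} {B : ℕ → ℝ} (hB : ∀ i n, ‖g i n‖ ≤ B n) :
    ∃ G : ℕ → ℂ, ∀ n, Tendsto (fun i => g i n) (hyperfilter ℕ : Filter ℕ) (𝓝 (G n)) := by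
  have h : ∀ n, ∃ x : ℂ, Tendsto (fun i => g i n) (hyperfilter ℕ : Filter ℕ) (𝓝 x) := by
    intro n
    obtain ⟨x, -, hx⟩ := (isCompact_closedBall (0 : ℂ) (B n)).ultrafilter_le_nhds
      ((hyperfilter ℕ).map fun i => g i n) (by
        rw [le_principal_iff]
        exact Filter.mem_map.2 (Filter.Eventually.of_forall fun i =>
          mem_closedBall_zero_iff.2 (hB i n)))
    exact ⟨x, hx⟩
  choose G hG using h
  exact ⟨G, hG⟩

theorem hyper_le_atTop : (hyperfilter ℕ : Filter ℕ) ≤ atTop := by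
  rw [← Nat.cofinite_eq_atTop]
  exact hyperfilter_le_cofinite

/-- **The uniform bound for all frequencies.** -/
theorem unif_zero {S : Set ℂ} (hS : S ⊆ ball 0 1) (hF : IsForcing S) {q : ℝ} (hq : 1 < q) :
    ∃ C : ℝ, 0 < C ∧ UnifBound q 0 C S := by
  classical
  obtain ⟨N, C, hC0, hU⟩ := (isForcing_iff_unif hS).1 hF q hq
  by_contra hno
  push Not at hno
  have h1 : ∀ i : ℕ, ∃ c : ℕ → ℂ, Lac q c ∧ Conv c ∧ (∀ z ∈ S, ‖ps c z‖ ≤ 1) ∧
      ∃ s : Finset ℕ, (i : ℝ) + 1 < ∑ n ∈ s, ‖c n‖ := by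
    intro i
    have h2 := hno (i + 1) (by positivity)
    unfold UnifBound at h2
    push Not at h2
    obtain ⟨c, hL, hc, -, hb, s, hs⟩ := h2
    exact ⟨c, hL, hc, hb, s, hs⟩
  choose c hL hc hb s hs using h1
  have hsummable : ∀ i, Summable fun n => ‖c i n‖ := fun i => by
    obtain ⟨T, hT⟩ := sum_bdd_of_bdd hq (hL i) (hc i) (hF (c i) ⟨q, hq, hL i⟩ (hc i) ⟨1, hb i⟩)
    exact summable_of_sum_le (fun n => norm_nonneg _) hT
  set T : ℕ → ℝ := fun i => ∑' n, ‖c i n‖ with hT
  have hTi : ∀ i : ℕ, (i : ℝ) + 1 < T i := fun i =>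
    (hs i).trans_le ((hsummable i).sum_le_tsum (s i) fun n _ => norm_nonneg _)
  have hT0 : ∀ i, 0 < T i := fun i => lt_trans (by positivity) (hTi i)
  set g : ℕ → ℕ → ℂ := fun i n => c i n / (T i : ℂ) with hg
  have hgn : ∀ i n, ‖g i n‖ = ‖c i n‖ / T i := fun i n => by
    simp only [hg]
    rw [norm_div, Complex.norm_real, Real.norm_of_nonneg (hT0 i).le]
  have hg1 : ∀ i n, ‖g i n‖ ≤ 1 := fun i n => by
    rw [hgn, div_le_one (hT0 i)]
    exact (hsummable i).le_tsum n fun m _ => norm_nonneg _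
  have hgL : ∀ i, Lac q (g i) := fun i => ⟨by simp [hg, (hL i).1], fun m n hmn hm hn =>
    (hL i).2 m n hmn (fun h0 => hm (by simp [hg, h0])) (fun h0 => hn (by simp [hg, h0]))⟩
  have hgc : ∀ i, Conv (g i) := fun i => conv_of_bdd (hg1 i)
  have hgps : ∀ i z, ps (g i) z = ps (c i) z / T i := by
    intro i z
    unfold ps
    rw [← tsum_div_const]
    exact tsum_congr fun n => by simp only [hg]; ring
  have hgS : ∀ i, ∀ z ∈ S, ‖ps (g i) z‖ ≤ 1 / T i := by
    intro i z hz
    rw [hgps, norm_div, Complex.norm_real, Real.norm_of_nonneg (hT0 i).le]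
    exact div_le_div_of_nonneg_right (hb i z hz) (hT0 i).le
  obtain ⟨G, hG⟩ := exists_ultra_limit (B := fun _ => 1) hg1
  have hG1 : ∀ n, ‖G n‖ ≤ 1 := fun n =>
    le_of_tendsto (hG n).norm (Eventually.of_forall fun i => hg1 i n)
  have hTinv : Tendsto (fun i => 1 / T i) (hyperfilter ℕ : Filter ℕ) (𝓝 0) := by
    have h2 : Tendsto T atTop atTop :=
      tendsto_atTop_mono (fun i => (hTi i).le)
        (tendsto_atTop_add_const_right _ _ tendsto_natCast_atTop_atTop)
    exact (h2.const_div_atTop 1).mono_left hyper_le_atTop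
  have hGS : ∀ z ∈ S, ps G z = 0 := by
    intro z hz
    have hz1 : ‖z‖ < 1 := mem_ball_zero_iff.1 (hS hz)
    have h2 : Tendsto (fun i => ps (g i) z) (hyperfilter ℕ : Filter ℕ) (𝓝 (ps G z)) := by
      refine tendsto_tsum_of_dominated_convergence (bound := fun n => ‖z‖ ^ n)
        (summable_geometric_of_lt_one (norm_nonneg z) hz1) (fun n => (hG n).mul_const _)
        (Eventually.of_forall fun i n => ?_)
      rw [norm_mul, norm_pow]
      have : 0 ≤ ‖z‖ ^ n := by positivity
      nlinarith [hg1 i n]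
    have h3 : ‖ps G z‖ ≤ 0 :=
      le_of_tendsto_of_tendsto h2.norm hTinv (Eventually.of_forall fun i => hgS i z hz)
    exact norm_le_zero_iff.1 h3
  have hG0 : ∀ n, G n = 0 := ps_zero_of_forcing hS hF (conv_of_bdd hG1) hGS
  -- the low part tends to zero
  have hlow : Tendsto (fun i => 1 / T i + ∑ n ∈ Finset.range N, ‖g i n‖)
      (hyperfilter ℕ : Filter ℕ) (𝓝 0) := by
    have h2 : Tendsto (fun i => ∑ n ∈ Finset.range N, ‖g i n‖)
        (hyperfilter ℕ : Filter ℕ) (𝓝 (∑ n ∈ Finset.range N, (0 : ℝ))) := by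
      apply tendsto_finsetSum
      intro n _
      have := (hG n).norm
      rwa [hG0 n, norm_zero] at this
    have h3 := hTinv.add h2
    simpa using h3
  have hev : ∀ᶠ i in (hyperfilter ℕ : Filter ℕ),
      1 / T i + ∑ n ∈ Finset.range N, ‖g i n‖ < 1 / (C + 2) :=
    hlow.eventually (gt_mem_nhds (by positivity))
  obtain ⟨i, hi⟩ := hev.exists
  set δ : ℝ := 1 / T i + ∑ n ∈ Finset.range N, ‖g i n‖ with hδ
  have hδ0 : 0 < δ := by
    have h2 : 0 < 1 / T i := by
      have := hT0 i
      positivity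
    have h3 : 0 ≤ ∑ n ∈ Finset.range N, ‖g i n‖ := Finset.sum_nonneg fun n _ => norm_nonneg _
    linarith
  set h : ℕ → ℂ := fun n => if n < N then 0 else g i n with hh
  have hhn : ∀ n, h n ≠ 0 → g i n ≠ 0 := by
    intro n hn h0
    apply hn
    simp only [hh]
    simp [h0]
  have hhL : Lac q h := ⟨by
    by_contra h0
    exact hhn 0 h0 (hgL i).1, fun m n hmn hm hn => (hgL i).2 m n hmn (hhn m hm) (hhn n hn)⟩
  have hh1 : ∀ n, ‖h n‖ ≤ 1 := by
    intro n
    simp only [hh]
    split_ifs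
    · simp
    · exact hg1 i n
  have hhc : Conv h := conv_of_bdd hh1
  have hhps : ∀ z : ℂ, ‖z‖ < 1 → ps h z = ps (g i) z - ∑ n ∈ Finset.range N, g i n * z ^ n := by
    intro z hz
    have h1 := ((hgc i) z hz).hasSum
    have h2 : HasSum (fun n => if n ∈ Finset.range N then g i n * z ^ n else 0)
        (∑ n ∈ Finset.range N, g i n * z ^ n) := by
      have h3 : HasSum (fun n => if n ∈ Finset.range N then g i n * z ^ n else 0)
          (∑ n ∈ Finset.range N, if n ∈ Finset.range N then g i n * z ^ n else 0) :=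
        hasSum_sum_of_ne_finset_zero fun n hn => if_neg hn
      rwa [Finset.sum_congr rfl fun n hn => if_pos hn] at h3
    have h4 := h1.sub h2
    have h5 : (fun n => h n * z ^ n) = fun n => g i n * z ^ n -
        (if n ∈ Finset.range N then g i n * z ^ n else 0) := by
      funext n
      simp only [hh, Finset.mem_range]
      split_ifs <;> simp
    rw [← h5] at h4
    exact h4.tsum_eq
  have hhS : ∀ z ∈ S, ‖ps h z‖ ≤ δ := by
    intro z hz
    have hz1 : ‖z‖ < 1 := mem_ball_zero_iff.1 (hS hz)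
    rw [hhps z hz1]
    refine (norm_sub_le _ _).trans (add_le_add (hgS i z hz) ?_)
    refine (norm_sum_le _ _).trans (Finset.sum_le_sum fun n _ => ?_)
    rw [norm_mul, norm_pow]
    have : ‖z‖ ^ n ≤ 1 := pow_le_one₀ (norm_nonneg _) hz1.le
    nlinarith [norm_nonneg (g i n)]
  have hhsum := hU.scaled hhL hhc (fun n hn => by simp only [hh]; rw [if_pos hn]) hδ0 hhS
  have hgsummable : Summable fun n => ‖g i n‖ := by
    refine ((hsummable i).div_const (T i)).congr fun n => ?_
    rw [hgn]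
  have htot : ∑' n, ‖g i n‖ = 1 := by
    have h2 : ∑' n, ‖g i n‖ = (∑' n, ‖c i n‖) / T i := by
      rw [← tsum_div_const]
      exact tsum_congr fun n => hgn i n
    rw [h2]
    exact div_self (hT0 i).ne'
  have hle : ∑' n, ‖g i n‖ ≤ C * δ + δ := by
    refine hgsummable.tsum_le_of_sum_le fun s => ?_
    rw [← Finset.sum_filter_add_sum_filter_not s (fun n => N ≤ n)]
    refine add_le_add ?_ ?_
    · have h2 : ∑ n ∈ s.filter (fun n => N ≤ n), ‖g i n‖ = ∑ n ∈ s.filter (fun n => N ≤ n), ‖h n‖ := by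
        refine Finset.sum_congr rfl fun n hn => ?_
        simp only [hh]
        rw [if_neg (not_lt.2 (Finset.mem_filter.1 hn).2)]
      rw [h2]
      exact hhsum _
    · have h2 : ∑ n ∈ s.filter (fun n => ¬ N ≤ n), ‖g i n‖ ≤ ∑ n ∈ Finset.range N, ‖g i n‖ := by
        refine Finset.sum_le_sum_of_subset_of_nonneg (fun n hn => ?_) fun n _ _ => norm_nonneg _
        rw [Finset.mem_filter, not_le] at hn
        exact Finset.mem_range.2 hn.2
      have h3 : 0 < 1 / T i := by
        have := hT0 i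
        positivity
      linarith
  rw [htot] at hle
  rw [lt_div_iff₀ (by positivity)] at hi
  nlinarith

end Forcing
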